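import Mathlib

set_option autoImplicit false

open MeasureTheory Set Filter Topology

namespace Pool.Agent.H413R3

variable {E : Type*} [NormedAddCommGroup E] [NormedSpace ℝ E] [FiniteDimensional ℝ E]
  [MeasurableSpace E] [BorelSpace E]

/-- Packing sum: for `1`-separated finite sets `T`, the sums `∑ (1+‖z-x‖)^{-k}` are bounded. -/
theorem packing_sum (μ : Measure E) [μ.IsAddHaarMeasure] (k : ℕ)
    (hk : Module.finrank ℝ E < k) :
    ∃ C : ℝ, 0 < C ∧ ∀ T : Finset E, (∀ x ∈ T, ∀ y ∈ T, x ≠ y → 1 ≤ ‖x - y‖) →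
      ∀ z : E, ∑ x ∈ T, ((1 + ‖z - x‖) ^ k)⁻¹ ≤ C := by
  have hint : Integrable (fun x : E => ((1 + ‖x‖) ^ k)⁻¹) μ := by
    have h := integrable_one_add_norm (E := E) (μ := μ) (r := (k : ℝ)) (by exact_mod_cast hk)
    refine h.congr (Eventually.of_forall fun x => ?_)
    simp only [Real.rpow_neg (by positivity : (0:ℝ) ≤ 1 + ‖x‖), Real.rpow_natCast]
  set I : ℝ := ∫ x : E, ((1 + ‖x‖) ^ k)⁻¹ ∂μ with hI
  set v : ℝ := μ.real (Metric.ball (0 : E) (1 / 2)) with hv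
  have hvpos : 0 < v := by
    have h1 : 0 < μ (Metric.ball (0 : E) (1 / 2)) := Metric.measure_ball_pos _ _ (by norm_num)
    exact ENNReal.toReal_pos h1.ne' measure_ball_lt_top.ne
  have hInn : 0 ≤ I := integral_nonneg fun x => by positivity
  refine ⟨(3 / 2) ^ k * I / v + 1, by positivity, fun T hT z => ?_⟩
  have hintz : Integrable (fun y : E => ((1 + ‖z - y‖) ^ k)⁻¹) μ := hint.comp_sub_left z
  have hIz : ∫ y : E, ((1 + ‖z - y‖) ^ k)⁻¹ ∂μ = I :=
    integral_sub_left_eq_self (fun x : E => ((1 + ‖x‖) ^ k)⁻¹) μ z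
  have hball : ∀ x : E, v * ((1 + ‖z - x‖) ^ k)⁻¹ ≤
      (3 / 2) ^ k * ∫ y in Metric.ball x (1 / 2), ((1 + ‖z - y‖) ^ k)⁻¹ ∂μ := by
    intro x
    have h1 : ∫ y in Metric.ball x (1 / 2), ((1 + ‖z - x‖) ^ k)⁻¹ * ((3 / 2) ^ k)⁻¹ ∂μ ≤
        ∫ y in Metric.ball x (1 / 2), ((1 + ‖z - y‖) ^ k)⁻¹ ∂μ := by
      refine setIntegral_mono_on (integrableOn_const measure_ball_lt_top.ne) hintz.integrableOn
        measurableSet_ball fun y hy => ?_
      have hy' : ‖y - x‖ < 1 / 2 := by simpa [dist_eq_norm] using hy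
      have h2 : ‖z - y‖ ≤ ‖z - x‖ + 1 / 2 := by
        have : z - y = (z - x) - (y - x) := by abel
        rw [this]
        exact (norm_sub_le _ _).trans (by linarith)
      have h3 : 1 + ‖z - y‖ ≤ (3 / 2) * (1 + ‖z - x‖) := by
        nlinarith [norm_nonneg (z - x)]
      rw [← mul_inv, ← mul_pow]
      have h4 : 0 < 1 + ‖z - y‖ := by positivity
      rw [mul_comm]
      exact inv_anti₀ (by positivity) (pow_le_pow_left₀ h4.le h3 k)
    rw [setIntegral_const, smul_eq_mul] at h1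
    have h5 : μ.real (Metric.ball x (1 / 2)) = v := by
      rw [hv, Measure.real, Measure.real, Measure.addHaar_ball_center]
    rw [h5] at h1
    have h6 : (0 : ℝ) < (3 / 2) ^ k := by positivity
    calc v * ((1 + ‖z - x‖) ^ k)⁻¹
        = (3 / 2) ^ k * (v * (((1 + ‖z - x‖) ^ k)⁻¹ * ((3 / 2) ^ k)⁻¹)) := by
          field_simp
      _ ≤ _ := mul_le_mul_of_nonneg_left h1 h6.le
  have hsum : v * ∑ x ∈ T, ((1 + ‖z - x‖) ^ k)⁻¹ ≤ (3 / 2) ^ k * I := by
    rw [Finset.mul_sum]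
    calc ∑ x ∈ T, v * ((1 + ‖z - x‖) ^ k)⁻¹
        ≤ ∑ x ∈ T, (3 / 2) ^ k * ∫ y in Metric.ball x (1 / 2), ((1 + ‖z - y‖) ^ k)⁻¹ ∂μ :=
          Finset.sum_le_sum fun x _ => hball x
      _ = (3 / 2) ^ k * ∑ x ∈ T, ∫ y in Metric.ball x (1 / 2), ((1 + ‖z - y‖) ^ k)⁻¹ ∂μ := by
          rw [Finset.mul_sum]
      _ = (3 / 2) ^ k * ∫ y in ⋃ x ∈ T, Metric.ball x (1 / 2), ((1 + ‖z - y‖) ^ k)⁻¹ ∂μ := by
          rw [integral_biUnion_finset T (fun x _ => measurableSet_ball) ?_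
            (fun x _ => hintz.integrableOn)]
          intro x hx y hy hxy
          refine Metric.ball_disjoint_ball ?_
          have := hT x hx y hy hxy
          rw [dist_eq_norm]
          linarith
      _ ≤ (3 / 2) ^ k * I := by
          refine mul_le_mul_of_nonneg_left ?_ (by positivity)
          rw [← hIz]
          exact setIntegral_le_integral hintz (Eventually.of_forall fun y => by positivity)
  have h7 : ∑ x ∈ T, ((1 + ‖z - x‖) ^ k)⁻¹ ≤ (3 / 2) ^ k * I / v := by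
    rw [le_div_iff₀ hvpos, mul_comm]
    exact hsum
  linarith

end Pool.Agent.H413R3
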