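import Mathlib
import Pool.Agent.H413R3.Packing

set_option autoImplicit false

open MeasureTheory Set Filter Topology

namespace Pool.Agent.H413R3

/-- The unit sphere of `ℂ^n`. -/
def Sph (n : ℕ) : Set (Fin n → ℂ) := {z | ∑ i, ‖z i‖ ^ 2 = 1}

/-- The closed unit ball of `ℂ^n`. -/
def BX (n : ℕ) : Set (Fin n → ℂ) := {z | ∑ i, ‖z i‖ ^ 2 ≤ 1}

/-- Radial projection. -/
noncomputable def rad {n : ℕ} (z : Fin n → ℂ) : Fin n → ℂ :=
  fun i => z i / ((Real.sqrt (∑ j, ‖z j‖ ^ 2) : ℝ) : ℂ)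

/-- Lebesgue measure on the ball. -/
noncomputable def mu (n : ℕ) : Measure (Fin n → ℂ) := volume.restrict (BX n)

variable {n : ℕ}

lemma measurable_rad : Measurable (rad (n := n)) := by
  unfold rad
  refine measurable_pi_lambda _ fun i => ?_
  have h1 : Measurable fun z : Fin n → ℂ => z i := measurable_pi_apply i
  have h2 : Continuous fun z : Fin n → ℂ => ((Real.sqrt (∑ j, ‖z j‖ ^ 2) : ℝ) : ℂ) := by fun_prop
  exact h1.div h2.measurable

lemma isClosed_Sph : IsClosed (Sph n) := by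
  have h : Continuous fun z : Fin n → ℂ => ∑ i, ‖z i‖ ^ 2 := by fun_prop
  exact isClosed_eq h continuous_const

lemma isClosed_BX : IsClosed (BX n) := by
  have h : Continuous fun z : Fin n → ℂ => ∑ i, ‖z i‖ ^ 2 := by fun_prop
  exact isClosed_le h continuous_const

lemma sq_norm_le (z : Fin n → ℂ) : ‖z‖ ^ 2 ≤ ∑ i, ‖z i‖ ^ 2 := by
  have h0 : 0 ≤ ∑ i, ‖z i‖ ^ 2 := Finset.sum_nonneg fun i _ => by positivity
  have h1 : ‖z‖ ≤ Real.sqrt (∑ i, ‖z i‖ ^ 2) := by
    refine (pi_norm_le_iff_of_nonneg (Real.sqrt_nonneg _)).2 fun i => ?_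
    refine Real.le_sqrt_of_sq_le ?_
    exact Finset.single_le_sum (f := fun i => ‖z i‖ ^ 2) (fun i _ => by positivity)
      (Finset.mem_univ i)
  calc ‖z‖ ^ 2 ≤ (Real.sqrt (∑ i, ‖z i‖ ^ 2)) ^ 2 := by gcongr
    _ = _ := Real.sq_sqrt h0

lemma le_sq_norm (z : Fin n → ℂ) : ∑ i, ‖z i‖ ^ 2 ≤ n * ‖z‖ ^ 2 := by
  calc ∑ i, ‖z i‖ ^ 2 ≤ ∑ i : Fin n, ‖z‖ ^ 2 := by
        refine Finset.sum_le_sum fun i _ => ?_
        have := norm_le_pi_norm z i
        gcongr
    _ = _ := by simp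

lemma norm_le_one_of_BX {z : Fin n → ℂ} (hz : z ∈ BX n) : ‖z‖ ≤ 1 := by
  have h1 := sq_norm_le z
  have h2 : ‖z‖ ^ 2 ≤ 1 := h1.trans hz
  nlinarith [norm_nonneg z]

lemma Sph_subset : Sph n ⊆ BX n := fun _ hz => le_of_eq hz

lemma isCompact_BX : IsCompact (BX n) := by
  refine Metric.isCompact_of_isClosed_isBounded isClosed_BX ?_
  refine (Metric.isBounded_closedBall (x := (0 : Fin n → ℂ)) (r := 1)).subset fun z hz => ?_
  simpa using norm_le_one_of_BX hz

lemma isCompact_Sph : IsCompact (Sph n) := isCompact_BX.of_isClosed_subset isClosed_Sph Sph_subset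

lemma rad_sum (z : Fin n → ℂ) (hz : z ≠ 0) : ∑ i, ‖rad z i‖ ^ 2 = 1 := by
  have h0 : 0 < ∑ i, ‖z i‖ ^ 2 := by
    obtain ⟨i, hi⟩ := Function.ne_iff.1 hz
    refine Finset.sum_pos' (fun i _ => by positivity) ⟨i, Finset.mem_univ i, ?_⟩
    have : 0 < ‖z i‖ := norm_pos_iff.2 hi
    positivity
  have h1 : ∀ i, ‖rad z i‖ ^ 2 = ‖z i‖ ^ 2 / ∑ j, ‖z j‖ ^ 2 := by
    intro i
    rw [rad, norm_div, Complex.norm_real, Real.norm_of_nonneg (Real.sqrt_nonneg _), div_pow,
      Real.sq_sqrt h0.le]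
  rw [Finset.sum_congr rfl fun i _ => h1 i, ← Finset.sum_div, div_self h0.ne']

lemma rad_mem_Sph {z : Fin n → ℂ} (hz : z ≠ 0) : rad z ∈ Sph n := rad_sum z hz

lemma rad_zero : rad (0 : Fin n → ℂ) = 0 := by
  funext i
  simp [rad]

lemma rad_mem_BX (z : Fin n → ℂ) : rad z ∈ BX n := by
  by_cases hz : z = 0
  · subst hz
    rw [rad_zero]
    simp [BX]
  · exact Sph_subset (rad_mem_Sph hz)

instance : IsFiniteMeasure (mu n) := by
  refine ⟨?_⟩
  rw [mu, Measure.restrict_apply_univ]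
  exact isCompact_BX.measure_lt_top

lemma ae_rad (hn : 1 ≤ n) : ∀ᵐ z ∂(mu n), rad z ∈ Sph n := by
  have : Nonempty (Fin n) := ⟨⟨0, hn⟩⟩
  have h1 : ∀ᵐ z : Fin n → ℂ ∂volume, z ≠ 0 := by
    have : (volume : Measure (Fin n → ℂ)) {0} = 0 := measure_singleton 0
    rw [ae_iff]
    simp
  have h2 : ∀ᵐ z : Fin n → ℂ ∂(mu n), z ≠ 0 := ae_restrict_of_ae h1
  exact h2.mono fun z hz => rad_mem_Sph hz

/-- Continuous functions composed with the radial projection are integrable. -/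
lemma integrable_rad {F : Type*} [NormedAddCommGroup F] [SecondCountableTopology F]
    [MeasurableSpace F] [BorelSpace F] {g : (Fin n → ℂ) → F}
    (hg : Continuous g) : Integrable (fun z => g (rad z)) (mu n) := by
  obtain ⟨C, hC⟩ := isCompact_BX.exists_bound_of_continuousOn (hg.continuousOn (s := BX n))
  refine Integrable.of_bound (C := C) ?_ (Eventually.of_forall fun z => hC _ (rad_mem_BX z))
  exact (hg.measurable.comp measurable_rad).aestronglyMeasurable

lemma mu_pos : 0 < (mu n).real univ := by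
  have h1 : 0 < volume (BX n) := by
    have h2 : (Metric.ball (0 : Fin n → ℂ) (1 / (n + 1))) ⊆ BX n := by
      intro z hz
      have h3 : ‖z‖ < 1 / (n + 1) := by simpa using hz
      have h4 := le_sq_norm z
      have h5 : (n : ℝ) * ‖z‖ ^ 2 ≤ 1 := by
        have hn0 : (0 : ℝ) < n + 1 := by positivity
        have h6 : ‖z‖ ^ 2 ≤ (1 / (n + 1 : ℝ)) ^ 2 := by gcongr
        calc (n : ℝ) * ‖z‖ ^ 2 ≤ (n + 1) * (1 / (n + 1 : ℝ)) ^ 2 := by
              gcongr
              linarith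
          _ = 1 / (n + 1 : ℝ) := by field_simp
          _ ≤ 1 := by
              rw [div_le_one hn0]
              have : (0 : ℝ) ≤ n := by positivity
              linarith
      exact h4.trans h5
    exact (Metric.measure_ball_pos _ _ (by positivity)).trans_le (measure_mono h2)
  have h2 : (mu n) univ = volume (BX n) := by rw [mu, Measure.restrict_apply_univ]
  rw [Measure.real, h2]
  exact ENNReal.toReal_pos h1.ne' isCompact_BX.measure_lt_top.ne

/-- The measure is invariant under unimodular scalars. -/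
lemma integral_smul_rad {F : Type*} [NormedAddCommGroup F] [NormedSpace ℝ F]
    (c : Circle) (g : (Fin n → ℂ) → F) :
    ∫ z, g ((c : ℂ) • rad z) ∂(mu n) = ∫ z, g (rad z) ∂(mu n) := by
  have h1 : MeasurePreserving (fun z : ℂ => (c : ℂ) * z) volume volume := by
    exact (rotation c).measurePreserving
  have h2 : MeasurePreserving (fun (z : Fin n → ℂ) => (c : ℂ) • z) volume volume := by
    have := MeasureTheory.volume_preserving_pi (α' := fun _ : Fin n => ℂ)
      (β' := fun _ : Fin n => ℂ) (f := fun _ => fun z : ℂ => (c : ℂ) * z) (fun _ => h1)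
    exact this
  have hc : ‖(c : ℂ)‖ = 1 := Circle.norm_coe c
  have h3 : (fun (z : Fin n → ℂ) => (c : ℂ) • z) ⁻¹' (BX n) = BX n := by
    ext z
    simp [BX, hc]
  have hrad : ∀ z : Fin n → ℂ, rad ((c : ℂ) • z) = (c : ℂ) • rad z := by
    intro z
    funext i
    simp [rad, hc, mul_div_assoc]
  have h4 := h2.setIntegral_preimage_emb (f := fun (z : Fin n → ℂ) => (c : ℂ) • z)
    (Homeomorph.smul (α := Fin n → ℂ) (Units.mk0 (c : ℂ) (by
      intro h0; rw [h0] at hc; simp at hc))).measurableEmbedding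
    (fun z => g (rad z)) (BX n)
  rw [h3] at h4
  rw [mu, ← h4]
  refine integral_congr_ae (Eventually.of_forall fun z => ?_)
  simp only [hrad]

end Pool.Agent.H413R3
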