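import Mathlib
import Pool.Agent.H413R3.Sphere

set_option autoImplicit false

open MeasureTheory Set Filter Topology MvPolynomial

namespace Pool.Agent.H413R3

variable {n : ℕ}

/-- The linear form `z ↦ ∑ conj(ζ_i) z_i`. -/
noncomputable def lin (ζ : Fin n → ℂ) : MvPolynomial (Fin n) ℂ :=
  ∑ i, C ((starRingEnd ℂ) (ζ i)) * X i

/-- The bump `(w (1 + w) / 2)^M`. -/
noncomputable def bump (M : ℕ) (ζ : Fin n → ℂ) : MvPolynomial (Fin n) ℂ :=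
  (lin ζ * ((1 + lin ζ) * C (1 / 2))) ^ M

lemma eval_lin (ζ z : Fin n → ℂ) : eval z (lin ζ) = ∑ i, (starRingEnd ℂ) (ζ i) * z i := by
  simp [lin]

lemma eval_bump (M : ℕ) (ζ z : Fin n → ℂ) :
    eval z (bump M ζ) = (eval z (lin ζ) * ((1 + eval z (lin ζ)) / 2)) ^ M := by
  simp [bump, div_eq_mul_inv]

lemma eval_zero_bump {M : ℕ} (hM : M ≠ 0) (ζ : Fin n → ℂ) : eval 0 (bump M ζ) = 0 := by
  rw [eval_bump, eval_lin]
  simp [hM]

lemma norm_lin_le {ζ z : Fin n → ℂ} (hζ : ζ ∈ Sph n) (hz : z ∈ Sph n) :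
    ‖eval z (lin ζ)‖ ≤ 1 := by
  rw [eval_lin]
  have h1 : ‖∑ i, (starRingEnd ℂ) (ζ i) * z i‖ ≤ ∑ i, (‖ζ i‖ ^ 2 + ‖z i‖ ^ 2) / 2 := by
    refine (norm_sum_le _ _).trans (Finset.sum_le_sum fun i _ => ?_)
    rw [norm_mul, RCLike.norm_conj]
    nlinarith [sq_nonneg (‖ζ i‖ - ‖z i‖)]
  refine h1.trans ?_
  rw [← Finset.sum_div, Finset.sum_add_distrib]
  have h2 : ∑ i, ‖ζ i‖ ^ 2 = 1 := hζ
  have h3 : ∑ i, ‖z i‖ ^ 2 = 1 := hz
  rw [h2, h3]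
  norm_num

lemma re_lin {ζ z : Fin n → ℂ} (hζ : ζ ∈ Sph n) (hz : z ∈ Sph n) :
    (eval z (lin ζ)).re = 1 - (∑ i, ‖z i - ζ i‖ ^ 2) / 2 := by
  have h2 : ∑ i, ‖ζ i‖ ^ 2 = 1 := hζ
  have h3 : ∑ i, ‖z i‖ ^ 2 = 1 := hz
  have h1 : ∑ i, ‖z i - ζ i‖ ^ 2 = ∑ i, (‖z i‖ ^ 2 + ‖ζ i‖ ^ 2 -
      2 * ((starRingEnd ℂ) (ζ i) * z i).re) := by
    refine Finset.sum_congr rfl fun i _ => ?_
    rw [← Complex.normSq_eq_norm_sq, ← Complex.normSq_eq_norm_sq, ← Complex.normSq_eq_norm_sq,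
      Complex.normSq_apply, Complex.normSq_apply, Complex.normSq_apply]
    simp only [Complex.sub_re, Complex.sub_im, Complex.mul_re, Complex.conj_re, Complex.conj_im]
    ring
  rw [h1, eval_lin, Complex.re_sum, Finset.sum_sub_distrib, Finset.sum_add_distrib, h2, h3,
    ← Finset.mul_sum]
  ring

lemma norm_sq_one_add {w : ℂ} (hw : ‖w‖ ≤ 1) {D : ℝ} (hD : w.re = 1 - D / 2) :
    ‖w * ((1 + w) / 2)‖ ^ 2 ≤ Real.exp (-D / 4) := by
  have h1 : ‖w * ((1 + w) / 2)‖ ^ 2 ≤ ‖(1 + w) / 2‖ ^ 2 := by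
    rw [norm_mul]
    have : ‖w‖ * ‖(1 + w) / 2‖ ≤ ‖(1 + w) / 2‖ := by
      nlinarith [norm_nonneg ((1 + w) / 2)]
    gcongr
  have h2 : ‖(1 + w) / 2‖ ^ 2 = (1 + 2 * w.re + ‖w‖ ^ 2) / 4 := by
    have e : ‖w‖ ^ 2 = w.re * w.re + w.im * w.im := by
      rw [← Complex.normSq_eq_norm_sq, Complex.normSq_apply]
    have e2 : ‖1 + w‖ ^ 2 = (1 + w.re) * (1 + w.re) + w.im * w.im := by
      rw [← Complex.normSq_eq_norm_sq, Complex.normSq_apply]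
      simp
    rw [norm_div, div_pow, e, e2]
    norm_num
    ring
  have h3 : ‖w‖ ^ 2 ≤ 1 := by nlinarith [norm_nonneg w]
  have h4 : -D / 4 + 1 ≤ Real.exp (-D / 4) := Real.add_one_le_exp _
  rw [h2] at h1
  refine h1.trans ?_
  rw [hD]
  linarith

lemma bump_upper (M : ℕ) {ζ z : Fin n → ℂ} (hζ : ζ ∈ Sph n) (hz : z ∈ Sph n) :
    ‖eval z (bump M ζ)‖ ≤ Real.exp (-(M * ‖z - ζ‖ ^ 2) / 8) := by
  have h1 := norm_sq_one_add (norm_lin_le hζ hz) (re_lin hζ hz)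
  have h2 : ‖eval z (bump M ζ)‖ ^ 2 ≤ Real.exp (-(M * ‖z - ζ‖ ^ 2) / 8) ^ 2 := by
    rw [eval_bump, norm_pow, ← pow_mul, mul_comm M 2, pow_mul]
    calc (‖eval z (lin ζ) * ((1 + eval z (lin ζ)) / 2)‖ ^ 2) ^ M
        ≤ (Real.exp (-(∑ i, ‖z i - ζ i‖ ^ 2) / 4)) ^ M := by gcongr
      _ = Real.exp (M * (-(∑ i, ‖z i - ζ i‖ ^ 2) / 4)) := by rw [← Real.exp_nat_mul]
      _ ≤ Real.exp (2 * (-(M * ‖z - ζ‖ ^ 2) / 8)) := by
          apply Real.exp_le_exp.2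
          have h3 := sq_norm_le (z - ζ)
          simp only [Pi.sub_apply] at h3
          have h4 : (0 : ℝ) ≤ M := by positivity
          have h5 := mul_le_mul_of_nonneg_left h3 h4
          linarith
      _ = _ := by rw [← Real.exp_nat_mul]; norm_num
  exact (sq_le_sq₀ (norm_nonneg _) (Real.exp_pos _).le).1 h2

lemma bump_lower {M : ℕ} (hM : 1 ≤ M) {ζ z : Fin n → ℂ} (hζ : ζ ∈ Sph n) (hz : z ∈ Sph n)
    (h : n * M * ‖z - ζ‖ ^ 2 ≤ 1) : 1 / 4 ≤ ‖eval z (bump M ζ)‖ := by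
  set D : ℝ := ∑ i, ‖z i - ζ i‖ ^ 2 with hD
  have hM0 : (0 : ℝ) < M := by exact_mod_cast hM
  have hM1 : (1 : ℝ) ≤ M := by exact_mod_cast hM
  have hD0 : 0 ≤ D := Finset.sum_nonneg fun i _ => by positivity
  have hD1 : M * D ≤ 1 := by
    have h3 := le_sq_norm (z - ζ)
    simp only [Pi.sub_apply] at h3
    calc M * D ≤ M * (n * ‖z - ζ‖ ^ 2) := by gcongr
      _ = n * M * ‖z - ζ‖ ^ 2 := by ring
      _ ≤ 1 := h
  have hD2 : D ≤ 1 := by nlinarith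
  set w : ℂ := eval z (lin ζ) with hw
  have hre : w.re = 1 - D / 2 := re_lin hζ hz
  have h1 : 1 - D / 2 ≤ ‖w‖ := by
    rw [← hre]
    exact Complex.re_le_norm w
  have h2 : 1 - D / 4 ≤ ‖(1 + w) / 2‖ := by
    have h3 : ((1 + w) / 2).re = 1 - D / 4 := by
      rw [Complex.div_ofNat_re, Complex.add_re, Complex.one_re, hre]
      ring
    rw [← h3]
    exact Complex.re_le_norm _
  have h4 : 1 - 3 * D / 4 ≤ ‖w * ((1 + w) / 2)‖ := by
    rw [norm_mul]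
    calc 1 - 3 * D / 4 ≤ (1 - D / 2) * (1 - D / 4) := by nlinarith
      _ ≤ _ := by gcongr; linarith
  have h5 : 1 - 3 / (4 * M) ≤ ‖w * ((1 + w) / 2)‖ := by
    refine le_trans ?_ h4
    have : D ≤ 1 / M := by rw [le_div_iff₀ hM0]; linarith
    have h6 : 3 / (4 * (M : ℝ)) = 3 / 4 * (1 / M) := by field_simp
    rw [h6]
    linarith
  have h7 : (0 : ℝ) ≤ 1 - 3 / (4 * M) := by
    have : 3 / (4 * (M : ℝ)) ≤ 1 := by
      rw [div_le_one (by positivity)]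
      linarith
    linarith
  rw [eval_bump, norm_pow]
  calc (1 : ℝ) / 4 = 1 + M * (-(3 / (4 * M))) := by field_simp; norm_num
    _ ≤ (1 + (-(3 / (4 * M)))) ^ M := one_add_mul_le_pow (by linarith) M
    _ = (1 - 3 / (4 * M)) ^ M := by ring_nf
    _ ≤ _ := by gcongr

/-- `exp(-a s^2)` decays faster than any power. -/
lemma exp_decay (a : ℝ) (ha : 0 < a) (k : ℕ) :
    ∃ K : ℝ, 0 < K ∧ ∀ s : ℝ, 0 ≤ s → Real.exp (-(a * s ^ 2)) ≤ K * ((1 + s) ^ k)⁻¹ := by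
  refine ⟨k.factorial * Real.exp (1 + 1 / (4 * a)), by positivity, fun s hs => ?_⟩
  have h1 : (1 + s) ^ k ≤ k.factorial * Real.exp (1 + s) := by
    have := Real.pow_div_factorial_le_exp (1 + s) (by linarith) k
    rw [div_le_iff₀ (by positivity)] at this
    linarith
  have h2 : 0 < (1 + s) ^ k := by positivity
  rw [← div_eq_mul_inv, le_div_iff₀ h2]
  calc Real.exp (-(a * s ^ 2)) * (1 + s) ^ k
      ≤ Real.exp (-(a * s ^ 2)) * (k.factorial * Real.exp (1 + s)) := by gcongr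
    _ = k.factorial * Real.exp (1 + s - a * s ^ 2) := by
        rw [mul_comm, mul_assoc, ← Real.exp_add]
        ring_nf
    _ ≤ k.factorial * Real.exp (1 + 1 / (4 * a)) := by
        gcongr
        have h3 : s - a * s ^ 2 ≤ 1 / (4 * a) := by
          rw [le_div_iff₀ (by positivity)]
          nlinarith [sq_nonneg (2 * a * s - 1)]
        linarith

end Pool.Agent.H413R3
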