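import Pool.Agent.H503R3.FI.Stmts
import Pool.Agent.H503R3.CC.Ring

set_option autoImplicit false

open IsLocalRing

namespace H503R3.FI.TaskF3X

theorem taskF3 : TaskF3 := by
  intro k _
  have hT : IsLocalization.AtPrime (T k) (orig k) := inferInstance
  apply le_antisymm
  · have h1 : ringKrullDim (MvPolynomial (Fin 4) k) = 4 := by
      rw [MvPolynomial.ringKrullDim_of_isNoetherianRing, ringKrullDim_eq_zero_of_field]
      simp
    rw [← h1, IsLocalization.AtPrime.ringKrullDim_eq_height (orig k) (T k)]
    exact Ideal.height_le_ringKrullDim_of_ne_top (Ideal.IsPrime.ne_top inferInstance)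
  · have hreg := H503R3.CC.xs_weaklyRegular k 3
    have h2 := RingTheory.Sequence.IsWeaklyRegular.isRegular_of_isLocalization_of_mem (T k) (orig k)
      hreg (by
        intro r hr
        obtain ⟨j, _, rfl⟩ := List.mem_map.mp hr
        rw [RingHom.mem_ker]
        simp [H503R3.CC.xs])
    have h3 := ringKrullDim_add_length_eq_ringKrullDim_of_isRegular _ h2
    rw [← h3]
    have h4 : Nontrivial (T k ⧸ Ideal.ofList ((List.map (H503R3.CC.xs k 3) (List.range (3 + 1))).map
        (algebraMap (MvPolynomial (Fin 4) k) (T k)))) := by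
      apply Ideal.Quotient.nontrivial_iff.mpr
      intro htop
      have h5 := h2.top_ne_smul
      apply h5
      rw [htop]; simp
    have h6 := @ringKrullDim_nonneg_of_nontrivial _ _ h4
    have h7 : ((List.map (H503R3.CC.xs k 3) (List.range (3 + 1))).map
        (algebraMap (MvPolynomial (Fin 4) k) (T k))).length = 4 := by simp
    rw [h7]
    have := add_le_add h6 (le_refl ((4 : ℕ) : WithBot ℕ∞))
    simpa using this

end H503R3.FI.TaskF3X
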