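import Mathlib
import Pool.Agent.H413R3.Bump

set_option autoImplicit false

open MeasureTheory Set Filter Topology MvPolynomial

namespace Pool.Agent.H413R3

variable {n : ℕ}

/-- The packing sum at scale `r`. -/
lemma packing_scaled (n : ℕ) : ∃ K : ℝ, 0 < K ∧ ∀ r : ℝ, 0 < r → ∀ T : Finset (Fin n → ℂ),
    (∀ x ∈ T, ∀ y ∈ T, x ≠ y → r ≤ ‖x - y‖) → ∀ z : Fin n → ℂ,
      ∑ x ∈ T, ((1 + ‖z - x‖ / r) ^ (2 * n + 1))⁻¹ ≤ K := by
  classical
  have hfr : Module.finrank ℝ (Fin n → ℂ) = 2 * n := by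
    rw [Module.finrank_pi_fintype]
    simp [Complex.finrank_real_complex, mul_comm]
  obtain ⟨K, hK, h⟩ := packing_sum (E := Fin n → ℂ) volume (2 * n + 1) (by rw [hfr]; omega)
  refine ⟨K, hK, fun r hr T hT z => ?_⟩
  have hinj : Function.Injective (fun x : Fin n → ℂ => r⁻¹ • x) :=
    smul_right_injective _ (inv_ne_zero hr.ne')
  have h1 := h (T.image fun x => r⁻¹ • x) (by
    intro x hx y hy hxy
    obtain ⟨x', hx', rfl⟩ := Finset.mem_image.1 hx
    obtain ⟨y', hy', rfl⟩ := Finset.mem_image.1 hy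
    have hne : x' ≠ y' := fun h0 => hxy (by rw [h0])
    rw [← smul_sub, norm_smul, norm_inv, Real.norm_of_nonneg hr.le, ← div_eq_inv_mul,
      le_div_iff₀ hr]
    simpa using hT x' hx' y' hy' hne) (r⁻¹ • z)
  rw [Finset.sum_image (fun x _ y _ hxy => hinj hxy)] at h1
  refine le_trans (le_of_eq ?_) h1
  refine Finset.sum_congr rfl fun x _ => ?_
  rw [← smul_sub, norm_smul, norm_inv, Real.norm_of_nonneg hr.le, ← div_eq_inv_mul]

/-- Existence of a maximal separated set. -/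
lemma exists_net (n : ℕ) (r : ℝ) (hr : 0 < r) : ∃ T : Finset (Fin n → ℂ),
    (∀ x ∈ T, x ∈ Sph n) ∧ (∀ x ∈ T, ∀ y ∈ T, x ≠ y → r ≤ ‖x - y‖) ∧
      ∀ z ∈ Sph n, ∃ x ∈ T, ‖z - x‖ < r := by
  classical
  obtain ⟨K, hK, h⟩ := packing_scaled n
  set A : Set ℕ := {m | ∃ T : Finset (Fin n → ℂ),
    (∀ x ∈ T, x ∈ Sph n) ∧ (∀ x ∈ T, ∀ y ∈ T, x ≠ y → r ≤ ‖x - y‖) ∧ T.card = m} with hA
  have hne : A.Nonempty := ⟨0, ∅, by simp, by simp, by simp⟩
  have hbdd : BddAbove A := by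
    refine ⟨⌈K * (1 + 1 / r) ^ (2 * n + 1)⌉₊, ?_⟩
    rintro m ⟨T, h1, h2, rfl⟩
    have h3 := h r hr T h2 0
    have h4 : ∀ x ∈ T, ((1 + 1 / r) ^ (2 * n + 1))⁻¹ ≤ ((1 + ‖0 - x‖ / r) ^ (2 * n + 1))⁻¹ := by
      intro x hx
      have h5 : ‖(0 : Fin n → ℂ) - x‖ ≤ 1 := by
        rw [zero_sub, norm_neg]
        exact norm_le_one_of_BX (Sph_subset (h1 x hx))
      gcongr
    have h5 := (Finset.sum_le_sum h4).trans h3
    rw [Finset.sum_const, nsmul_eq_mul, ← div_eq_mul_inv, div_le_iff₀ (by positivity)] at h5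
    have h6 := h5.trans (Nat.le_ceil _)
    exact_mod_cast h6
  obtain ⟨T, h1, h2, h3⟩ := Nat.sSup_mem hne hbdd
  refine ⟨T, h1, h2, fun z hz => ?_⟩
  by_contra hcon
  push Not at hcon
  have hzT : z ∉ T := by
    intro hzT
    have := hcon z hzT
    simp at this
    linarith
  have h4 : (insert z T).card ∈ A := by
    refine ⟨insert z T, ?_, ?_, rfl⟩
    · intro x hx
      rcases Finset.mem_insert.1 hx with rfl | hx
      · exact hz
      · exact h1 x hx
    · intro x hx y hy hxy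
      rcases Finset.mem_insert.1 hx with rfl | hx'
      · rcases Finset.mem_insert.1 hy with rfl | hy'
        · exact absurd rfl hxy
        · exact hcon y hy'
      · rcases Finset.mem_insert.1 hy with rfl | hy'
        · rw [norm_sub_rev]
          exact hcon x hx'
        · exact h2 x hx' y hy' hxy
  have h5 := le_csSup hbdd h4
  rw [Finset.card_insert_of_notMem hzT, h3] at h5
  omega

lemma integrable_eval_sq (p : MvPolynomial (Fin n) ℂ) :
    Integrable (fun z => ‖eval (rad z) p‖ ^ 2) (mu n) := by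
  have h : Continuous fun z : Fin n → ℂ => ‖eval z p‖ ^ 2 := by
    have := MvPolynomial.continuous_eval (X := ℂ) p
    fun_prop
  exact integrable_rad h

/-- One of `G + q`, `G - q` has large norm. -/
lemma sign_step (G q : MvPolynomial (Fin n) ℂ) : ∃ H : MvPolynomial (Fin n) ℂ,
    (H = G + q ∨ H = G - q) ∧
    ∫ z, ‖eval (rad z) G‖ ^ 2 ∂(mu n) + ∫ z, ‖eval (rad z) q‖ ^ 2 ∂(mu n) ≤
      ∫ z, ‖eval (rad z) H‖ ^ 2 ∂(mu n) := by
  have h1 : ∫ z, ‖eval (rad z) (G + q)‖ ^ 2 ∂(mu n) + ∫ z, ‖eval (rad z) (G - q)‖ ^ 2 ∂(mu n) =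
      2 * (∫ z, ‖eval (rad z) G‖ ^ 2 ∂(mu n) + ∫ z, ‖eval (rad z) q‖ ^ 2 ∂(mu n)) := by
    rw [← integral_add (integrable_eval_sq _) (integrable_eval_sq _),
      ← integral_add (integrable_eval_sq _) (integrable_eval_sq _), ← integral_const_mul]
    refine integral_congr_ae (Eventually.of_forall fun z => ?_)
    have := parallelogram_law_with_norm ℝ (eval (rad z) G) (eval (rad z) q)
    simp only [map_add, map_sub]
    nlinarith [this]
  by_cases h : ∫ z, ‖eval (rad z) G‖ ^ 2 ∂(mu n) + ∫ z, ‖eval (rad z) q‖ ^ 2 ∂(mu n) ≤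
      ∫ z, ‖eval (rad z) (G + q)‖ ^ 2 ∂(mu n)
  · exact ⟨G + q, Or.inl rfl, h⟩
  · refine ⟨G - q, Or.inr rfl, ?_⟩
    push Not at h
    linarith

/-- Greedy choice of signs. -/
lemma signs {ι : Type*} (T : Finset ι) (q : ι → MvPolynomial (Fin n) ℂ) :
    ∃ G : MvPolynomial (Fin n) ℂ, (∀ z, ‖eval z G‖ ≤ ∑ x ∈ T, ‖eval z (q x)‖) ∧
      ∑ x ∈ T, ∫ z, ‖eval (rad z) (q x)‖ ^ 2 ∂(mu n) ≤ ∫ z, ‖eval (rad z) G‖ ^ 2 ∂(mu n) := by
  classical
  induction T using Finset.induction_on with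
  | empty => exact ⟨0, by simp, by simp⟩
  | insert a T ha ih =>
    obtain ⟨G, h1, h2⟩ := ih
    obtain ⟨H, h3, h4⟩ := sign_step G (q a)
    refine ⟨H, fun z => ?_, ?_⟩
    · rw [Finset.sum_insert ha]
      have h5 := h1 z
      rcases h3 with rfl | rfl
      · rw [map_add]
        exact (norm_add_le _ _).trans (by linarith)
      · rw [map_sub]
        exact (norm_sub_le _ _).trans (by linarith)
    · rw [Finset.sum_insert ha]
      linarith

end Pool.Agent.H413R3
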