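import Mathlib
import Pool.Agent.H413R3.Main1

set_option autoImplicit false

open MeasureTheory Set Filter Topology MvPolynomial

namespace Pool.Agent.H413R3

variable {n : ℕ}

lemma Sph_nonempty (hn : 1 ≤ n) : (Sph n).Nonempty := by
  classical
  refine ⟨Pi.single ⟨0, hn⟩ 1, ?_⟩
  show ∑ i, ‖(Pi.single (⟨0, hn⟩ : Fin n) (1 : ℂ) : Fin n → ℂ) i‖ ^ 2 = 1
  rw [Finset.sum_eq_single (⟨0, hn⟩ : Fin n)]
  · simp
  · intro b _ hb
    simp [hb]
  · simp

theorem main_lemma (hn : 1 ≤ n) : ∃ c : ℝ, 0 < c ∧ ∀ h : (Fin n → ℂ) → ℝ, Continuous h →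
    (∀ z ∈ Sph n, 0 < h z) → ∃ F : MvPolynomial (Fin n) ℂ, eval 0 F = 0 ∧
      (∀ z ∈ Sph n, ‖eval z F‖ ≤ h z) ∧
      c * ∫ z, (h (rad z)) ^ 2 ∂(mu n) ≤ ∫ z, ‖eval (rad z) F‖ ^ 2 ∂(mu n) := by
  classical
  have hn0 : (0 : ℝ) < n := by exact_mod_cast hn
  obtain ⟨K, hK, hpack⟩ := packing_scaled n
  obtain ⟨C1, hC1, hdec⟩ := exp_decay (1 / (8 * n)) (by positivity) (2 * n + 2)
  set c0 : ℝ := 1 / (2 * C1 * K) with hc0
  have hc0pos : 0 < c0 := by positivity
  refine ⟨c0 ^ 2 / 64, by positivity, fun h hcont hpos => ?_⟩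
  obtain ⟨z0, hz0, hmin⟩ := isCompact_Sph.exists_isMinOn (Sph_nonempty hn) hcont.continuousOn
  obtain ⟨z1, hz1, hmax⟩ := isCompact_Sph.exists_isMaxOn (Sph_nonempty hn) hcont.continuousOn
  set h0 : ℝ := h z0 with hh0
  set H0 : ℝ := h z1 with hH0
  have h0pos : 0 < h0 := hpos z0 hz0
  have H0pos : 0 < H0 := hpos z1 hz1
  have hge : ∀ z ∈ Sph n, h0 ≤ h z := fun z hz => hmin hz
  have hle : ∀ z ∈ Sph n, h z ≤ H0 := fun z hz => hmax hz
  obtain ⟨δ, hδ, hunif⟩ := Metric.uniformContinuousOn_iff.1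
    (isCompact_Sph.uniformContinuousOn_of_continuous hcont.continuousOn) h0 h0pos
  set ρ : ℝ := min (δ / 2) (h0 * δ / H0) with hρ
  have hρpos : 0 < ρ := lt_min (by positivity) (by positivity)
  obtain ⟨M, hM⟩ := exists_nat_ge (max 1 (1 / (n * ρ ^ 2)))
  have hM1 : (1 : ℝ) ≤ M := (le_max_left _ _).trans hM
  have hM1' : 1 ≤ M := by exact_mod_cast hM1
  have hM2 : 1 / (n * ρ ^ 2) ≤ M := (le_max_right _ _).trans hM
  have hM0 : (0 : ℝ) < M := by linarith
  set r : ℝ := 1 / Real.sqrt (n * M) with hr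
  have hnM : 0 < (n : ℝ) * M := by positivity
  have hrpos : 0 < r := by positivity
  have hr2 : n * M * r ^ 2 = 1 := by
    rw [hr, div_pow, Real.sq_sqrt hnM.le]
    field_simp
  have hrρ : r ≤ ρ := by
    have h1 : 1 ≤ n * M * ρ ^ 2 := by
      rw [div_le_iff₀ (by positivity)] at hM2
      linarith
    have h2 : r ^ 2 ≤ ρ ^ 2 := by
      rw [← hr2] at h1
      exact le_of_mul_le_mul_left h1 hnM
    exact (sq_le_sq₀ hrpos.le hρpos.le).1 h2
  have hrδ : r < δ := by
    have : ρ ≤ δ / 2 := min_le_left _ _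
    linarith
  have hrH : r * H0 ≤ h0 * δ := by
    have : ρ ≤ h0 * δ / H0 := min_le_right _ _
    rw [le_div_iff₀ H0pos] at this
    nlinarith
  obtain ⟨T, hT1, hT2, hT3⟩ := exists_net n r hrpos
  -- key comparison of `h` at two points
  have hcomp : ∀ z ∈ Sph n, ∀ ζ ∈ Sph n, h ζ ≤ 2 * h z * (1 + ‖z - ζ‖ / r) := by
    intro z hz ζ hζ
    have hs : 0 ≤ ‖z - ζ‖ / r := by positivity
    have hz' := hpos z hz
    by_cases hd : ‖z - ζ‖ < δ
    · have h1 := hunif z hz ζ hζ (by rwa [dist_eq_norm])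
      rw [Real.dist_eq, abs_lt] at h1
      have h2 := hge z hz
      nlinarith
    · push Not at hd
      have h1 : H0 ≤ h0 * (‖z - ζ‖ / r) := by
        rw [← mul_div_assoc, le_div_iff₀ hrpos]
        nlinarith
      have h2 := hge z hz
      have h3 := hle ζ hζ
      nlinarith
  have hbump : ∀ z ∈ Sph n, ∀ ζ ∈ Sph n,
      ‖eval z (bump M ζ)‖ ≤ C1 * ((1 + ‖z - ζ‖ / r) ^ (2 * n + 2))⁻¹ := by
    intro z hz ζ hζ
    refine (bump_upper M hζ hz).trans ?_
    have h1 := hdec (‖z - ζ‖ / r) (by positivity)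
    refine le_trans (le_of_eq ?_) h1
    congr 1
    rw [div_pow]
    have : r ^ 2 = 1 / (n * M) := by
      rw [eq_div_iff hnM.ne']
      linarith
    rw [this]
    field_simp
  set q : (Fin n → ℂ) → MvPolynomial (Fin n) ℂ := fun ζ => C ((c0 * h ζ : ℝ) : ℂ) * bump M ζ
    with hq
  have hqn : ∀ ζ ∈ Sph n, ∀ z : Fin n → ℂ,
      ‖eval z (q ζ)‖ = c0 * h ζ * ‖eval z (bump M ζ)‖ := by
    intro ζ hζ z
    have := hpos ζ hζ
    rw [hq]
    simp only [map_mul, eval_C, norm_mul, Complex.norm_real]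
    rw [Real.norm_of_nonneg hc0pos.le, Real.norm_of_nonneg this.le]
  obtain ⟨G, hG1, hG2⟩ := signs T q
  refine ⟨G, ?_, ?_, ?_⟩
  · have h1 := hG1 0
    have h2 : ∑ x ∈ T, ‖eval 0 (q x)‖ = 0 := by
      refine Finset.sum_eq_zero fun x hx => ?_
      rw [hq]
      simp only [map_mul]
      rw [eval_zero_bump (by omega)]
      simp
    rw [h2] at h1
    exact norm_le_zero_iff.1 h1
  · intro z hz
    refine (hG1 z).trans ?_
    have hz' := hpos z hz
    calc ∑ x ∈ T, ‖eval z (q x)‖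
        ≤ ∑ x ∈ T, (2 * c0 * C1 * h z) * ((1 + ‖z - x‖ / r) ^ (2 * n + 1))⁻¹ := by
          refine Finset.sum_le_sum fun x hx => ?_
          rw [hqn x (hT1 x hx) z]
          have h1 := hcomp z hz x (hT1 x hx)
          have h2 := hbump z hz x (hT1 x hx)
          have hs : 0 < 1 + ‖z - x‖ / r := by positivity
          have h3 := hpos x (hT1 x hx)
          calc c0 * h x * ‖eval z (bump M x)‖
              ≤ c0 * (2 * h z * (1 + ‖z - x‖ / r)) *
                (C1 * ((1 + ‖z - x‖ / r) ^ (2 * n + 2))⁻¹) := by gcongr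
            _ = _ := by
                rw [pow_succ (1 + ‖z - x‖ / r) (2 * n + 1), mul_inv]
                field_simp
      _ = (2 * c0 * C1 * h z) * ∑ x ∈ T, ((1 + ‖z - x‖ / r) ^ (2 * n + 1))⁻¹ := by
          rw [Finset.mul_sum]
      _ ≤ (2 * c0 * C1 * h z) * K := by
          gcongr
          exact hpack r hrpos T hT2 z
      _ = h z := by
          rw [hc0]
          field_simp
  · refine le_trans ?_ hG2
    rw [← integral_finsetSum T (fun x _ => integrable_eval_sq (q x)), ← integral_const_mul]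
    refine integral_mono_ae ?_ (integrable_finsetSum T fun x _ => integrable_eval_sq (q x)) ?_
    · refine Integrable.const_mul ?_ _
      exact integrable_rad (g := fun z => (h z) ^ 2) (by fun_prop)
    · refine (ae_rad hn).mono fun z' hz => ?_
      set z := rad z' with hzdef
      obtain ⟨x, hx, hxz⟩ := hT3 z hz
      have hxS := hT1 x hx
      have h1 : 1 / 4 ≤ ‖eval z (bump M x)‖ := by
        refine bump_lower hM1' hxS hz ?_
        rw [← hr2]
        have : ‖z - x‖ ^ 2 ≤ r ^ 2 := by gcongr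
        gcongr
      have h2 : h z ≤ 2 * h x := by
        have h3 := hunif z hz x hxS (by rw [dist_eq_norm]; linarith)
        rw [Real.dist_eq, abs_lt] at h3
        have h4 := hge x hxS
        linarith
      have hz' := hpos z hz
      have h5 : c0 ^ 2 / 64 * h z ^ 2 ≤ ‖eval z (q x)‖ ^ 2 := by
        rw [hqn x hxS z]
        calc c0 ^ 2 / 64 * h z ^ 2 = (c0 * (h z / 2) * (1 / 4)) ^ 2 := by ring
          _ ≤ (c0 * h x * ‖eval z (bump M x)‖) ^ 2 := by
              have : h z / 2 ≤ h x := by linarith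
              have h6 := hpos x hxS
              gcongr
      have h7 : ‖eval z (q x)‖ ^ 2 ≤ ∑ y ∈ T, ‖eval z (q y)‖ ^ 2 :=
        Finset.single_le_sum (f := fun y => ‖eval z (q y)‖ ^ 2) (fun i _ => sq_nonneg _) hx
      exact h5.trans h7

end Pool.Agent.H413R3
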