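import Mathlib
import Pool.Agent.H413R3.Main2

set_option autoImplicit false

open MeasureTheory Set Filter Topology MvPolynomial

namespace Pool.Agent.H413R3

variable {n : ℕ}

/-- Approximately inner polynomials: `φ(0) = 0`, `|φ| < 1` on the sphere, and `|φ|` is close to
`1` on most of the sphere. -/
theorem approx_inner (hn : 1 ≤ n) (δ : ℝ) (hδ : 0 < δ) : ∃ φ : MvPolynomial (Fin n) ℂ,
    eval 0 φ = 0 ∧ (∀ z ∈ Sph n, ‖eval z φ‖ < 1) ∧
      ∫ z, (1 - ‖eval (rad z) φ‖) ^ 2 ∂(mu n) < δ := by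
  by_contra hcon
  push Not at hcon
  obtain ⟨c, hc, hmain⟩ := main_lemma hn
  set A : Set ℝ := {t | ∃ φ : MvPolynomial (Fin n) ℂ, eval 0 φ = 0 ∧
    (∀ z ∈ Sph n, ‖eval z φ‖ < 1) ∧ t = ∫ z, ‖eval (rad z) φ‖ ^ 2 ∂(mu n)} with hA
  have hne : A.Nonempty := ⟨_, 0, by simp, by simp, rfl⟩
  have hbdd : BddAbove A := by
    refine ⟨∫ z, (1 : ℝ) ∂(mu n), ?_⟩
    rintro t ⟨φ, h1, h2, rfl⟩
    refine integral_mono_ae (integrable_eval_sq φ) (integrable_const _) ?_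
    refine (ae_rad hn).mono fun z hz => ?_
    have h3 := h2 _ hz
    have h4 := norm_nonneg (eval (rad z) φ)
    simp only
    nlinarith
  have hcδ : 0 < c * δ / 8 := by positivity
  obtain ⟨t, ⟨φ, h1, h2, rfl⟩, h3⟩ := exists_lt_of_lt_csSup hne
    (show sSup A - c * δ / 8 < sSup A by linarith)
  have hφc : Continuous fun z : Fin n → ℂ => (1 - ‖eval z φ‖) / 2 := by
    have := MvPolynomial.continuous_eval (X := ℂ) φ
    fun_prop
  obtain ⟨F, hF0, hF1, hF2⟩ := hmain (fun z => (1 - ‖eval z φ‖) / 2) hφc (fun z hz => by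
    have := h2 z hz
    linarith)
  have h4 : c * ∫ z, ((1 - ‖eval (rad z) φ‖) / 2) ^ 2 ∂(mu n) =
      c / 4 * ∫ z, (1 - ‖eval (rad z) φ‖) ^ 2 ∂(mu n) := by
    have : (fun z : Fin n → ℂ => ((1 - ‖eval (rad z) φ‖) / 2) ^ 2) =
        fun z => (1 / 4) * (1 - ‖eval (rad z) φ‖) ^ 2 := by
      funext z
      ring
    rw [this, integral_const_mul]
    ring
  rw [h4] at hF2
  have h5 := hcon φ h1 h2
  obtain ⟨H, hH1, hH2⟩ := sign_step φ F
  have hH0 : eval 0 H = 0 := by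
    rcases hH1 with rfl | rfl
    · rw [map_add, h1, hF0, add_zero]
    · rw [map_sub, h1, hF0, sub_zero]
  have hH3 : ∀ z ∈ Sph n, ‖eval z H‖ < 1 := by
    intro z hz
    have h6 := h2 z hz
    have h7 := hF1 z hz
    rcases hH1 with rfl | rfl
    · rw [map_add]
      exact (norm_add_le _ _).trans_lt (by linarith)
    · rw [map_sub]
      exact (norm_sub_le _ _).trans_lt (by linarith)
  have h8 : ∫ z, ‖eval (rad z) H‖ ^ 2 ∂(mu n) ≤ sSup A := le_csSup hbdd ⟨H, hH0, hH3, rfl⟩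
  have h9 : c / 4 * δ ≤ c / 4 * ∫ z, (1 - ‖eval (rad z) φ‖) ^ 2 ∂(mu n) := by gcongr
  linarith

/-- The same in the `L¹` sense. -/
theorem approx_inner' (hn : 1 ≤ n) (η : ℝ) (hη : 0 < η) : ∃ φ : MvPolynomial (Fin n) ℂ,
    eval 0 φ = 0 ∧ (∀ z ∈ Sph n, ‖eval z φ‖ < 1) ∧
      ∫ z, (1 - ‖eval (rad z) φ‖) ∂(mu n) < η := by
  set V : ℝ := (mu n).real univ with hV
  have hVpos : 0 < V := mu_pos
  -- `1 - t ≤ ε + (1-t)^2 / ε`
  set ε : ℝ := η / (2 * V) with hε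
  have hεpos : 0 < ε := by positivity
  obtain ⟨φ, h1, h2, h3⟩ := approx_inner hn (ε * η / 2) (by positivity)
  refine ⟨φ, h1, h2, ?_⟩
  have hc : Continuous fun z : Fin n → ℂ => ‖eval z φ‖ := by
    have := MvPolynomial.continuous_eval (X := ℂ) φ
    fun_prop
  have hi : Integrable (fun z => (1 - ‖eval (rad z) φ‖) ^ 2) (mu n) :=
    integrable_rad (g := fun z => (1 - ‖eval z φ‖) ^ 2) (by fun_prop)
  have h4 : ∫ z, (1 - ‖eval (rad z) φ‖) ∂(mu n) ≤
      ∫ z, (ε + (1 / ε) * (1 - ‖eval (rad z) φ‖) ^ 2) ∂(mu n) := by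
    refine integral_mono (integrable_rad (g := fun z => 1 - ‖eval z φ‖) (by fun_prop))
      ((integrable_const _).add (hi.const_mul _)) fun z => ?_
    simp only
    set t := 1 - ‖eval (rad z) φ‖
    have h5 : 0 ≤ (ε + (1 / ε) * t ^ 2 - t) * ε := by
      have : (ε + (1 / ε) * t ^ 2 - t) * ε = ε ^ 2 + t ^ 2 - t * ε := by
        field_simp
      rw [this]
      nlinarith [sq_nonneg (ε - t), sq_nonneg ε, sq_nonneg t]
    nlinarith [nonneg_of_mul_nonneg_left h5 hεpos]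
  rw [integral_add (integrable_const _) (hi.const_mul _), integral_const, integral_const_mul,
    smul_eq_mul] at h4
  have h5 : V * ε = η / 2 := by
    rw [hε]
    field_simp
  have h6 : 1 / ε * ∫ z, (1 - ‖eval (rad z) φ‖) ^ 2 ∂(mu n) < η / 2 := by
    calc 1 / ε * ∫ z, (1 - ‖eval (rad z) φ‖) ^ 2 ∂(mu n) < 1 / ε * (ε * η / 2) := by gcongr
      _ = η / 2 := by field_simp
  rw [← hV, h5] at h4
  linarith

end Pool.Agent.H413R3
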