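import Mathlib

set_option autoImplicit false

open Set Filter Topology

namespace Pool.Agent.H413R3

lemma im_L_bound {x : ℂ} {r : ℝ} (hx : ‖x‖ ≤ r) (hr : r < 1) (J : ℕ) :
    |(∑ k ∈ Finset.range J, x ^ (k + 1) / ((k : ℂ) + 1)).im| ≤
      Real.pi / 2 + r ^ (J + 1) / (1 - r) := by
  have hx1 : ‖x‖ < 1 := hx.trans_lt hr
  have h1 := Complex.norm_log_sub_logTaylor_le J (z := -x) (by rwa [norm_neg])
  have h2 : Complex.logTaylor (J + 1) (-x) =
      -∑ k ∈ Finset.range J, x ^ (k + 1) / ((k : ℂ) + 1) := by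
    rw [Complex.logTaylor, Finset.sum_range_succ', ← Finset.sum_neg_distrib]
    simp only [Nat.cast_zero, div_zero, add_zero]
    refine Finset.sum_congr rfl fun k _ => ?_
    rw [neg_pow x (k + 1), ← mul_assoc, ← pow_add]
    have : (-1 : ℂ) ^ (k + 1 + 1 + (k + 1)) = -1 := by
      have h3 : k + 1 + 1 + (k + 1) = 2 * (k + 1) + 1 := by ring
      rw [h3, pow_succ, pow_mul]
      simp
    rw [this]
    push_cast
    ring
  rw [h2, norm_neg] at h1
  set S := ∑ k ∈ Finset.range J, x ^ (k + 1) / ((k : ℂ) + 1) with hS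
  have h3 : S = (Complex.log (1 + -x) - -S) - Complex.log (1 + -x) := by ring
  have h4 : |(Complex.log (1 + -x)).im| ≤ Real.pi / 2 := by
    rw [Complex.log_im, Complex.abs_arg_le_pi_div_two_iff]
    have : x.re ≤ ‖x‖ := Complex.re_le_norm x
    simp only [Complex.add_re, Complex.one_re, Complex.neg_re]
    linarith
  have h5 : ‖x‖ ^ (J + 1) * (1 - ‖x‖)⁻¹ / (J + 1) ≤ r ^ (J + 1) / (1 - r) := by
    have h6 : 0 < 1 - r := by linarith
    have h7 : 0 < 1 - ‖x‖ := by linarith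
    have hr0 : 0 ≤ r := (norm_nonneg x).trans hx
    calc ‖x‖ ^ (J + 1) * (1 - ‖x‖)⁻¹ / (J + 1) ≤ ‖x‖ ^ (J + 1) * (1 - ‖x‖)⁻¹ := by
          apply div_le_self (by positivity)
          have : (0 : ℝ) ≤ J := by positivity
          linarith
      _ ≤ r ^ (J + 1) * (1 - r)⁻¹ := by gcongr
      _ = _ := by rw [div_eq_mul_inv]
  rw [h3, Complex.sub_im]
  refine (abs_sub _ _).trans ?_
  have h6 := (Complex.abs_im_le_norm (Complex.log (1 + -x) - -S)).trans (h1.trans h5)
  linarith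

lemma re_f_bound {x : ℂ} {r : ℝ} (hx : ‖x‖ ≤ r) (hr : r < 1) (J : ℕ) :
    -(2 * (r ^ (J + 1) / (1 - r))) ≤
      (1 + 2 * ∑ k ∈ Finset.range J, x ^ (k + 1)).re := by
  have hx1 : ‖x‖ < 1 := hx.trans_lt hr
  have hr0 : 0 ≤ r := (norm_nonneg x).trans hx
  have h0 : 0 < 1 - r := by linarith
  have hne : 1 - x ≠ 0 := by
    intro h
    have : x = 1 := by linear_combination -h
    rw [this] at hx1
    simp at hx1
  have hgeom : (∑ k ∈ Finset.range J, x ^ (k + 1)) * (1 - x) = x - x ^ (J + 1) := by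
    have h1 := geom_sum_mul_neg x J
    have h2 : ∑ k ∈ Finset.range J, x ^ (k + 1) = x * ∑ k ∈ Finset.range J, x ^ k := by
      rw [Finset.mul_sum]
      exact Finset.sum_congr rfl fun k _ => by ring
    rw [h2, mul_assoc, h1]
    ring
  have h1 : 1 + 2 * ∑ k ∈ Finset.range J, x ^ (k + 1) =
      (1 + x) / (1 - x) - 2 * (x ^ (J + 1) / (1 - x)) := by
    have h3 : ∑ k ∈ Finset.range J, x ^ (k + 1) = (x - x ^ (J + 1)) / (1 - x) := by
      rw [eq_div_iff hne, hgeom]
    rw [h3]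
    field_simp
    ring
  have h2 : 0 ≤ ((1 + x) / (1 - x)).re := by
    have hn : 0 < Complex.normSq (1 - x) := Complex.normSq_pos.2 hne
    rw [Complex.div_re]
    have h3 : (1 + x).re * (1 - x).re / Complex.normSq (1 - x) +
        (1 + x).im * (1 - x).im / Complex.normSq (1 - x) =
        (1 - ‖x‖ ^ 2) / Complex.normSq (1 - x) := by
      rw [← Complex.normSq_eq_norm_sq, Complex.normSq_apply x]
      simp only [Complex.add_re, Complex.one_re, Complex.sub_re, Complex.add_im, Complex.one_im,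
        Complex.sub_im]
      ring
    rw [h3]
    apply div_nonneg _ hn.le
    nlinarith [norm_nonneg x]
  have h3 : ‖x ^ (J + 1) / (1 - x)‖ ≤ r ^ (J + 1) / (1 - r) := by
    rw [norm_div, norm_pow]
    have h4 : 1 - r ≤ ‖1 - x‖ := by
      have := norm_sub_norm_le (1 : ℂ) x
      rw [norm_one] at this
      linarith
    gcongr
  have h4 := (Complex.re_le_norm (x ^ (J + 1) / (1 - x))).trans h3
  rw [h1, Complex.sub_re]
  have h5 : (2 * (x ^ (J + 1) / (1 - x))).re = 2 * (x ^ (J + 1) / (1 - x)).re := by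
    simp
  rw [h5]
  linarith

/-- Choice of parameters. -/
lemma params (R : ℝ) : ∃ r : ℝ, 0 < r ∧ r < 1 ∧ ∃ J : ℕ,
    R ≤ ∑ k ∈ Finset.range J, r ^ (2 * (k + 1)) / ((k : ℝ) + 1) ∧
      r ^ (J + 1) / (1 - r) ≤ 1 := by
  obtain ⟨J0, hJ0⟩ := (Real.tendsto_sum_range_one_div_nat_succ_atTop.eventually_ge_atTop
    (2 * max R 0)).exists
  set r : ℝ := 1 - 1 / (4 * J0 + 4) with hr
  have hpos : (0 : ℝ) < 4 * J0 + 4 := by positivity
  have hq1 : 1 / (4 * (J0 : ℝ) + 4) ≤ 1 / 4 := by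
    apply div_le_div_of_nonneg_left (by norm_num) (by norm_num)
    have : (0 : ℝ) ≤ J0 := by positivity
    linarith
  have hq0 : 0 < 1 / (4 * (J0 : ℝ) + 4) := by positivity
  have hr0 : 0 < r := by linarith
  have hr1 : r < 1 := by linarith
  have hhalf : 1 / 2 ≤ r ^ (2 * J0) := by
    have h1 := one_add_mul_le_pow (a := -(1 / (4 * (J0 : ℝ) + 4))) (by linarith) (2 * J0)
    have h2 : (1 + -(1 / (4 * (J0 : ℝ) + 4))) = r := by rw [hr]; ring
    rw [h2] at h1
    refine le_trans ?_ h1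
    push_cast
    have h3 : 2 * (J0 : ℝ) * (1 / (4 * (J0 : ℝ) + 4)) ≤ 1 / 2 := by
      rw [mul_one_div, div_le_iff₀ hpos]
      linarith
    linarith
  obtain ⟨J1, hJ1⟩ := exists_pow_lt_of_lt_one (show 0 < 1 - r by linarith) hr1
  refine ⟨r, hr0, hr1, max J0 J1, ?_, ?_⟩
  · calc R ≤ max R 0 := le_max_left _ _
      _ ≤ 1 / 2 * ∑ k ∈ Finset.range J0, 1 / ((k : ℝ) + 1) := by linarith
      _ = ∑ k ∈ Finset.range J0, (1 / 2) / ((k : ℝ) + 1) := by
          rw [Finset.mul_sum]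
          exact Finset.sum_congr rfl fun k _ => by ring
      _ ≤ ∑ k ∈ Finset.range J0, r ^ (2 * (k + 1)) / ((k : ℝ) + 1) := by
          refine Finset.sum_le_sum fun k hk => ?_
          have hk' : k + 1 ≤ J0 := Finset.mem_range.1 hk
          have : r ^ (2 * J0) ≤ r ^ (2 * (k + 1)) :=
            pow_le_pow_of_le_one hr0.le hr1.le (by omega)
          have h4 : 1 / 2 ≤ r ^ (2 * (k + 1)) := hhalf.trans this
          gcongr
      _ ≤ _ := by
          refine Finset.sum_le_sum_of_subset_of_nonneg ?_ fun k _ _ => by positivity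
          exact Finset.range_subset_range.2 (le_max_left _ _)
  · rw [div_le_one (by linarith)]
    calc r ^ (max J0 J1 + 1) ≤ r ^ J1 :=
          pow_le_pow_of_le_one hr0.le hr1.le ((le_max_right _ _).trans (Nat.le_succ _))
      _ ≤ 1 - r := hJ1.le

end Pool.Agent.H413R3
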