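import Mathlib
import Pool.Agent.H413R3.Main3
import Pool.Agent.H413R3.OneDim

set_option autoImplicit false

open MeasureTheory Set Filter Topology MvPolynomial

namespace Pool.Agent.H413R3

variable {n : ℕ}

lemma eval_smul_monomial (c : ℂ) (z : Fin n → ℂ) (u : Fin n →₀ ℕ) (a : ℂ) :
    eval (c • z) (monomial u a) = c ^ (u.sum fun _ e => e) * eval z (monomial u a) := by
  rw [eval_monomial, eval_monomial]
  simp only [Pi.smul_apply, smul_eq_mul, mul_pow]
  rw [Finsupp.prod_mul]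
  have : (u.prod fun _ e => c ^ e) = c ^ (u.sum fun _ e => e) := by
    rw [Finsupp.prod, Finsupp.sum, Finset.prod_pow_eq_pow_sum]
  rw [this]
  ring

lemma integrable_eval (p : MvPolynomial (Fin n) ℂ) :
    Integrable (fun z => eval (rad z) p) (mu n) :=
  integrable_rad (MvPolynomial.continuous_eval p)

lemma mean_value (p : MvPolynomial (Fin n) ℂ) :
    ∫ z, eval (rad z) p ∂(mu n) = ((mu n).real univ : ℂ) * eval 0 p := by
  induction p using MvPolynomial.induction_on' with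
  | monomial u a =>
    by_cases hu : u = 0
    · subst hu
      have h1 : ∀ z : Fin n → ℂ, eval z (monomial (0 : Fin n →₀ ℕ) a) = a := by
        intro z
        rw [eval_monomial]
        simp
      simp only [h1, integral_const]
      rw [Complex.real_smul]
    · set d : ℕ := u.sum fun _ e => e with hd
      have hd0 : d ≠ 0 := by
        intro h0
        apply hu
        rw [hd, Finsupp.sum, Finset.sum_eq_zero_iff] at h0
        ext i
        by_cases hi : i ∈ u.support
        · exact h0 i hi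
        · simpa using hi
      have hd0' : (d : ℂ) ≠ 0 := by exact_mod_cast hd0
      set c : Circle := Circle.exp (Real.pi / d) with hc
      have hcd : (c : ℂ) ^ d = -1 := by
        rw [hc, Circle.coe_exp, ← Complex.exp_nat_mul]
        have : (d : ℂ) * (((Real.pi / d : ℝ) : ℂ) * Complex.I) = Real.pi * Complex.I := by
          push_cast
          field_simp
        rw [this, Complex.exp_pi_mul_I]
      have h1 := integral_smul_rad (n := n) c (fun z => eval z (monomial u a))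
      simp only [eval_smul_monomial] at h1
      rw [integral_const_mul, ← hd, hcd] at h1
      have h2 : ∫ z, eval (rad z) (monomial u a) ∂(mu n) = 0 := by
        linear_combination (-1 / 2 : ℂ) * h1
      rw [h2]
      have h3 : eval (0 : Fin n → ℂ) (monomial u a) = 0 := by
        have h4 := eval_smul_monomial (0 : ℂ) (0 : Fin n → ℂ) u a
        rw [← hd, zero_pow hd0, zero_mul, smul_zero] at h4
        exact h4
      rw [h3, mul_zero]
  | add p q hp hq =>
    have h1 : ∫ z, eval (rad z) (p + q) ∂(mu n) =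
        ∫ z, eval (rad z) p ∂(mu n) + ∫ z, eval (rad z) q ∂(mu n) := by
      rw [← integral_add (integrable_eval p) (integrable_eval q)]
      simp only [map_add]
    rw [h1, hp, hq, map_add]
    ring

/-- The moments of an approximately inner polynomial. -/
lemma moments (hn : 1 ≤ n) {φ : MvPolynomial (Fin n) ℂ} (h0 : eval 0 φ = 0)
    (h1 : ∀ z ∈ Sph n, ‖eval z φ‖ < 1) {η : ℝ}
    (h2 : ∫ z, (1 - ‖eval (rad z) φ‖) ∂(mu n) ≤ η) (j k : ℕ) (hj : 1 ≤ j) (hk : 1 ≤ k)
    (J : ℕ) (hkJ : k ≤ J) :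
    (if j = k then (mu n).real univ else 0) - 2 * J * η ≤
      (∫ z, eval (rad z) φ ^ j * (starRingEnd ℂ) (eval (rad z) φ ^ k) ∂(mu n)).re := by
  set V : ℝ := (mu n).real univ with hV
  set Φ : (Fin n → ℂ) → ℂ := fun z => eval (rad z) φ with hΦ
  have hcont : Continuous fun z : Fin n → ℂ => eval z φ := MvPolynomial.continuous_eval φ
  have hae : ∀ᵐ z ∂(mu n), ‖Φ z‖ ≤ 1 := (ae_rad hn).mono fun z hz => (h1 _ hz).le
  have hηint : Integrable (fun z => 1 - ‖Φ z‖) (mu n) :=
    integrable_rad (g := fun z => 1 - ‖eval z φ‖) (by fun_prop)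
  have hη0 : 0 ≤ η := le_trans (integral_nonneg_of_ae (hae.mono fun z hz => by
    simp only [Pi.zero_apply]; linarith)) h2
  -- `1 - t^m ≤ m (1 - t)`
  have hbern : ∀ (t : ℝ) (m : ℕ), 0 ≤ t → t ≤ 1 → 1 - t ^ m ≤ m * (1 - t) := by
    intro t m ht0 ht1
    have := one_add_mul_le_pow (a := t - 1) (by linarith) m
    have h3 : (1 + (t - 1)) = t := by ring
    rw [h3] at this
    linarith
  -- bound for a product with `1 - |Φ|^{2m}`
  have hcore : ∀ (m l : ℕ), m ≤ J →
      ‖∫ z, Φ z ^ l * (((1 - ‖Φ z‖ ^ (2 * m) : ℝ) : ℂ)) ∂(mu n)‖ ≤ 2 * J * η := by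
    intro m l hm
    refine (norm_integral_le_integral_norm _).trans ?_
    calc ∫ z, ‖Φ z ^ l * (((1 - ‖Φ z‖ ^ (2 * m) : ℝ) : ℂ))‖ ∂(mu n)
        ≤ ∫ z, (2 * J) * (1 - ‖Φ z‖) ∂(mu n) := by
          refine integral_mono_ae ?_ (hηint.const_mul _) ?_
          · exact (integrable_rad (g := fun z => ‖eval z φ ^ l *
              (((1 - ‖eval z φ‖ ^ (2 * m) : ℝ) : ℂ))‖) (by fun_prop))
          · refine hae.mono fun z hz => ?_
            have ht0 := norm_nonneg (Φ z)
            have h4 : ‖Φ z‖ ^ (2 * m) ≤ 1 := pow_le_one₀ ht0 hz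
            have h5 : ‖Φ z‖ ^ l ≤ 1 := pow_le_one₀ ht0 hz
            have h6 := hbern ‖Φ z‖ (2 * m) ht0 hz
            have h7 : ((2 * m : ℕ) : ℝ) ≤ 2 * J := by exact_mod_cast Nat.mul_le_mul_left 2 hm
            simp only [norm_mul, norm_pow, Complex.norm_real]
            rw [Real.norm_of_nonneg (by linarith)]
            calc ‖Φ z‖ ^ l * (1 - ‖Φ z‖ ^ (2 * m)) ≤ 1 * (1 - ‖Φ z‖ ^ (2 * m)) := by
                  gcongr
              _ ≤ ((2 * m : ℕ) : ℝ) * (1 - ‖Φ z‖) := by rw [one_mul]; exact h6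
              _ ≤ _ := by
                  gcongr
      _ = (2 * J) * ∫ z, (1 - ‖Φ z‖) ∂(mu n) := by rw [integral_const_mul]
      _ ≤ _ := by gcongr
  have hpow0 : ∀ l : ℕ, 1 ≤ l → ∫ z, Φ z ^ l ∂(mu n) = 0 := by
    intro l hl
    have h4 := mean_value (n := n) (φ ^ l)
    simp only [map_pow, h0] at h4
    rw [zero_pow (by omega), mul_zero] at h4
    exact h4
  have hint : ∀ (l m : ℕ), Integrable (fun z => Φ z ^ l *
      (((1 - ‖Φ z‖ ^ (2 * m) : ℝ) : ℂ))) (mu n) := fun l m =>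
    integrable_rad (g := fun z => eval z φ ^ l * (((1 - ‖eval z φ‖ ^ (2 * m) : ℝ) : ℂ)))
      (by fun_prop)
  have hintp : ∀ l : ℕ, Integrable (fun z => Φ z ^ l) (mu n) := fun l =>
    integrable_rad (g := fun z => eval z φ ^ l) (by fun_prop)
  have hsq : ∀ (w : ℂ) (m : ℕ), w ^ m * (starRingEnd ℂ) (w ^ m) = ((‖w‖ ^ (2 * m) : ℝ) : ℂ) := by
    intro w m
    rw [Complex.mul_conj, Complex.normSq_eq_norm_sq, norm_pow]
    norm_cast
    rw [← pow_mul, mul_comm m 2]
  rcases lt_trichotomy j k with hlt | heq | hgt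
  · -- j < k : conjugate
    rw [if_neg hlt.ne]
    obtain ⟨l, hl⟩ : ∃ l, k = j + l := ⟨k - j, by omega⟩
    have hl1 : 1 ≤ l := by omega
    have h4 : ∀ z, Φ z ^ j * (starRingEnd ℂ) (Φ z ^ k) =
        (starRingEnd ℂ) (Φ z ^ l - Φ z ^ l * (((1 - ‖Φ z‖ ^ (2 * j) : ℝ) : ℂ))) := by
      intro z
      rw [hl, pow_add, map_mul, ← mul_assoc, hsq]
      simp only [map_sub, map_mul, Complex.conj_ofReal]
      push_cast
      ring
    have h5 : ∫ z, Φ z ^ j * (starRingEnd ℂ) (Φ z ^ k) ∂(mu n) =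
        (starRingEnd ℂ) (∫ z, (Φ z ^ l - Φ z ^ l * (((1 - ‖Φ z‖ ^ (2 * j) : ℝ) : ℂ))) ∂(mu n)) := by
      rw [← integral_conj]
      exact integral_congr_ae (Eventually.of_forall fun z => h4 z)
    rw [h5, integral_sub (hintp l) (hint l j), hpow0 l hl1, Complex.conj_re]
    have h6 := hcore j l (by omega)
    have h7 := (Complex.abs_re_le_norm _).trans h6
    rw [abs_le] at h7
    rw [Complex.sub_re, Complex.zero_re]
    linarith [h7.2]
  · subst heq
    rw [if_pos rfl]
    have h4 : ∀ z, Φ z ^ j * (starRingEnd ℂ) (Φ z ^ j) =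
        1 - Φ z ^ 0 * (((1 - ‖Φ z‖ ^ (2 * j) : ℝ) : ℂ)) := by
      intro z
      rw [hsq]
      push_cast
      ring
    have h5 : ∫ z, Φ z ^ j * (starRingEnd ℂ) (Φ z ^ j) ∂(mu n) =
        ∫ z, (1 - Φ z ^ 0 * (((1 - ‖Φ z‖ ^ (2 * j) : ℝ) : ℂ))) ∂(mu n) :=
      integral_congr_ae (Eventually.of_forall fun z => h4 z)
    rw [h5, integral_sub (integrable_const _) (hint 0 j), integral_const, Complex.sub_re]
    have h6 := hcore j 0 hkJ
    have h7 := (Complex.abs_re_le_norm _).trans h6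
    rw [abs_le] at h7
    have h8 : (V • (1 : ℂ)).re = V := by simp
    rw [← hV, h8]
    linarith [h7.2]
  · rw [if_neg hgt.ne']
    obtain ⟨l, hl⟩ : ∃ l, j = k + l := ⟨j - k, by omega⟩
    have hl1 : 1 ≤ l := by omega
    have h4 : ∀ z, Φ z ^ j * (starRingEnd ℂ) (Φ z ^ k) =
        (Φ z ^ l - Φ z ^ l * (((1 - ‖Φ z‖ ^ (2 * k) : ℝ) : ℂ))) := by
      intro z
      rw [hl, pow_add, mul_right_comm, hsq]
      push_cast
      ring
    have h5 : ∫ z, Φ z ^ j * (starRingEnd ℂ) (Φ z ^ k) ∂(mu n) =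
        (∫ z, (Φ z ^ l - Φ z ^ l * (((1 - ‖Φ z‖ ^ (2 * k) : ℝ) : ℂ))) ∂(mu n)) :=
      integral_congr_ae (Eventually.of_forall fun z => h4 z)
    rw [h5, integral_sub (hintp l) (hint l k), hpow0 l hl1]
    have h6 := hcore k l hkJ
    have h7 := (Complex.abs_re_le_norm _).trans h6
    rw [abs_le] at h7
    rw [Complex.sub_re, Complex.zero_re]
    linarith [h7.2]

end Pool.Agent.H413R3
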