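import Mathlib

set_option autoImplicit false

namespace Pool.Agent.H413R3.GP

/-- `k` has no digit `2` in base `3`. -/
def InA (k : ℕ) : Prop := ∀ e ∈ Nat.digits 3 k, e ≤ 1

lemma inA_zero : InA 0 := by
  intro e he
  simp at he

lemma inA_step {k r : ℕ} (hr : r < 3) : InA (3 * k + r) ↔ (r ≤ 1 ∧ InA k) := by
  unfold InA
  by_cases h0 : 3 * k + r = 0
  · have hk : k = 0 := by omega
    have hr0 : r = 0 := by omega
    subst hk; subst hr0
    simp
  · have hpos : 0 < 3 * k + r := Nat.pos_of_ne_zero h0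
    rw [Nat.digits_def' (by norm_num) hpos]
    have h1 : (3 * k + r) % 3 = r := by omega
    have h2 : (3 * k + r) / 3 = k := by omega
    rw [h1, h2]
    simp

lemma inA_iff (n : ℕ) : InA n ↔ (n % 3 ≤ 1 ∧ InA (n / 3)) := by
  have h : n = 3 * (n / 3) + n % 3 := by omega
  conv_lhs => rw [h]
  exact inA_step (Nat.mod_lt _ (by norm_num))

lemma inA_one : InA 1 := by
  rw [inA_iff]; exact ⟨by norm_num, by simpa using inA_zero⟩

lemma not_inA_two : ¬ InA 2 := by
  rw [inA_iff]; rintro ⟨h, _⟩; norm_num at h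

/-- The greedy set is free of three term arithmetic progressions. -/
lemma ap_free : ∀ n x y z : ℕ, y ≤ n → x + z = 2 * y → InA x → InA y → InA z → x = y ∧ z = y := by
  intro n
  induction n using Nat.strong_induction_on with
  | _ n ih =>
    intro x y z hyn h hx hy hz
    by_cases hy0 : y = 0
    · subst hy0; omega
    · have hx' := (inA_iff x).1 hx
      have hy' := (inA_iff y).1 hy
      have hz' := (inA_iff z).1 hz
      have hx1 := hx'.1
      have hy1 := hy'.1
      have hz1 := hz'.1
      have h3 : x % 3 = y % 3 ∧ z % 3 = y % 3 := by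
        have hyc : y % 3 = 0 ∨ y % 3 = 1 := by omega
        have hxc : x % 3 = 0 ∨ x % 3 = 1 := by omega
        have hzc : z % 3 = 0 ∨ z % 3 = 1 := by omega
        rcases hyc with a | a <;> rcases hxc with b | b <;> rcases hzc with c | c <;> omega
      have hlt : y / 3 < n := by omega
      have := ih (y / 3) hlt (x / 3) (y / 3) (z / 3) le_rfl (by omega) hx'.2 hy'.2 hz'.2
      omega

lemma ap_eq {x y z : ℕ} (h : x + z = 2 * y) (hx : InA x) (hy : InA y) (hz : InA z) :
    x = y ∧ z = y := ap_free y x y z le_rfl h hx hy hz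

lemma inA_le4 {x : ℕ} (hx : InA x) (h : x ≤ 4) : x = 0 ∨ x = 1 ∨ x = 3 ∨ x = 4 := by
  have : x ≠ 2 := by rintro rfl; exact not_inA_two hx
  omega

/-- solutions of `2 + z = 2 y` in the greedy set -/
lemma two_end {y z : ℕ} (h : 2 + z = 2 * y) (hy : InA y) (hz : InA z) :
    (y = 1 ∧ z = 0) ∨ (y = 3 ∧ z = 4) := by
  have hy' := (inA_iff y).1 hy
  have hz' := (inA_iff z).1 hz
  rcases Nat.lt_or_ge (y % 3) 1 with h1 | h1
  · -- y = 3 y'
    have hy0 : y % 3 = 0 := by omega
    right
    have hzr : z % 3 = 1 := by omega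
    have hrec : 1 + z / 3 = 2 * (y / 3) := by omega
    have := ap_eq hrec inA_one hy'.2 hz'.2
    omega
  · have hy1 : y % 3 = 1 := by omega
    left
    have hzr : z % 3 = 0 := by omega
    have hrec : 0 + z / 3 = 2 * (y / 3) := by omega
    have := ap_eq hrec inA_zero hy'.2 hz'.2
    omega

end Pool.Agent.H413R3.GP
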