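import Mathlib
import Pool.Agent.H413R3.GPDigits

set_option autoImplicit false

open Finset

namespace Pool.Agent.H413R3.GP

/-- `C S g = ∏_{p ∈ S} p ^ g p` -/
def C (S : Finset ℕ) (g : ℕ → ℕ) : ℕ := ∏ p ∈ S, p ^ g p

/-- the `S`-part of `n` -/
def sig (S : Finset ℕ) (n : ℕ) : ℕ := C S (fun p => n.factorization p)

/-- the exponents outside `S` are in the greedy set -/
def R (S : Finset ℕ) (n : ℕ) : Prop := ∀ q, q ∉ S → InA (n.factorization q)

def Cell (S : Finset ℕ) (c : ℕ) : Set ℕ := {n | 1 ≤ n ∧ R S n ∧ sig S n = c}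

variable {S : Finset ℕ}

lemma C_pos (hS : ∀ p ∈ S, p.Prime) (g : ℕ → ℕ) : 0 < C S g :=
  Finset.prod_pos fun p hp => pow_pos (hS p hp).pos _

lemma fac_C (hS : ∀ p ∈ S, p.Prime) (g : ℕ → ℕ) (q : ℕ) :
    (C S g).factorization q = if q ∈ S then g q else 0 := by
  unfold C
  rw [Nat.factorization_prod (fun p hp => (pow_pos (hS p hp).pos _).ne')]
  rw [Finsupp.finsetSum_apply]
  have : ∀ p ∈ S, ((p ^ g p).factorization) q = if q = p then g q else 0 := by
    intro p hp
    rw [(hS p hp).factorization_pow, Finsupp.single_apply]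
    by_cases h : p = q
    · subst h; simp
    · rw [if_neg h, if_neg (fun h' => h h'.symm)]
  rw [Finset.sum_congr rfl this]
  simp

lemma C_congr {g h : ℕ → ℕ} (H : ∀ p ∈ S, g p = h p) : C S g = C S h :=
  Finset.prod_congr rfl fun p hp => by rw [H p hp]

lemma C_inj (hS : ∀ p ∈ S, p.Prime) {g h : ℕ → ℕ} : C S g = C S h ↔ ∀ p ∈ S, g p = h p := by
  constructor
  · intro H p hp
    have h1 := fac_C hS g p
    have h2 := fac_C hS h p
    rw [if_pos hp] at h1 h2
    rw [← h1, ← h2, H]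
  · exact C_congr

lemma sig_eq_iff (hS : ∀ p ∈ S, p.Prime) {n : ℕ} {g : ℕ → ℕ} :
    sig S n = C S g ↔ ∀ p ∈ S, n.factorization p = g p := by
  unfold sig
  exact C_inj hS

lemma sig_dvd (hS : ∀ p ∈ S, p.Prime) {n : ℕ} (hn : n ≠ 0) : sig S n ∣ n := by
  unfold sig
  rw [← Nat.factorization_le_iff_dvd (C_pos hS _).ne' hn]
  intro q
  rw [fac_C hS]
  split_ifs
  · exact le_rfl
  · exact Nat.zero_le _

lemma sig_eq_one (hS : ∀ p ∈ S, p.Prime) {n : ℕ} :
    sig S n = 1 ↔ ∀ p ∈ S, n.factorization p = 0 := by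
  have h1 : C S (fun _ => 0) = 1 := by simp [C]
  rw [← h1, sig_eq_iff hS]

/-- number of elements of `E` in `[1,N]` -/
noncomputable def cnt (E : Set ℕ) (N : ℕ) : ℕ := (E ∩ Set.Icc 1 N).ncard

lemma cell_inter (hS : ∀ p ∈ S, p.Prime) (g : ℕ → ℕ) (N : ℕ) :
    Cell S (C S g) ∩ Set.Icc 1 N = (fun m => C S g * m) '' (Cell S 1 ∩ Set.Icc 1 (N / C S g)) := by
  have hc := C_pos hS g
  ext n
  simp only [Set.mem_inter_iff, Set.mem_Icc, Set.mem_image, Cell, Set.mem_ofPred_eq]
  constructor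
  · rintro ⟨⟨hn, hR, hs⟩, _, hN⟩
    have hd : C S g ∣ n := hs ▸ sig_dvd hS (by omega)
    obtain ⟨m, rfl⟩ := hd
    have hm : m ≠ 0 := by rintro rfl; omega
    have hf : ∀ q, (C S g * m).factorization q = (C S g).factorization q + m.factorization q := by
      intro q
      rw [Nat.factorization_mul hc.ne' hm]; rfl
    have hs' := (sig_eq_iff hS).1 hs
    refine ⟨m, ⟨⟨Nat.one_le_iff_ne_zero.2 hm, ?_, ?_⟩, Nat.one_le_iff_ne_zero.2 hm, ?_⟩, rfl⟩
    · intro q hq
      have := hR q hq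
      rw [hf, fac_C hS, if_neg hq, zero_add] at this
      exact this
    · rw [sig_eq_one hS]
      intro p hp
      have := hs' p hp
      rw [hf, fac_C hS, if_pos hp] at this
      omega
    · rw [Nat.le_div_iff_mul_le hc, mul_comm]; exact hN
  · rintro ⟨m, ⟨⟨hm, hR, hs⟩, _, hN⟩, rfl⟩
    have hm' : m ≠ 0 := by omega
    have hf : ∀ q, (C S g * m).factorization q = (C S g).factorization q + m.factorization q := by
      intro q
      rw [Nat.factorization_mul hc.ne' hm']; rfl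
    have hs' := (sig_eq_one hS).1 hs
    have hpos : 1 ≤ C S g * m := Nat.mul_pos hc hm
    refine ⟨⟨hpos, ?_, ?_⟩, hpos, ?_⟩
    · intro q hq
      rw [hf, fac_C hS, if_neg hq, zero_add]
      exact hR q hq
    · rw [sig_eq_iff hS]
      intro p hp
      rw [hf, fac_C hS, if_pos hp, hs' p hp, add_zero]
    · rw [Nat.le_div_iff_mul_le hc, mul_comm] at hN; exact hN

lemma cnt_cell (hS : ∀ p ∈ S, p.Prime) (g : ℕ → ℕ) (N : ℕ) :
    cnt (Cell S (C S g)) N = cnt (Cell S 1) (N / C S g) := by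
  unfold cnt
  rw [cell_inter hS, Set.ncard_image_of_injective]
  intro a b h
  exact Nat.eq_of_mul_eq_mul_left (C_pos hS g) h

lemma cnt_eq_sum (E : Set ℕ) (N : ℕ) :
    (cnt E N : ℝ) = ∑ n ∈ Finset.Icc 1 N, Set.indicator E (fun _ => (1 : ℝ)) n := by
  classical
  unfold cnt
  have : E ∩ Set.Icc 1 N = ((Finset.Icc 1 N).filter (fun n => n ∈ E) : Finset ℕ) := by
    ext n
    simp only [Set.mem_inter_iff, Set.mem_Icc, Finset.coe_filter, Finset.mem_Icc, Set.mem_ofPred_eq]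
    tauto
  rw [this, Set.ncard_coe_finset, Finset.card_filter]
  push_cast
  refine Finset.sum_congr rfl fun n _ => ?_
  simp [Set.indicator_apply]

end Pool.Agent.H413R3.GP
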