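import Mathlib
import Pool.Agent.H413R3.GPDigits
import Pool.Agent.H413R3.GPCell

set_option autoImplicit false

open Finset Filter Topology

namespace Pool.Agent.H413R3.GP

lemma cnt_mono {E E' : Set ℕ} (h : ∀ n, 1 ≤ n → n ∈ E → n ∈ E') (N : ℕ) : cnt E N ≤ cnt E' N := by
  unfold cnt
  apply Set.ncard_le_ncard
  · rintro n ⟨h1, h2⟩
    exact ⟨h n h2.1 h1, h2⟩
  · exact (Set.finite_Icc 1 N).inter_of_right _

lemma count_periodic (p : ℕ → Prop) [DecidablePred p] (L : ℕ) (hp : ∀ n, p (L + n) ↔ p n)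
    (q r : ℕ) : Nat.count p (L * q + r) = q * Nat.count p L + Nat.count p r := by
  induction q with
  | zero => simp
  | succ q ih =>
    have h1 : L * (q + 1) + r = L + (L * q + r) := by ring
    rw [h1, Nat.count_add]
    have h2 : (fun k => p (L + k)) = p := by
      funext k; exact propext (hp k)
    simp only [hp]
    rw [ih]; ring

lemma cnt_eq_count (E : Set ℕ) [DecidablePred (fun n => n + 1 ∈ E)] (N : ℕ) :
    (cnt E N : ℝ) = (Nat.count (fun n => n + 1 ∈ E) N : ℝ) := by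
  rw [cnt_eq_sum]
  induction N with
  | zero => simp
  | succ N ih =>
    rw [Finset.sum_Icc_succ_top (by omega), ih, Nat.count_succ]
    push_cast
    congr 1
    by_cases h : N + 1 ∈ E
    · simp [h]
    · simp [h]

lemma periodic_dens (E : Set ℕ) (L : ℕ) (hL : 0 < L) (hE : ∀ n, L + n ∈ E ↔ n ∈ E) :
    ∃ l : ℝ, Tendsto (fun N : ℕ => (cnt E N : ℝ) / N) atTop (𝓝 l) := by
  classical
  set p : ℕ → Prop := fun n => n + 1 ∈ E with hp
  have hper : ∀ n, p (L + n) ↔ p n := by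
    intro n
    simp only [hp]
    rw [add_assoc]; exact hE (n + 1)
  set c := Nat.count p L with hc
  refine ⟨(c : ℝ) / L, ?_⟩
  have hLr : (0 : ℝ) < L := by exact_mod_cast hL
  have hcL : (c : ℝ) ≤ L := by
    have : c ≤ L := Nat.count_le p
    exact_mod_cast this
  have hbound : ∀ N : ℕ, |(cnt E N : ℝ) - N * (c / L)| ≤ 2 * L := by
    intro N
    rw [cnt_eq_count E N]
    have h1 : Nat.count p N = (N / L) * c + Nat.count p (N % L) := by
      conv_lhs => rw [← Nat.div_add_mod N L]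
      exact count_periodic p L hper _ _
    have h1' : (Nat.count (fun n => n + 1 ∈ E) N : ℝ) = ((N / L : ℕ) : ℝ) * c + (Nat.count p (N % L) : ℝ) := by
      exact_mod_cast h1
    rw [h1']
    have h2 : (N : ℝ) = L * ((N / L : ℕ) : ℝ) + ((N % L : ℕ) : ℝ) := by
      exact_mod_cast (Nat.div_add_mod N L).symm
    have h3 : (Nat.count p (N % L) : ℝ) ≤ L := by
      have : Nat.count p (N % L) ≤ N % L := Nat.count_le p
      have h4 : N % L < L := Nat.mod_lt _ hL
      exact_mod_cast (this.trans h4.le)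
    have h4 : ((N % L : ℕ) : ℝ) ≤ L := by exact_mod_cast (Nat.mod_lt N hL).le
    have h5 : (N : ℝ) * (c / L) = ((N / L : ℕ) : ℝ) * c + ((N % L : ℕ) : ℝ) * c / L := by
      rw [h2]; field_simp
    rw [h5]
    have h6 : ((N % L : ℕ) : ℝ) * c / L ≤ L := by
      rw [div_le_iff₀ hLr]
      exact mul_le_mul h4 hcL (by positivity) (by positivity)
    have h7 : 0 ≤ ((N % L : ℕ) : ℝ) * c / L := by positivity
    have h8 : (0 : ℝ) ≤ (Nat.count p (N % L) : ℝ) := by positivity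
    rw [abs_le]
    constructor <;> linarith
  rw [Metric.tendsto_atTop]
  intro ε hε
  obtain ⟨N0, hN0⟩ := exists_nat_gt (2 * L / ε)
  refine ⟨N0 + 1, fun N hN => ?_⟩
  have hNpos : (0 : ℝ) < N := by exact_mod_cast (by omega : 0 < N)
  rw [Real.dist_eq]
  have h1 : (cnt E N : ℝ) / N - c / L = ((cnt E N : ℝ) - N * (c / L)) / N := by
    field_simp
  rw [h1, abs_div, abs_of_pos hNpos, div_lt_iff₀ hNpos]
  have h2 := hbound N
  have h3 : 2 * L / ε < N := lt_of_lt_of_le hN0 (by exact_mod_cast (by omega : N0 ≤ N))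
  rw [div_lt_iff₀ hε] at h3
  linarith [mul_comm ε (N : ℝ)]

/-- numbers divisible by the square of an integer larger than `K` -/
def Bad (K : ℕ) : Set ℕ := {n | ∃ r, K < r ∧ r ^ 2 ∣ n}

lemma cnt_bad {K : ℕ} (hK : K ≠ 0) (N : ℕ) : (cnt (Bad K) N : ℝ) ≤ N / K := by
  classical
  by_cases hKN : K ≤ N
  swap
  · -- no bad number
    have : cnt (Bad K) N = 0 := by
      unfold cnt
      rw [Set.ncard_eq_zero ((Set.finite_Icc 1 N).inter_of_right _)]
      rw [Set.eq_empty_iff_forall_notMem]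
      intro n hn
      obtain ⟨⟨r, hr, hd⟩, h1, h2⟩ := hn
      have := Nat.le_of_dvd (by omega) hd
      nlinarith
    rw [this]; simp; positivity
  have hsub : Bad K ∩ Set.Icc 1 N ⊆
      ((Finset.Ioc K N).biUnion (fun r => (Finset.Ioc 0 N).filter (fun n => r ^ 2 ∣ n)) : Finset ℕ) := by
    rintro n ⟨⟨r, hr, hd⟩, h1, h2⟩
    simp only [Finset.coe_biUnion, Set.mem_iUnion, Finset.mem_coe, Finset.mem_Ioc, Finset.mem_filter]
    have := Nat.le_of_dvd (by omega) hd
    exact ⟨r, ⟨hr, by nlinarith⟩, ⟨by omega, h2⟩, hd⟩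
  have h1 : cnt (Bad K) N ≤ ∑ r ∈ Finset.Ioc K N, N / r ^ 2 := by
    unfold cnt
    calc (Bad K ∩ Set.Icc 1 N).ncard ≤ (((Finset.Ioc K N).biUnion
          (fun r => (Finset.Ioc 0 N).filter (fun n => r ^ 2 ∣ n)) : Finset ℕ) : Set ℕ).ncard :=
          Set.ncard_le_ncard hsub (Finset.finite_toSet _)
      _ = ((Finset.Ioc K N).biUnion
          (fun r => (Finset.Ioc 0 N).filter (fun n => r ^ 2 ∣ n))).card := Set.ncard_coe_finset _
      _ ≤ ∑ r ∈ Finset.Ioc K N, ((Finset.Ioc 0 N).filter (fun n => r ^ 2 ∣ n)).card :=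
          Finset.card_biUnion_le
      _ = ∑ r ∈ Finset.Ioc K N, N / r ^ 2 := by
          refine Finset.sum_congr rfl fun r _ => ?_
          exact Nat.Ioc_filter_dvd_card_eq_div N (r ^ 2)
  have h2 : ((∑ r ∈ Finset.Ioc K N, N / r ^ 2 : ℕ) : ℝ) ≤ ∑ r ∈ Finset.Ioc K N, N * ((r : ℝ) ^ 2)⁻¹ := by
    push_cast
    refine Finset.sum_le_sum fun r _ => ?_
    have := @Nat.cast_div_le ℝ _ _ _ N (r ^ 2)
    push_cast at this
    rw [← div_eq_mul_inv]
    exact this
  have h3 : ∑ r ∈ Finset.Ioc K N, ((r : ℝ) ^ 2)⁻¹ ≤ (K : ℝ)⁻¹ - (N : ℝ)⁻¹ :=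
    sum_Ioc_inv_sq_le_sub hK hKN
  have h4 : ∑ r ∈ Finset.Ioc K N, ((r : ℝ) ^ 2)⁻¹ ≤ (K : ℝ)⁻¹ := by
    have : (0 : ℝ) ≤ (N : ℝ)⁻¹ := by positivity
    linarith
  calc (cnt (Bad K) N : ℝ) ≤ ((∑ r ∈ Finset.Ioc K N, N / r ^ 2 : ℕ) : ℝ) := by exact_mod_cast h1
    _ ≤ ∑ r ∈ Finset.Ioc K N, N * ((r : ℝ) ^ 2)⁻¹ := h2
    _ = N * ∑ r ∈ Finset.Ioc K N, ((r : ℝ) ^ 2)⁻¹ := by rw [Finset.mul_sum]
    _ ≤ N * (K : ℝ)⁻¹ := mul_le_mul_of_nonneg_left h4 (by positivity)
    _ = N / K := by rw [div_eq_mul_inv]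

lemma cnt_sub_le {E E' B : Set ℕ} (h : ∀ n, 1 ≤ n → n ∉ B → (n ∈ E ↔ n ∈ E')) (N : ℕ) :
    |(cnt E N : ℝ) - cnt E' N| ≤ cnt B N := by
  rw [cnt_eq_sum, cnt_eq_sum, cnt_eq_sum, ← Finset.sum_sub_distrib]
  refine (Finset.abs_sum_le_sum_abs _ _).trans (Finset.sum_le_sum fun n hn => ?_)
  rw [Finset.mem_Icc] at hn
  by_cases hB : n ∈ B
  · rw [Set.indicator_of_mem hB]
    by_cases h1 : n ∈ E <;> by_cases h2 : n ∈ E' <;> simp [h1, h2]
  · have := h n hn.1 hB
    rw [Set.indicator_of_notMem hB]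
    by_cases h1 : n ∈ E
    · have h2 := this.1 h1
      simp [h1, h2]
    · have h2 : n ∉ E' := fun h2 => h1 (this.2 h2)
      simp [h1, h2]

variable {S : Finset ℕ}

lemma inA_of_le_one {x : ℕ} (h : x ≤ 1) : InA x := by
  rcases (by omega : x = 0 ∨ x = 1) with rfl | rfl
  · exact inA_zero
  · exact inA_one

/-- approximation of `M = Cell S 1` by periodic sets -/
lemma approx_periodic (hS : ∀ p ∈ S, p.Prime) {K : ℕ} (hK : 1 ≤ K) (hKS : ∀ p ∈ S, p ≤ K)
    {n : ℕ} (hn : 1 ≤ n) (hb : n ∉ Bad K) :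
    n ∈ Cell S 1 ↔ n.gcd (K.factorial ^ (2 * K)) ∈ Cell S 1 := by
  set L := K.factorial ^ (2 * K) with hLdef
  have hL : L ≠ 0 := pow_ne_zero _ (Nat.factorial_ne_zero K)
  have hn0 : n ≠ 0 := by omega
  have hd0 : n.gcd L ≠ 0 := by
    intro h
    exact hn0 (Nat.eq_zero_of_gcd_eq_zero_left h)
  have hfac : ∀ q, (n.gcd L).factorization q = min (n.factorization q) (L.factorization q) := by
    intro q
    rw [Nat.factorization_gcd hn0 hL]; rfl
  have hnb : ∀ r, K < r → ¬ r ^ 2 ∣ n := fun r hr hd => hb ⟨r, hr, hd⟩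
  have hsmall : ∀ q, q.Prime → q ≤ K → (n.gcd L).factorization q = n.factorization q := by
    intro q hq hqK
    rw [hfac]
    apply min_eq_left
    by_contra hlt
    push Not at hlt
    have h1 : 2 * K ≤ L.factorization q := by
      rw [hLdef, Nat.factorization_pow]
      simp only [Finsupp.smul_apply, smul_eq_mul]
      have : 1 ≤ K.factorial.factorization q :=
        (hq.dvd_iff_one_le_factorization (Nat.factorial_ne_zero K)).1 ((hq.dvd_factorial).2 hqK)
      nlinarith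
    have h2 : 2 * K ≤ n.factorization q := by omega
    have h3 : q ^ (2 * K) ∣ n := (hq.pow_dvd_iff_le_factorization hn0).2 h2
    have h4 : K < q ^ K := Nat.lt_pow_self hq.one_lt
    refine hnb (q ^ K) h4 ?_
    rw [← pow_mul, mul_comm K 2]
    exact h3
  have hlarge : ∀ q, K < q → n.factorization q ≤ 1 := by
    intro q hqK
    by_contra hlt
    push Not at hlt
    by_cases hq : q.Prime
    · exact hnb q hqK ((hq.pow_dvd_iff_le_factorization hn0).2 hlt)
    · rw [Nat.factorization_eq_zero_of_not_prime _ hq] at hlt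
      omega
  have hcases : ∀ q, (n.gcd L).factorization q = n.factorization q ∨
      (K < q ∧ n.factorization q ≤ 1 ∧ (n.gcd L).factorization q ≤ 1) := by
    intro q
    by_cases hq : q.Prime
    · by_cases hqK : q ≤ K
      · exact Or.inl (hsmall q hq hqK)
      · push Not at hqK
        right
        refine ⟨hqK, hlarge q hqK, ?_⟩
        rw [hfac]
        exact (min_le_left _ _).trans (hlarge q hqK)
    · left
      rw [Nat.factorization_eq_zero_of_not_prime _ hq, Nat.factorization_eq_zero_of_not_prime _ hq]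
  have hR : R S n ↔ R S (n.gcd L) := by
    unfold R
    refine forall_congr' fun q => ?_
    refine imp_congr_right fun _ => ?_
    rcases hcases q with h | ⟨_, h1, h2⟩
    · rw [h]
    · exact ⟨fun _ => inA_of_le_one h2, fun _ => inA_of_le_one h1⟩
  have hs : sig S n = 1 ↔ sig S (n.gcd L) = 1 := by
    rw [sig_eq_one hS, sig_eq_one hS]
    refine forall_congr' fun p => ?_
    refine imp_congr_right fun hp => ?_
    rcases hcases p with h | ⟨h0, _, _⟩
    · rw [h]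
    · exact absurd (hKS p hp) (by omega)
  have h1 : 1 ≤ n.gcd L := Nat.one_le_iff_ne_zero.2 hd0
  simp only [Cell, Set.mem_ofPred_eq]
  rw [hR, hs]
  tauto

/-- `M = Cell S 1` has a natural density -/
lemma dens_exists (hS : ∀ p ∈ S, p.Prime) :
    ∃ l : ℝ, Tendsto (fun N : ℕ => (cnt (Cell S 1) N : ℝ) / N) atTop (𝓝 l) := by
  apply cauchySeq_tendsto_of_complete
  rw [Metric.cauchySeq_iff']
  intro ε hε
  obtain ⟨K0, hK0⟩ := exists_nat_gt (4 / ε)
  set K := K0 + 1 + ∑ p ∈ S, p with hKdef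
  have hK1 : 1 ≤ K := by omega
  have hKS : ∀ p ∈ S, p ≤ K := by
    intro p hp
    have := Finset.single_le_sum (f := fun p => p) (fun _ _ => Nat.zero_le _) hp
    omega
  set L := K.factorial ^ (2 * K) with hLdef
  have hL : 0 < L := pow_pos (Nat.factorial_pos K) _
  obtain ⟨l, hl⟩ := periodic_dens {n | n.gcd L ∈ Cell S 1} L hL (by
    intro n
    simp only [Set.mem_ofPred_eq]
    rw [Nat.gcd_self_add_left])
  rw [Metric.tendsto_atTop] at hl
  obtain ⟨N1, hN1⟩ := hl (ε / 4) (by positivity)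
  have hKr : (0 : ℝ) < K := by exact_mod_cast hK1
  have hKε : 1 / (K : ℝ) < ε / 4 := by
    rw [div_lt_iff₀ hKr]
    have h1 : 4 / ε < K := lt_of_lt_of_le hK0 (by exact_mod_cast (by omega : K0 ≤ K))
    rw [div_lt_iff₀ hε] at h1
    linarith [mul_comm ε (K : ℝ)]
  have hclose : ∀ N : ℕ, 1 ≤ N →
      |(cnt (Cell S 1) N : ℝ) / N - (cnt {n | n.gcd L ∈ Cell S 1} N : ℝ) / N| ≤ 1 / K := by
    intro N hN
    have hNr : (0 : ℝ) < N := by exact_mod_cast hN
    have h1 := cnt_sub_le (E := Cell S 1) (E' := {n | n.gcd L ∈ Cell S 1}) (B := Bad K)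
      (fun n hn hb => approx_periodic hS hK1 hKS hn hb) N
    have h2 := cnt_bad (K := K) (by omega) N
    rw [← sub_div, abs_div, abs_of_pos hNr, div_le_iff₀ hNr]
    calc _ ≤ (cnt (Bad K) N : ℝ) := h1
      _ ≤ N / K := h2
      _ = 1 / K * N := by ring
  refine ⟨max N1 1, fun N hN => ?_⟩
  have hNN1 : N1 ≤ N := le_trans (le_max_left _ _) hN
  have hN1' : 1 ≤ N := le_trans (le_max_right _ _) hN
  have a1 := hclose N hN1'
  have a2 := hclose (max N1 1) (le_max_right _ _)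
  have a3 := hN1 N hNN1
  have a4 := hN1 (max N1 1) (le_max_left _ _)
  rw [Real.dist_eq] at a3 a4 ⊢
  rw [abs_le] at a1 a2
  rw [abs_lt] at a3 a4 ⊢
  constructor <;> linarith [a1.1, a1.2, a2.1, a2.2, a3.1, a3.2, a4.1, a4.2]

lemma nat_div_tendsto (c : ℕ) (hc : 0 < c) :
    Tendsto (fun N : ℕ => ((N / c : ℕ) : ℝ) / N) atTop (𝓝 (1 / c)) := by
  have hcr : (0 : ℝ) < c := by exact_mod_cast hc
  rw [Metric.tendsto_atTop]
  intro ε hε
  obtain ⟨N0, hN0⟩ := exists_nat_gt (1 / ε)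
  refine ⟨N0 + 1, fun N hN => ?_⟩
  have hNpos : (0 : ℝ) < N := by exact_mod_cast (by omega : 0 < N)
  rw [Real.dist_eq]
  have h2 : (N : ℝ) = c * ((N / c : ℕ) : ℝ) + ((N % c : ℕ) : ℝ) := by
    exact_mod_cast (Nat.div_add_mod N c).symm
  have h3 : ((N % c : ℕ) : ℝ) < c := by exact_mod_cast (Nat.mod_lt N hc)
  have h4 : (0 : ℝ) ≤ ((N % c : ℕ) : ℝ) := by positivity
  have h1 : ((N / c : ℕ) : ℝ) / N - 1 / c = - (((N % c : ℕ) : ℝ) / c) / N := by
    have h5 : ((N / c : ℕ) : ℝ) = (N - ((N % c : ℕ) : ℝ)) / c := by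
      rw [eq_div_iff hcr.ne']; linarith [mul_comm (c : ℝ) ((N / c : ℕ) : ℝ)]
    rw [h5]; field_simp; ring
  rw [h1, abs_div, abs_neg, abs_of_pos hNpos, abs_of_nonneg (by positivity), div_lt_iff₀ hNpos]
  have h6 : ((N % c : ℕ) : ℝ) / c < 1 := by rw [div_lt_one hcr]; exact h3
  have h7 : 1 / ε < N := lt_of_lt_of_le hN0 (by exact_mod_cast (by omega : N0 ≤ N))
  rw [div_lt_iff₀ hε] at h7
  linarith [mul_comm ε (N : ℝ)]

lemma dens_scale {E : Set ℕ} {l : ℝ}
    (h : Tendsto (fun N : ℕ => (cnt E N : ℝ) / N) atTop (𝓝 l)) (c : ℕ) (hc : 0 < c) :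
    Tendsto (fun N : ℕ => (cnt E (N / c) : ℝ) / N) atTop (𝓝 (l * (1 / c))) := by
  have h1 : Tendsto (fun N : ℕ => N / c) atTop atTop := Nat.tendsto_div_const_atTop hc.ne'
  have h2 := (h.comp h1).mul (nat_div_tendsto c hc)
  refine h2.congr' ?_
  filter_upwards [eventually_ge_atTop c] with N hN
  have hpos : 0 < N / c := Nat.div_pos hN hc
  have hposr : (0 : ℝ) < ((N / c : ℕ) : ℝ) := by exact_mod_cast hpos
  simp only [Function.comp]
  field_simp

/-- every number is bad or of the form `c m` with `m ∈ M` and `c` bounded -/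
lemma cover (hS : ∀ p ∈ S, p.Prime) {n : ℕ} (hn : 1 ≤ n) :
    n ∈ Bad 2 ∨ ∃ c ∈ Finset.Icc 1 (4 * ∏ p ∈ S, p), ∃ m ∈ Cell S 1, n = c * m := by
  obtain ⟨a, b, hab, hsq⟩ := Nat.sq_mul_squarefree n
  by_cases hb : 2 < b
  · left
    exact ⟨b, hb, ⟨a, hab.symm⟩⟩
  right
  push Not at hb
  set P := ∏ p ∈ S, p with hP
  have hPpos : 0 < P := Finset.prod_pos fun p hp => (hS p hp).pos
  have ha0 : a ≠ 0 := by rintro rfl; simp at hab; omega
  have hb0 : b ≠ 0 := by rintro rfl; simp at hab; omega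
  obtain ⟨m, hm⟩ := Nat.gcd_dvd_left a P
  set g := a.gcd P with hg
  have hgpos : 0 < g := Nat.gcd_pos_of_pos_left _ (Nat.pos_of_ne_zero ha0)
  have hm0 : m ≠ 0 := by rintro rfl; simp at hm; exact ha0 hm
  have hmsq : Squarefree m := hsq.squarefree_of_dvd ⟨g, by rw [hm]; ring⟩
  refine ⟨b ^ 2 * g, ?_, m, ?_, ?_⟩
  · rw [Finset.mem_Icc]
    constructor
    · exact Nat.mul_pos (pow_pos (Nat.pos_of_ne_zero hb0) _) hgpos
    · apply Nat.mul_le_mul
      · nlinarith
      · exact Nat.le_of_dvd hPpos (Nat.gcd_dvd_right a P)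
  · refine ⟨Nat.one_le_iff_ne_zero.2 hm0, ?_, ?_⟩
    · intro q _
      exact inA_of_le_one (hmsq.natFactorization_le_one q)
    · rw [sig_eq_one hS]
      intro p hp
      by_contra hne
      have hpm : p ∣ m := Nat.dvd_of_factorization_pos hne
      have hpa : p ∣ a := hpm.trans ⟨g, by rw [hm]; ring⟩
      have hpP : p ∣ P := Finset.dvd_prod_of_mem _ hp
      have hpg : p ∣ g := Nat.dvd_gcd hpa hpP
      have : p * p ∣ a := by rw [hm]; exact mul_dvd_mul hpg hpm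
      have := hsq p this
      exact (hS p hp).not_isUnit this
  · rw [← hab]
    rw [hm]; ring

lemma dens_pos (hS : ∀ p ∈ S, p.Prime) {l : ℝ}
    (hl : Tendsto (fun N : ℕ => (cnt (Cell S 1) N : ℝ) / N) atTop (𝓝 l)) : 0 < l := by
  classical
  set T := Finset.Icc 1 (4 * ∏ p ∈ S, p) with hT
  have hcount : ∀ N : ℕ, (N : ℝ) ≤ N / 2 + ∑ c ∈ T, (cnt (Cell S 1) (N / c) : ℝ) := by
    intro N
    have h1 : (N : ℝ) = cnt (Set.univ : Set ℕ) N := by
      unfold cnt
      rw [Set.univ_inter]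
      have : (Set.Icc 1 N) = ((Finset.Icc 1 N : Finset ℕ) : Set ℕ) := by simp
      rw [this, Set.ncard_coe_finset]
      simp
    have h2 : (cnt (Set.univ : Set ℕ) N) ≤ cnt (Bad 2) N + ∑ c ∈ T, cnt (Cell S 1) (N / c) := by
      have hsub : Set.univ ∩ Set.Icc 1 N ⊆ (Bad 2 ∩ Set.Icc 1 N) ∪
          ⋃ c ∈ T, (fun m => c * m) '' (Cell S 1 ∩ Set.Icc 1 (N / c)) := by
        rintro n ⟨_, hn1, hn2⟩
        rcases cover hS hn1 with h | ⟨c, hc, m, hm, rfl⟩
        · exact Or.inl ⟨h, hn1, hn2⟩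
        · right
          simp only [Set.mem_iUnion]
          have hc1 := (Finset.mem_Icc.1 hc).1
          refine ⟨c, hc, m, ⟨hm, hm.1, ?_⟩, rfl⟩
          rw [Nat.le_div_iff_mul_le (by omega), mul_comm]
          exact hn2
      have hfin : ∀ c ∈ T, ((fun m => c * m) '' (Cell S 1 ∩ Set.Icc 1 (N / c))).Finite := fun c _ =>
        ((Set.finite_Icc 1 (N / c)).inter_of_right _).image _
      unfold cnt
      calc (Set.univ ∩ Set.Icc 1 N).ncard ≤ ((Bad 2 ∩ Set.Icc 1 N) ∪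
          ⋃ c ∈ T, (fun m => c * m) '' (Cell S 1 ∩ Set.Icc 1 (N / c))).ncard := by
            apply Set.ncard_le_ncard hsub
        _ ≤ (Bad 2 ∩ Set.Icc 1 N).ncard +
            (⋃ c ∈ T, (fun m => c * m) '' (Cell S 1 ∩ Set.Icc 1 (N / c))).ncard :=
            Set.ncard_union_le _ _
        _ ≤ _ := by
            gcongr
            refine (Finset.set_ncard_biUnion_le T _).trans (Finset.sum_le_sum fun c _ => ?_)
            exact Set.ncard_image_le ((Set.finite_Icc 1 (N / c)).inter_of_right _)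
    have h3 := cnt_bad (K := 2) (by norm_num) N
    calc (N : ℝ) = cnt (Set.univ : Set ℕ) N := h1
      _ ≤ ((cnt (Bad 2) N + ∑ c ∈ T, cnt (Cell S 1) (N / c) : ℕ) : ℝ) := by exact_mod_cast h2
      _ = cnt (Bad 2) N + ∑ c ∈ T, (cnt (Cell S 1) (N / c) : ℝ) := by push_cast; ring
      _ ≤ _ := by
        have : (cnt (Bad 2) N : ℝ) ≤ N / 2 := by simpa using h3
        linarith
  have hlim : Tendsto (fun N : ℕ => (1 : ℝ) / 2 + ∑ c ∈ T, (cnt (Cell S 1) (N / c) : ℝ) / N) atTop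
      (𝓝 (1 / 2 + ∑ c ∈ T, l * (1 / c))) := by
    apply Tendsto.add tendsto_const_nhds
    apply tendsto_finsetSum
    intro c hc
    exact dens_scale hl c (by have := (Finset.mem_Icc.1 hc).1; omega)
  have hge : (1 : ℝ) ≤ 1 / 2 + ∑ c ∈ T, l * (1 / c) := by
    apply ge_of_tendsto hlim
    filter_upwards [eventually_ge_atTop 1] with N hN
    have hNr : (0 : ℝ) < N := by exact_mod_cast hN
    have h := hcount N
    rw [← Finset.sum_div]
    have h5 : (1 : ℝ) / 2 ≤ (∑ c ∈ T, (cnt (Cell S 1) (N / c) : ℝ)) / N := by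
      rw [le_div_iff₀ hNr]
      linarith
    linarith
  by_contra hneg
  push Not at hneg
  have : ∑ c ∈ T, l * (1 / (c : ℝ)) ≤ 0 := by
    apply Finset.sum_nonpos
    intro c _
    exact mul_nonpos_of_nonpos_of_nonneg hneg (by positivity)
  linarith

end Pool.Agent.H413R3.GP
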