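import Mathlib
import Pool.Agent.H413R3.GPDigits
import Pool.Agent.H413R3.GPCell

set_option autoImplicit false

open Finset

namespace Pool.Agent.H413R3.GP

/-- exponent pattern of the new cells -/
def gB (j : ℕ) : ℕ → ℕ := fun p => if p = 2 then 2 else if p = j then 2 else 1

/-- exponent pattern of the removed cells -/
def gD (a f j : ℕ) : ℕ → ℕ := fun p => if p = 2 then a else if p = j then f else 1

/-- exponent pattern of two further removed cells -/
def gE (a : ℕ) : ℕ → ℕ := fun p => if p = 2 then a else 1

def SS (F : Finset ℕ) : Finset ℕ := insert 2 F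

/-- new cells -/
def CB (F : Finset ℕ) : Finset ℕ := F.image (fun j => C (SS F) (gB j))

/-- removed cells -/
def CD (F : Finset ℕ) : Finset ℕ :=
  ((({0, 1, 3, 4} : Finset ℕ) ×ˢ ({3, 4} : Finset ℕ)) ×ˢ F).image
      (fun x => C (SS F) (gD x.1.1 x.1.2 x.2)) ∪
    ({1, 3} : Finset ℕ).image (fun a => C (SS F) (gE a))

/-- The new geometric-progression-free set. -/
def NewSet (F : Finset ℕ) : Set ℕ :=
  {n | 1 ≤ n ∧ R (SS F) n ∧
    (((∀ p ∈ SS F, InA (n.factorization p)) ∧ sig (SS F) n ∉ CD F) ∨ sig (SS F) n ∈ CB F)}

variable {F : Finset ℕ}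

lemma memB (hF : ∀ p ∈ F, p.Prime) (h2 : 2 ∉ F) {n : ℕ} :
    sig (SS F) n ∈ CB F ↔ ∃ j ∈ F, n.factorization 2 = 2 ∧ n.factorization j = 2 ∧
      ∀ i ∈ F, i ≠ j → n.factorization i = 1 := by
  have hS : ∀ p ∈ SS F, p.Prime := by
    intro p hp
    rcases Finset.mem_insert.1 hp with rfl | h
    · exact Nat.prime_two
    · exact hF p h
  unfold CB
  simp only [Finset.mem_image]
  constructor
  · rintro ⟨j, hj, h⟩
    have := (sig_eq_iff hS).1 h.symm
    refine ⟨j, hj, ?_, ?_, ?_⟩
    · have h3 := this 2 (Finset.mem_insert_self _ _)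
      simpa [gB] using h3
    · have h3 := this j (Finset.mem_insert_of_mem hj)
      have hj2 : j ≠ 2 := fun h => h2 (h ▸ hj)
      simpa [gB, hj2] using h3
    · intro i hi hij
      have h3 := this i (Finset.mem_insert_of_mem hi)
      have hi2 : i ≠ 2 := fun h => h2 (h ▸ hi)
      simpa [gB, hi2, hij] using h3
  · rintro ⟨j, hj, ha, hb, hc⟩
    refine ⟨j, hj, ((sig_eq_iff hS).2 ?_).symm⟩
    intro p hp
    rcases Finset.mem_insert.1 hp with rfl | h
    · simpa [gB] using ha
    · have hp2 : p ≠ 2 := fun h' => h2 (h' ▸ h)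
      by_cases hpj : p = j
      · subst hpj; simpa [gB, hp2] using hb
      · simpa [gB, hp2, hpj] using hc p h hpj

lemma memD1 (hF : ∀ p ∈ F, p.Prime) (h2 : 2 ∉ F) {n j : ℕ} (hj : j ∈ F)
    (ha : n.factorization 2 = 0 ∨ n.factorization 2 = 1 ∨ n.factorization 2 = 3 ∨
      n.factorization 2 = 4)
    (hb : n.factorization j = 3 ∨ n.factorization j = 4)
    (hc : ∀ i ∈ F, i ≠ j → n.factorization i = 1) : sig (SS F) n ∈ CD F := by
  have hS : ∀ p ∈ SS F, p.Prime := by
    intro p hp
    rcases Finset.mem_insert.1 hp with rfl | h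
    · exact Nat.prime_two
    · exact hF p h
  unfold CD
  apply Finset.mem_union_left
  rw [Finset.mem_image]
  refine ⟨((n.factorization 2, n.factorization j), j), ?_, ((sig_eq_iff hS).2 ?_).symm⟩
  · simp only [Finset.mem_product, Finset.mem_insert, Finset.mem_singleton]
    exact ⟨⟨ha, hb⟩, hj⟩
  · intro p hp
    rcases Finset.mem_insert.1 hp with rfl | h
    · simp [gD]
    · have hp2 : p ≠ 2 := fun h' => h2 (h' ▸ h)
      by_cases hpj : p = j
      · subst hpj; simp [gD, hp2]
      · simpa [gD, hp2, hpj] using hc p h hpj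

lemma memD2 (hF : ∀ p ∈ F, p.Prime) (h2 : 2 ∉ F) {n : ℕ}
    (ha : n.factorization 2 = 1 ∨ n.factorization 2 = 3)
    (hc : ∀ i ∈ F, n.factorization i = 1) : sig (SS F) n ∈ CD F := by
  have hS : ∀ p ∈ SS F, p.Prime := by
    intro p hp
    rcases Finset.mem_insert.1 hp with rfl | h
    · exact Nat.prime_two
    · exact hF p h
  unfold CD
  apply Finset.mem_union_right
  rw [Finset.mem_image]
  refine ⟨n.factorization 2, ?_, ((sig_eq_iff hS).2 ?_).symm⟩
  · simp only [Finset.mem_insert, Finset.mem_singleton]
    exact ha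
  · intro p hp
    rcases Finset.mem_insert.1 hp with rfl | h
    · simp [gE]
    · have hp2 : p ≠ 2 := fun h' => h2 (h' ▸ h)
      simpa [gE, hp2] using hc p h

/-- removed cells consist of greedy numbers -/
lemma CD_greedy (hF : ∀ p ∈ F, p.Prime) (h2 : 2 ∉ F) {n : ℕ} (h : sig (SS F) n ∈ CD F) :
    ∀ p ∈ SS F, InA (n.factorization p) := by
  have hS : ∀ p ∈ SS F, p.Prime := by
    intro p hp
    rcases Finset.mem_insert.1 hp with rfl | h
    · exact Nat.prime_two
    · exact hF p h
  have i0 := inA_zero
  have i1 := inA_one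
  have i3 : InA 3 := by rw [inA_iff]; exact ⟨by norm_num, by simpa using inA_one⟩
  have i4 : InA 4 := by rw [inA_iff]; exact ⟨by norm_num, by simpa using inA_one⟩
  unfold CD at h
  rcases Finset.mem_union.1 h with h | h
  · rw [Finset.mem_image] at h
    obtain ⟨⟨⟨a, f⟩, j⟩, hx, h⟩ := h
    simp only [Finset.mem_product, Finset.mem_insert, Finset.mem_singleton] at hx
    obtain ⟨⟨ha, hf⟩, hj⟩ := hx
    have := (sig_eq_iff hS).1 h.symm
    intro p hp
    rw [this p hp]
    unfold gD
    dsimp only
    split_ifs
    · rcases ha with rfl | rfl | rfl | rfl <;> assumption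
    · rcases hf with rfl | rfl <;> assumption
    · assumption
  · rw [Finset.mem_image] at h
    obtain ⟨a, ha, h⟩ := h
    simp only [Finset.mem_insert, Finset.mem_singleton] at ha
    have := (sig_eq_iff hS).1 h.symm
    intro p hp
    rw [this p hp]
    unfold gE
    split_ifs
    · rcases ha with rfl | rfl <;> assumption
    · assumption

/-- The main combinatorial step. -/
theorem newSet_free (hF : ∀ p ∈ F, p.Prime) (h2 : 2 ∉ F) {a b c : ℕ}
    (ha : a ∈ NewSet F) (hb : b ∈ NewSet F) (hc : c ∈ NewSet F) (hab : a < b)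
    (heq : b ^ 2 = a * c) : False := by
  obtain ⟨ha1, haR, haS⟩ := ha
  obtain ⟨hb1, hbR, hbS⟩ := hb
  obtain ⟨hc1, hcR, hcS⟩ := hc
  have ha0 : a ≠ 0 := by omega
  have hb0 : b ≠ 0 := by omega
  have hc0 : c ≠ 0 := by omega
  have hv : ∀ p, a.factorization p + c.factorization p = 2 * b.factorization p := by
    intro p
    have h1 : (b ^ 2).factorization p = (a * c).factorization p := by rw [heq]
    rw [Nat.factorization_pow, Nat.factorization_mul ha0 hc0] at h1
    simp only [Finsupp.smul_apply, Finsupp.add_apply, smul_eq_mul] at h1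
    omega
  have hS : ∀ p ∈ SS F, p.Prime := by
    intro p hp
    rcases Finset.mem_insert.1 hp with rfl | h
    · exact Nat.prime_two
    · exact hF p h
  have h2S : (2 : ℕ) ∈ SS F := Finset.mem_insert_self _ _
  have hFS : ∀ i ∈ F, i ∈ SS F := fun i hi => Finset.mem_insert_of_mem hi
  -- outside `S` all exponents agree
  have hout : ∀ q, q ∉ SS F → a.factorization q = b.factorization q ∧
      c.factorization q = b.factorization q := fun q hq =>
    ap_eq (hv q) (haR q hq) (hbR q hq) (hcR q hq)
  -- if the exponents agree everywhere we are done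
  have hdone : (∀ p ∈ SS F, a.factorization p = b.factorization p) → False := by
    intro h
    have : a = b := by
      apply Nat.eq_of_factorization_eq ha0 hb0
      intro p
      by_cases hp : p ∈ SS F
      · exact h p hp
      · exact (hout p hp).1
    omega
  have n2 := not_inA_two
  rw [memB hF h2] at haS hbS hcS
  -- a greedy element and a new element
  have key : ∀ x y z : ℕ, (∀ p, x.factorization p + z.factorization p = 2 * y.factorization p) →
      (∃ j ∈ F, x.factorization 2 = 2 ∧ x.factorization j = 2 ∧
        ∀ i ∈ F, i ≠ j → x.factorization i = 1) →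
      ((∀ p ∈ SS F, InA (y.factorization p)) ∧ sig (SS F) y ∉ CD F) →
      (∀ p ∈ SS F, InA (z.factorization p)) → False := by
    rintro x y z hxyz ⟨j, hj, hx2, hxj, hxi⟩ ⟨hyG, hyD⟩ hzG
    have e2 := hxyz 2
    rw [hx2] at e2
    have e2' := two_end e2 (hyG 2 h2S) (hzG 2 h2S)
    have ej := hxyz j
    rw [hxj] at ej
    have ej' := two_end ej (hyG j (hFS j hj)) (hzG j (hFS j hj))
    have ei : ∀ i ∈ F, i ≠ j → y.factorization i = 1 := by
      intro i hi hij
      have e := hxyz i
      have hx1 : InA (x.factorization i) := by rw [hxi i hi hij]; exact inA_one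
      have := ap_eq e hx1 (hyG i (hFS i hi)) (hzG i (hFS i hi))
      rw [hxi i hi hij] at this
      omega
    rcases ej' with ⟨hyj, hzj⟩ | ⟨hyj, hzj⟩
    · apply hyD
      apply memD2 hF h2 (by omega)
      intro i hi
      by_cases hij : i = j
      · subst hij; exact hyj
      · exact ei i hi hij
    · apply hyD
      exact memD1 hF h2 hj (by omega) (Or.inl hyj) ei
  rcases hbS with hbS | hbS
  · -- b greedy
    rcases haS with haS | haS
    · rcases hcS with hcS | hcS
      · exact hdone fun p hp => (ap_eq (hv p) (haS.1 p hp) (hbS.1 p hp) (hcS.1 p hp)).1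
      · exact key c b a (fun p => by rw [add_comm]; exact hv p) hcS hbS haS.1
    · rcases hcS with hcS | hcS
      · exact key a b c hv haS hbS hcS.1
      · obtain ⟨j, hj, haj2, _⟩ := haS
        obtain ⟨l, hl, hcl2, _⟩ := hcS
        have e := hv 2
        rw [haj2, hcl2] at e
        apply n2
        have : b.factorization 2 = 2 := by omega
        rw [← this]
        exact hbS.1 2 h2S
  · -- b new
    obtain ⟨j, hj, hb2, hbj, hbi⟩ := hbS
    have e2 := hv 2
    rw [hb2] at e2
    rcases haS with haS | haS
    · rcases hcS with hcS | hcS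
      · -- both greedy
        have ea2 := haS.1 2 h2S
        have ec2 := hcS.1 2 h2S
        have ea2' := inA_le4 ea2 (by omega)
        have ec2' := inA_le4 ec2 (by omega)
        have ej := hv j
        rw [hbj] at ej
        have eaj := haS.1 j (hFS j hj)
        have ecj := hcS.1 j (hFS j hj)
        have eaj' := inA_le4 eaj (by omega)
        have ecj' := inA_le4 ecj (by omega)
        have eai : ∀ i ∈ F, i ≠ j → a.factorization i = 1 ∧ c.factorization i = 1 := by
          intro i hi hij
          have e := hv i
          rw [hbi i hi hij] at e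
          have h1 := haS.1 i (hFS i hi)
          have h3 := hcS.1 i (hFS i hi)
          have h1' := inA_le4 h1 (by omega)
          have h3' := inA_le4 h3 (by omega)
          omega
        have : (a.factorization j = 3 ∨ a.factorization j = 4) ∨
            (c.factorization j = 3 ∨ c.factorization j = 4) := by omega
        rcases this with h | h
        · exact haS.2 (memD1 hF h2 hj ea2' h fun i hi hij => (eai i hi hij).1)
        · exact hcS.2 (memD1 hF h2 hj ec2' h fun i hi hij => (eai i hi hij).2)
      · obtain ⟨l, hl, hcl2, _⟩ := hcS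
        apply n2
        have : a.factorization 2 = 2 := by omega
        rw [← this]
        exact haS.1 2 h2S
    · rcases hcS with hcS | hcS
      · obtain ⟨l, hl, hal2, _⟩ := haS
        apply n2
        have : c.factorization 2 = 2 := by omega
        rw [← this]
        exact hcS.1 2 h2S
      · obtain ⟨l, hl, hal2, hall, hali⟩ := haS
        obtain ⟨r, hr, hcr2, hcrr, hcri⟩ := hcS
        apply hdone
        -- j = l
        have hlj : l = j := by
          by_contra hne
          have e := hv l
          rw [hall, hbi l hl hne] at e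
          by_cases hrl : r = l
          · subst hrl; omega
          · have := hcri l hl (fun h => hrl h.symm)
            omega
        subst hlj
        intro p hp
        rcases Finset.mem_insert.1 hp with rfl | h
        · omega
        · by_cases hpj : p = l
          · subst hpj; omega
          · rw [hali p h hpj, hbi p h hpj]

end Pool.Agent.H413R3.GP
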