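import Mathlib
import Pool.Agent.H413R3.GPDigits
import Pool.Agent.H413R3.GPCell
import Pool.Agent.H413R3.GPSet
import Pool.Agent.H413R3.GPDens

set_option autoImplicit false

open Finset Filter Topology

namespace Pool.Agent.H413R3.GP

/-- The greedy (Rankin) set. -/
def Greedy : Set ℕ := {n : ℕ | 1 ≤ n ∧ ∀ p : ℕ, ∀ e ∈ Nat.digits 3 (n.factorization p), e ≤ 1}

lemma mem_greedy {n : ℕ} : n ∈ Greedy ↔ 1 ≤ n ∧ ∀ p : ℕ, InA (n.factorization p) := Iff.rfl

lemma sum_image_le' {α : Type*} [DecidableEq α] (s : Finset α) (f : α → ℕ) (g : ℕ → ℝ)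
    (hg : ∀ n, 0 ≤ g n) : ∑ c ∈ s.image f, g c ≤ ∑ x ∈ s, g (f x) := by
  induction s using Finset.induction_on with
  | empty => simp
  | insert a s ha ih =>
    rw [Finset.image_insert, Finset.sum_insert ha]
    by_cases h : f a ∈ s.image f
    · rw [Finset.insert_eq_of_mem h]
      have := hg (f a)
      linarith
    · rw [Finset.sum_insert h]
      linarith

lemma sum_union_le' (s t : Finset ℕ) (g : ℕ → ℝ) (hg : ∀ n, 0 ≤ g n) :
    ∑ c ∈ s ∪ t, g c ≤ ∑ c ∈ s, g c + ∑ c ∈ t, g c := by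
  rw [← Finset.sum_union_inter]
  have : 0 ≤ ∑ c ∈ s ∩ t, g c := Finset.sum_nonneg fun c _ => hg c
  linarith

lemma primes_SS {F : Finset ℕ} (hF : ∀ p ∈ F, p.Prime) : ∀ p ∈ SS F, p.Prime := by
  intro p hp
  rcases Finset.mem_insert.1 hp with rfl | h
  · exact Nat.prime_two
  · exact hF p h

lemma prod_pattern {F : Finset ℕ} (h2 : 2 ∉ F) (a f j : ℕ) (hj : j ∈ F) :
    C (SS F) (gD a (f + 1) j) = 2 ^ a * (∏ p ∈ F, p) * j ^ f := by
  unfold C SS
  rw [Finset.prod_insert h2]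
  have h1 : ∀ p ∈ F, p ^ gD a (f + 1) j p = p * (if p = j then p ^ f else 1) := by
    intro p hp
    have hp2 : p ≠ 2 := fun h => h2 (h ▸ hp)
    unfold gD
    rw [if_neg hp2]
    split_ifs with h
    · rw [pow_succ]; ring
    · simp
  rw [Finset.prod_congr rfl h1, Finset.prod_mul_distrib, Finset.prod_ite_eq' F j (fun p => p ^ f),
    if_pos hj]
  simp [gD]
  ring

lemma gB_eq (j : ℕ) : gB j = gD 2 (1 + 1) j := rfl

lemma prod_gE {F : Finset ℕ} (h2 : 2 ∉ F) (a : ℕ) :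
    C (SS F) (gE a) = 2 ^ a * (∏ p ∈ F, p) := by
  unfold C SS
  rw [Finset.prod_insert h2]
  have h1 : ∀ p ∈ F, p ^ gE a p = p := by
    intro p hp
    have hp2 : p ≠ 2 := fun h => h2 (h ▸ hp)
    unfold gE
    rw [if_neg hp2, pow_one]
  rw [Finset.prod_congr rfl h1]
  simp [gE]

variable {F : Finset ℕ}

lemma CD_form {c : ℕ} (hc : c ∈ CD F) : ∃ g, c = C (SS F) g := by
  unfold CD at hc
  rcases Finset.mem_union.1 hc with h | h
  · rw [Finset.mem_image] at h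
    obtain ⟨x, _, rfl⟩ := h
    exact ⟨_, rfl⟩
  · rw [Finset.mem_image] at h
    obtain ⟨x, _, rfl⟩ := h
    exact ⟨_, rfl⟩

lemma CB_form {c : ℕ} (hc : c ∈ CB F) : ∃ g, c = C (SS F) g := by
  unfold CB at hc
  rw [Finset.mem_image] at hc
  obtain ⟨x, _, rfl⟩ := hc
  exact ⟨_, rfl⟩

lemma sum_ind (S T : Finset ℕ) (n : ℕ) :
    ∑ c ∈ T, Set.indicator (Cell S c) (fun _ => (1 : ℝ)) n =
      Set.indicator {n | 1 ≤ n ∧ R S n ∧ sig S n ∈ T} (fun _ => (1 : ℝ)) n := by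
  classical
  by_cases h : 1 ≤ n ∧ R S n
  · have h1 : ∀ c ∈ T, Set.indicator (Cell S c) (fun _ => (1 : ℝ)) n =
        if sig S n = c then 1 else 0 := by
      intro c _
      rw [Set.indicator_apply]
      congr 1
      simp only [Cell, Set.mem_ofPred_eq, eq_iff_iff]
      tauto
    rw [Finset.sum_congr rfl h1, Finset.sum_ite_eq, Set.indicator_apply]
    congr 1
    simp only [Set.mem_ofPred_eq, eq_iff_iff]
    tauto
  · rw [Set.indicator_of_notMem (fun h' => h ⟨h'.1, h'.2.1⟩)]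
    apply Finset.sum_eq_zero
    intro c _
    exact Set.indicator_of_notMem (fun h' => h ⟨h'.1, h'.2.1⟩) _

lemma cnt_new (hF : ∀ p ∈ F, p.Prime) (h2 : 2 ∉ F) (N : ℕ) :
    (cnt (NewSet F) N : ℝ) = cnt Greedy N - ∑ c ∈ CD F, (cnt (Cell (SS F) c) N : ℝ) +
      ∑ c ∈ CB F, (cnt (Cell (SS F) c) N : ℝ) := by
  classical
  have h1 : ∀ T : Finset ℕ, ∑ c ∈ T, (cnt (Cell (SS F) c) N : ℝ) =
      ∑ n ∈ Finset.Icc 1 N, Set.indicator {n | 1 ≤ n ∧ R (SS F) n ∧ sig (SS F) n ∈ T}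
        (fun _ => (1 : ℝ)) n := by
    intro T
    rw [Finset.sum_congr rfl fun c _ => cnt_eq_sum (Cell (SS F) c) N, Finset.sum_comm]
    exact Finset.sum_congr rfl fun n _ => sum_ind _ _ _
  rw [h1, h1, cnt_eq_sum, cnt_eq_sum, ← Finset.sum_sub_distrib, ← Finset.sum_add_distrib]
  refine Finset.sum_congr rfl fun n hn => ?_
  rw [Finset.mem_Icc] at hn
  have hgr : n ∈ Greedy ↔ (R (SS F) n ∧ ∀ p ∈ SS F, InA (n.factorization p)) := by
    rw [mem_greedy]
    constructor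
    · rintro ⟨_, h⟩; exact ⟨fun q _ => h q, fun p _ => h p⟩
    · rintro ⟨h, h'⟩
      refine ⟨hn.1, fun p => ?_⟩
      by_cases hp : p ∈ SS F
      · exact h' p hp
      · exact h p hp
  have hBnot : sig (SS F) n ∈ CB F → ¬ ∀ p ∈ SS F, InA (n.factorization p) := by
    intro h h'
    obtain ⟨j, _, h3, _⟩ := (memB hF h2).1 h
    have := h' 2 (Finset.mem_insert_self _ _)
    rw [h3] at this
    exact not_inA_two this
  have hDgr : sig (SS F) n ∈ CD F → ∀ p ∈ SS F, InA (n.factorization p) := fun h =>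
    CD_greedy hF h2 h
  have hn1 := hn.1
  simp only [Set.indicator_apply, hgr, NewSet, Set.mem_ofPred_eq]
  by_cases hR : R (SS F) n
  · by_cases hG : ∀ p ∈ SS F, InA (n.factorization p)
    · have hnB : sig (SS F) n ∉ CB F := fun h => hBnot h hG
      by_cases hD : sig (SS F) n ∈ CD F
      · rw [if_neg (by tauto), if_pos (by tauto), if_pos (by tauto), if_neg (by tauto)]; norm_num
      · rw [if_pos (by tauto), if_pos (by tauto), if_neg (by tauto), if_neg (by tauto)]; norm_num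
    · have hnD : sig (SS F) n ∉ CD F := fun h => hG (hDgr h)
      by_cases hB : sig (SS F) n ∈ CB F
      · rw [if_pos (by tauto), if_neg (by tauto), if_neg (by tauto), if_pos (by tauto)]; norm_num
      · rw [if_neg (by tauto), if_neg (by tauto), if_neg (by tauto), if_neg (by tauto)]; norm_num
  · rw [if_neg (by tauto), if_neg (by tauto), if_neg (by tauto), if_neg (by tauto)]; norm_num

lemma cell_tendsto (hF : ∀ p ∈ F, p.Prime) {l : ℝ}
    (hl : Tendsto (fun N : ℕ => (cnt (Cell (SS F) 1) N : ℝ) / N) atTop (𝓝 l)) {c : ℕ}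
    (hc : ∃ g, c = C (SS F) g) :
    Tendsto (fun N : ℕ => (cnt (Cell (SS F) c) N : ℝ) / N) atTop (𝓝 (l * (1 / c))) := by
  obtain ⟨g, rfl⟩ := hc
  have hS := primes_SS hF
  have := dens_scale hl (C (SS F) g) (C_pos hS g)
  refine this.congr fun N => ?_
  rw [cnt_cell hS]

lemma new_dens (hF : ∀ p ∈ F, p.Prime) (h2 : 2 ∉ F) {l δ : ℝ}
    (hl : Tendsto (fun N : ℕ => (cnt (Cell (SS F) 1) N : ℝ) / N) atTop (𝓝 l))
    (hδ : Tendsto (fun N : ℕ => (cnt Greedy N : ℝ) / N) atTop (𝓝 δ)) :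
    Tendsto (fun N : ℕ => (cnt (NewSet F) N : ℝ) / N) atTop
      (𝓝 (δ - ∑ c ∈ CD F, l * (1 / (c : ℝ)) + ∑ c ∈ CB F, l * (1 / (c : ℝ)))) := by
  have h1 : Tendsto (fun N : ℕ => ∑ c ∈ CD F, (cnt (Cell (SS F) c) N : ℝ) / N) atTop
      (𝓝 (∑ c ∈ CD F, l * (1 / (c : ℝ)))) :=
    tendsto_finsetSum _ fun c hc => cell_tendsto hF hl (CD_form hc)
  have h3 : Tendsto (fun N : ℕ => ∑ c ∈ CB F, (cnt (Cell (SS F) c) N : ℝ) / N) atTop
      (𝓝 (∑ c ∈ CB F, l * (1 / (c : ℝ)))) :=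
    tendsto_finsetSum _ fun c hc => cell_tendsto hF hl (CB_form hc)
  refine ((hδ.sub h1).add h3).congr fun N => ?_
  rw [cnt_new hF h2, ← Finset.sum_div, ← Finset.sum_div]
  ring

/-- choice of a finite set of odd primes with large reciprocal sum -/
lemma exists_F : ∃ F : Finset ℕ, (∀ p ∈ F, p.Prime) ∧ 2 ∉ F ∧
    20 < ∑ p ∈ F, (1 : ℝ) / p := by
  classical
  have h := (not_summable_iff_tendsto_nat_atTop_of_nonneg (fun n => by
    apply Set.indicator_nonneg; intro i _; positivity)).1 not_summable_one_div_on_primes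
  obtain ⟨n, hn⟩ := (h.eventually_ge_atTop 22).exists
  refine ⟨(Finset.range n).filter (fun p => p.Prime ∧ p ≠ 2), ?_, ?_, ?_⟩
  · intro p hp; exact (Finset.mem_filter.1 hp).2.1
  · simp
  · have h1 : ∑ i ∈ Finset.range n, Set.indicator {p | p.Prime} (fun n : ℕ ↦ (1 : ℝ) / n) i ≤
        ∑ p ∈ (Finset.range n).filter (fun p => p.Prime ∧ p ≠ 2), (1 : ℝ) / p + 1 / 2 := by
      rw [Finset.sum_filter]
      have h3 : ∀ i ∈ Finset.range n, Set.indicator {p | p.Prime} (fun n : ℕ ↦ (1 : ℝ) / n) i ≤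
          (if i.Prime ∧ i ≠ 2 then (1 : ℝ) / i else 0) + (if i = 2 then (1 : ℝ) / 2 else 0) := by
        intro i _
        rw [Set.indicator_apply]
        simp only [Set.mem_ofPred_eq]
        by_cases h4 : i = 2
        · subst h4
          simp [Nat.prime_two]
        · by_cases h5 : i.Prime
          · simp [h4, h5]
          · simp [h4, h5]
      refine (Finset.sum_le_sum h3).trans ?_
      rw [Finset.sum_add_distrib]
      have : ∑ i ∈ Finset.range n, (if i = 2 then (1 : ℝ) / 2 else 0) ≤ 1 / 2 := by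
        rw [Finset.sum_ite_eq']
        split_ifs <;> norm_num
      linarith
    linarith

lemma sum_sq_le (hF : ∀ p ∈ F, p.Prime) (h2 : 2 ∉ F) :
    ∑ p ∈ F, ((p : ℝ) ^ 2)⁻¹ ≤ 1 / 2 := by
  set N := 2 + ∑ p ∈ F, p with hN
  have hsub : F ⊆ Finset.Ioc 2 N := by
    intro p hp
    rw [Finset.mem_Ioc]
    have h1 := (hF p hp).two_le
    have h3 : p ≠ 2 := fun h => h2 (h ▸ hp)
    have h4 := Finset.single_le_sum (f := fun p => p) (fun _ _ => Nat.zero_le _) hp
    constructor <;> omega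
  have h1 := Finset.sum_le_sum_of_subset_of_nonneg (f := fun p : ℕ => ((p : ℝ) ^ 2)⁻¹) hsub
    (fun i _ _ => by positivity)
  have h3 : ∑ i ∈ Finset.Ioc 2 N, ((i : ℝ) ^ 2)⁻¹ ≤ ((2 : ℕ) : ℝ)⁻¹ - (N : ℝ)⁻¹ :=
    sum_Ioc_inv_sq_le_sub (by norm_num) (by omega)
  have h4 : (0 : ℝ) ≤ (N : ℝ)⁻¹ := by positivity
  push_cast at h3
  norm_num at h3 ⊢
  linarith

lemma gain (hF : ∀ p ∈ F, p.Prime) (h2 : 2 ∉ F) (hsum : 20 < ∑ p ∈ F, (1 : ℝ) / p) :
    ∑ c ∈ CD F, 1 / (c : ℝ) < ∑ c ∈ CB F, 1 / (c : ℝ) := by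
  set Q : ℕ := ∏ p ∈ F, p with hQ
  have hQpos : 0 < Q := Finset.prod_pos fun p hp => (hF p hp).pos
  have hQr : (0 : ℝ) < Q := by exact_mod_cast hQpos
  -- the gain
  have hB : ∑ c ∈ CB F, 1 / (c : ℝ) = (1 / (4 * Q)) * ∑ p ∈ F, (1 : ℝ) / p := by
    unfold CB
    rw [Finset.sum_image]
    · rw [Finset.mul_sum]
      refine Finset.sum_congr rfl fun j hj => ?_
      have hjr : (0 : ℝ) < j := by exact_mod_cast (hF j hj).pos
      rw [gB_eq, prod_pattern h2 2 1 j hj, ← hQ]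
      push_cast
      field_simp
    · intro j hj j' hj' h
      simp only at h
      rw [gB_eq, gB_eq, prod_pattern h2 2 1 j hj, prod_pattern h2 2 1 j' hj'] at h
      have : 0 < 2 ^ 2 * ∏ p ∈ F, p := by positivity
      simpa using Nat.eq_of_mul_eq_mul_left this h
  -- the loss
  have hD : ∑ c ∈ CD F, 1 / (c : ℝ) ≤ 5 / Q := by
    unfold CD
    have hnn : ∀ n : ℕ, (0 : ℝ) ≤ 1 / (n : ℝ) := fun n => by positivity
    refine (sum_union_le' _ _ (fun c => 1 / (c : ℝ)) hnn).trans ?_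
    have h3 : ∑ c ∈ ((({0, 1, 3, 4} : Finset ℕ) ×ˢ ({3, 4} : Finset ℕ)) ×ˢ F).image
        (fun x => C (SS F) (gD x.1.1 x.1.2 x.2)), 1 / (c : ℝ) ≤ 4 / Q := by
      refine (sum_image_le' _ _ (fun c => 1 / (c : ℝ)) hnn).trans ?_
      rw [Finset.sum_product]
      have h4 : ∀ x ∈ ({0, 1, 3, 4} : Finset ℕ) ×ˢ ({3, 4} : Finset ℕ),
          ∑ j ∈ F, 1 / ((C (SS F) (gD x.1 x.2 j) : ℕ) : ℝ) ≤ 1 / (2 * Q) := by
        intro x hx
        rw [Finset.mem_product] at hx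
        have hx2 : x.2 = 3 ∨ x.2 = 4 := by simpa using hx.2
        have h5 : ∀ j ∈ F, 1 / ((C (SS F) (gD x.1 x.2 j) : ℕ) : ℝ) ≤ (1 / Q) * ((j : ℝ) ^ 2)⁻¹ := by
          intro j hj
          have hj1 : 1 ≤ j := (hF j hj).one_lt.le
          have hjr : (0 : ℝ) < j := by exact_mod_cast (hF j hj).pos
          obtain ⟨f, hf, hf2⟩ : ∃ f, x.2 = f + 1 ∧ 2 ≤ f := by
            rcases hx2 with h | h
            · exact ⟨2, h, le_rfl⟩
            · exact ⟨3, h, by norm_num⟩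
          rw [hf, prod_pattern h2 x.1 f j hj]
          rw [← hQ]
          have h6 : Q * j ^ 2 ≤ 2 ^ x.1 * Q * j ^ f := by
            have : Q ≤ 2 ^ x.1 * Q := Nat.le_mul_of_pos_left _ (by positivity)
            exact Nat.mul_le_mul this (Nat.pow_le_pow_right hj1 hf2)
          have h7 : ((Q : ℝ) * (j : ℝ) ^ 2) ≤ ((2 ^ x.1 * Q * j ^ f : ℕ) : ℝ) := by
            exact_mod_cast h6
          have h8 : (0 : ℝ) < (Q : ℝ) * (j : ℝ) ^ 2 := by positivity
          calc 1 / ((2 ^ x.1 * Q * j ^ f : ℕ) : ℝ) ≤ 1 / ((Q : ℝ) * (j : ℝ) ^ 2) :=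
                one_div_le_one_div_of_le h8 h7
            _ = (1 / Q) * ((j : ℝ) ^ 2)⁻¹ := by field_simp
        refine (Finset.sum_le_sum h5).trans ?_
        rw [← Finset.mul_sum]
        have h9 := sum_sq_le hF h2
        calc (1 / (Q : ℝ)) * ∑ j ∈ F, ((j : ℝ) ^ 2)⁻¹ ≤ (1 / Q) * (1 / 2) :=
              mul_le_mul_of_nonneg_left h9 (by positivity)
          _ = 1 / (2 * Q) := by field_simp
      refine (Finset.sum_le_sum h4).trans ?_
      rw [Finset.sum_const, Finset.card_product]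
      simp only [nsmul_eq_mul]
      have : (({0, 1, 3, 4} : Finset ℕ).card * ({3, 4} : Finset ℕ).card) = 8 := by decide
      rw [this]
      push_cast
      apply le_of_eq
      field_simp
      norm_num
    have h10 : ∑ c ∈ ({1, 3} : Finset ℕ).image (fun a => C (SS F) (gE a)), 1 / (c : ℝ) ≤ 1 / Q := by
      refine (sum_image_le' _ _ (fun c => 1 / (c : ℝ)) hnn).trans ?_
      rw [Finset.sum_pair (by norm_num)]
      rw [prod_gE h2, prod_gE h2, ← hQ]
      push_cast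
      have h11 : 1 / ((2 : ℝ) * Q) + 1 / (8 * Q) = (5 / 8) * (1 / Q) := by
        field_simp; norm_num
      have h12 : (0 : ℝ) < 1 / Q := by positivity
      norm_num only
      rw [h11]
      linarith
    have : (5 : ℝ) / Q = 4 / Q + 1 / Q := by ring
    rw [this]
    linarith
  rw [hB]
  refine lt_of_le_of_lt hD ?_
  have : (5 : ℝ) / Q = (1 / (4 * Q)) * 20 := by field_simp; norm_num
  rw [this]
  exact mul_lt_mul_of_pos_left hsum (by positivity)

/-- There is a geometric-progression-free set with a natural density exceeding that of the greedy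
set. -/
theorem main (δ : ℝ) (hδ : Tendsto (fun N : ℕ => (cnt Greedy N : ℝ) / N) atTop (𝓝 δ)) :
    ∃ (A : Set ℕ) (d : ℝ), (∀ n ∈ A, 1 ≤ n) ∧
      (∀ a ∈ A, ∀ b ∈ A, ∀ c ∈ A, a < b → b < c → b ^ 2 ≠ a * c) ∧
      Tendsto (fun N : ℕ => (cnt A N : ℝ) / N) atTop (𝓝 d) ∧ δ < d := by
  obtain ⟨F, hF, h2, hsum⟩ := exists_F
  have hS := primes_SS hF
  obtain ⟨l, hl⟩ := dens_exists hS
  have hlpos := dens_pos hS hl
  refine ⟨NewSet F, _, fun n hn => hn.1, ?_, new_dens hF h2 hl hδ, ?_⟩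
  · intro a ha b hb c hc hab _ heq
    exact newSet_free hF h2 ha hb hc hab heq
  · have h := gain hF h2 hsum
    rw [← Finset.mul_sum, ← Finset.mul_sum]
    have := mul_lt_mul_of_pos_left h hlpos
    linarith

end Pool.Agent.H413R3.GP
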