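import Mathlib

set_option autoImplicit false

open Finset Filter Topology

namespace Pool.Agent.H413R3.KG

/-- `A` contains a geometric progression `a, a r, ..., a r ^ (k - 1)` with real ratio `r > 1`. -/
def HasGP (k : ℕ) (A : Set ℕ) : Prop :=
  ∃ a r : ℝ, 0 < a ∧ 1 < r ∧ ∀ i < k, ∃ n ∈ A, (n : ℝ) = a * r ^ i

/-- working form: all `k`-term geometric progressions in `A` are constant -/
def GPF (k : ℕ) (A : Set ℕ) : Prop :=
  ∀ f : ℕ → ℕ, (∀ i < k, f i ∈ A) → (∀ i, i + 2 < k → f (i + 1) ^ 2 = f i * f (i + 2)) → f 0 = f 1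

lemma gpf_mono {k : ℕ} {A B : Set ℕ} (h : A ⊆ B) (hB : GPF k B) : GPF k A :=
  fun f hf hr => hB f (fun i hi => h (hf i hi)) hr

lemma geom_of_rel {k : ℕ} {f : ℕ → ℕ} (hpos : ∀ i < k, 1 ≤ f i)
    (hr : ∀ i, i + 2 < k → f (i + 1) ^ 2 = f i * f (i + 2)) :
    ∀ i < k, (f i : ℝ) = f 0 * ((f 1 : ℝ) / f 0) ^ i := by
  intro i
  induction i using Nat.strong_induction_on with
  | _ i ih =>
    intro hi
    rcases i with _ | _ | i
    · simp
    · have h0 : (0 : ℝ) < f 0 := by exact_mod_cast hpos 0 (by omega)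
      rw [zero_add, pow_one, mul_div_cancel₀ _ h0.ne']
    · have h0 : (0 : ℝ) < f 0 := by exact_mod_cast hpos 0 (by omega)
      have hfi : (0 : ℝ) < f i := by exact_mod_cast hpos i (by omega)
      have e := hr i (by omega)
      have e' : (f (i + 1) : ℝ) ^ 2 = f i * f (i + 2) := by exact_mod_cast e
      have i1 := ih (i + 1) (by omega) (by omega)
      have i0 := ih i (by omega) (by omega)
      have : (f (i + 2) : ℝ) = (f (i + 1) : ℝ) ^ 2 / f i := by
        rw [eq_div_iff hfi.ne']; linarith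
      rw [show i + 1 + 1 = i + 2 by ring, this, i1]
      have h1 : (0 : ℝ) < f 1 := by exact_mod_cast hpos 1 (by omega)
      set r : ℝ := (f 1 : ℝ) / f 0 with hrdef
      have hr0 : 0 < r := by positivity
      rw [i0]
      have : (f 0 : ℝ) * r ^ i ≠ 0 := by positivity
      rw [div_eq_iff this]
      ring

lemma hasGP_iff {k : ℕ} (hk : 3 ≤ k) {A : Set ℕ} (hA : ∀ n ∈ A, 1 ≤ n) :
    ¬ HasGP k A ↔ GPF k A := by
  constructor
  · intro h f hf hr
    by_contra hne
    apply h
    have hpos : ∀ i < k, 1 ≤ f i := fun i hi => hA _ (hf i hi)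
    have hg := geom_of_rel hpos hr
    have h0 : (0 : ℝ) < f 0 := by exact_mod_cast hpos 0 (by omega)
    have h1 : (0 : ℝ) < f 1 := by exact_mod_cast hpos 1 (by omega)
    rcases lt_or_gt_of_ne hne with hlt | hgt
    · refine ⟨f 0, (f 1 : ℝ) / f 0, h0, ?_, fun i hi => ⟨f i, hf i hi, hg i hi⟩⟩
      rw [one_lt_div h0]
      exact_mod_cast hlt
    · refine ⟨f 0 * ((f 1 : ℝ) / f 0) ^ (k - 1), (f 0 : ℝ) / f 1, by positivity, ?_,
        fun i hi => ⟨f (k - 1 - i), hf _ (by omega), ?_⟩⟩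
      · rw [one_lt_div h1]
        exact_mod_cast hgt
      · rw [hg _ (by omega)]
        have : ((f 1 : ℝ) / f 0) ^ (k - 1) = ((f 1 : ℝ) / f 0) ^ (k - 1 - i) * ((f 1 : ℝ) / f 0) ^ i := by
          rw [← pow_add]; congr 1; omega
        rw [this]
        have h3 : ((f 1 : ℝ) / f 0) ^ i * ((f 0 : ℝ) / f 1) ^ i = 1 := by
          rw [← mul_pow]
          have : (f 1 : ℝ) / f 0 * (f 0 / f 1) = 1 := by field_simp
          rw [this, one_pow]
        calc (f 0 : ℝ) * ((f 1 : ℝ) / f 0) ^ (k - 1 - i)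
            = f 0 * ((f 1 : ℝ) / f 0) ^ (k - 1 - i) *
              (((f 1 : ℝ) / f 0) ^ i * ((f 0 : ℝ) / f 1) ^ i) := by rw [h3, mul_one]
          _ = _ := by ring
  · rintro h ⟨a, r, ha, hr, hall⟩
    have hex : ∀ i, ∃ n : ℕ, i < k → n ∈ A ∧ (n : ℝ) = a * r ^ i := by
      intro i
      by_cases hi : i < k
      · obtain ⟨n, hn, he⟩ := hall i hi
        exact ⟨n, fun _ => ⟨hn, he⟩⟩
      · exact ⟨0, fun h => absurd h hi⟩
    choose f hf using hex
    have := h f (fun i hi => (hf i hi).1) (fun i hi => by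
      have h1 := (hf (i + 1) (by omega)).2
      have h0 := (hf i (by omega)).2
      have h2 := (hf (i + 2) hi).2
      have : ((f (i + 1) : ℝ)) ^ 2 = f i * f (i + 2) := by
        rw [h1, h0, h2]; ring
      exact_mod_cast this)
    have h0 := (hf 0 (by omega)).2
    have h1 := (hf 1 (by omega)).2
    rw [this] at h0
    rw [pow_zero, mul_one] at h0
    rw [pow_one, h0] at h1
    nlinarith

/-- a bounded arithmetic progression of length `k` with values in `[0, k-2]` is constant -/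
lemma ap_const {k : ℕ} (hk : 2 ≤ k) {v : ℕ → ℕ}
    (hv : ∀ i, i + 2 < k → 2 * v (i + 1) = v i + v (i + 2)) (hb : ∀ i < k, v i ≤ k - 2) :
    ∀ i < k, v i = v 0 := by
  have hlin : ∀ i < k, (v i : ℤ) = v 0 + i * ((v 1 : ℤ) - v 0) := by
    intro i
    induction i using Nat.strong_induction_on with
    | _ i ih =>
      intro hi
      rcases i with _ | _ | i
      · simp
      · simp
      · have e := hv i (by omega)
        have e' : 2 * (v (i + 1) : ℤ) = v i + v (i + 2) := by exact_mod_cast e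
        have i1 := ih (i + 1) (by omega) (by omega)
        have i0 := ih i (by omega) (by omega)
        push_cast at i1 i0 ⊢
        linarith
  have hlast := hlin (k - 1) (by omega)
  have hb1 := hb (k - 1) (by omega)
  have hb0 := hb 0 (by omega)
  have hd : (v 1 : ℤ) - v 0 = 0 := by
    have hk1 : ((k - 1 : ℕ) : ℤ) = (k : ℤ) - 1 := by omega
    rw [hk1] at hlast
    have hb1' : (v (k - 1) : ℤ) ≤ k - 2 := by omega
    have hb0' : (v 0 : ℤ) ≤ k - 2 := by omega
    have hv1 : (0 : ℤ) ≤ v (k - 1) := by positivity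
    have hv0 : (0 : ℤ) ≤ v 0 := by positivity
    rcases lt_trichotomy ((v 1 : ℤ) - v 0) 0 with h | h | h
    · nlinarith
    · exact h
    · nlinarith
  intro i hi
  have := hlin i hi
  rw [hd] at this
  simp at this
  exact_mod_cast this

lemma fac_rel {a b c : ℕ} (ha : 1 ≤ a) (hc : 1 ≤ c) (h : b ^ 2 = a * c) (p : ℕ) :
    2 * b.factorization p = a.factorization p + c.factorization p := by
  have h1 : (b ^ 2).factorization p = (a * c).factorization p := by rw [h]
  rw [Nat.factorization_pow, Nat.factorization_mul (by omega) (by omega)] at h1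
  simpa using h1

/-- the `K`-smooth part -/
def sm (K n : ℕ) : ℕ := ∏ p ∈ Nat.primesBelow K, p ^ n.factorization p

/-- the `K`-rough part -/
def rg (K n : ℕ) : ℕ := n / sm K n

lemma sm_pos (K n : ℕ) : 0 < sm K n :=
  Finset.prod_pos fun p hp => pow_pos (Nat.prime_of_mem_primesBelow hp).pos _

lemma fac_sm (K n q : ℕ) : (sm K n).factorization q = if q < K then n.factorization q else 0 := by
  unfold sm
  rw [Nat.factorization_prod (fun p hp => (pow_pos (Nat.prime_of_mem_primesBelow hp).pos _).ne')]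
  rw [Finsupp.finsetSum_apply]
  have : ∀ p ∈ Nat.primesBelow K, ((p ^ n.factorization p).factorization) q =
      if q = p then n.factorization q else 0 := by
    intro p hp
    rw [(Nat.prime_of_mem_primesBelow hp).factorization_pow, Finsupp.single_apply]
    by_cases h : p = q
    · subst h; simp
    · rw [if_neg h, if_neg (fun h' => h h'.symm)]
  rw [Finset.sum_congr rfl this, Finset.sum_ite_eq]
  by_cases hq : q ∈ Nat.primesBelow K
  · rw [if_pos hq, if_pos (Nat.lt_of_mem_primesBelow hq)]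
  · rw [if_neg hq]
    by_cases hqK : q < K
    · rw [if_pos hqK]
      have : ¬ q.Prime := fun h => hq (Nat.mem_primesBelow.2 ⟨hqK, h⟩)
      exact (Nat.factorization_eq_zero_of_not_prime _ this).symm
    · rw [if_neg hqK]

lemma sm_dvd (K : ℕ) {n : ℕ} (hn : n ≠ 0) : sm K n ∣ n := by
  rw [← Nat.factorization_le_iff_dvd (sm_pos K n).ne' hn]
  intro q
  rw [fac_sm]
  split_ifs
  · exact le_rfl
  · exact Nat.zero_le _

lemma sm_mul_rg (K : ℕ) {n : ℕ} (hn : n ≠ 0) : sm K n * rg K n = n :=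
  Nat.mul_div_cancel' (sm_dvd K hn)

lemma rg_pos (K : ℕ) {n : ℕ} (hn : n ≠ 0) : 0 < rg K n := by
  have := sm_mul_rg K hn
  rcases Nat.eq_zero_or_pos (rg K n) with h | h
  · rw [h] at this; simp at this; exact absurd this.symm hn
  · exact h

lemma rg_dvd (K : ℕ) {n : ℕ} (hn : n ≠ 0) : rg K n ∣ n :=
  ⟨sm K n, by rw [mul_comm]; exact (sm_mul_rg K hn).symm⟩

lemma rg_le (K : ℕ) {n : ℕ} (hn : n ≠ 0) : rg K n ≤ n :=
  Nat.le_of_dvd (Nat.pos_of_ne_zero hn) (rg_dvd K hn)

lemma fac_rg (K q : ℕ) {n : ℕ} (hn : n ≠ 0) :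
    (rg K n).factorization q = if q < K then 0 else n.factorization q := by
  have h : (sm K n * rg K n).factorization q = n.factorization q := by rw [sm_mul_rg K hn]
  rw [Nat.factorization_mul (sm_pos K n).ne' (rg_pos K hn).ne', Finsupp.add_apply, fac_sm] at h
  split_ifs at h ⊢ <;> omega

/-- positive numbers without prime factors below `K` -/
def Rough (K : ℕ) : Set ℕ := {m | 1 ≤ m ∧ ∀ p < K, m.factorization p = 0}

lemma rg_mem_rough (K : ℕ) {n : ℕ} (hn : n ≠ 0) : rg K n ∈ Rough K :=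
  ⟨rg_pos K hn, fun p hp => by rw [fac_rg K p hn, if_pos hp]⟩

lemma mem_smooth_iff {K t : ℕ} : t ∈ Nat.smoothNumbers K ↔
    t ≠ 0 ∧ ∀ p, K ≤ p → t.factorization p = 0 := by
  rw [Nat.mem_smoothNumbers]
  constructor
  · rintro ⟨h0, h⟩
    refine ⟨h0, fun p hp => ?_⟩
    by_contra hne
    have h1 : p ∈ t.primeFactorsList := by
      rw [Nat.mem_primeFactorsList h0]
      refine ⟨?_, Nat.dvd_of_factorization_pos hne⟩
      by_contra hnp
      exact hne (Nat.factorization_eq_zero_of_not_prime _ hnp)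
    have := h p h1
    omega
  · rintro ⟨h0, h⟩
    refine ⟨h0, fun p hp => ?_⟩
    by_contra hlt
    push Not at hlt
    have h1 := h p hlt
    rw [Nat.mem_primeFactorsList h0] at hp
    have := (hp.1.dvd_iff_one_le_factorization h0).1 hp.2
    omega

lemma sm_mem_smooth (K n : ℕ) : sm K n ∈ Nat.smoothNumbers K := by
  rw [mem_smooth_iff]
  exact ⟨(sm_pos K n).ne', fun p hp => by rw [fac_sm, if_neg (by omega)]⟩

lemma sm_mul {K t m : ℕ} (ht : t ∈ Nat.smoothNumbers K) (hm : m ∈ Rough K) : sm K (t * m) = t := by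
  rw [mem_smooth_iff] at ht
  apply Nat.eq_of_factorization_eq (sm_pos K _).ne' ht.1
  intro q
  rw [fac_sm, Nat.factorization_mul ht.1 (by have := hm.1; omega), Finsupp.add_apply]
  split_ifs with h
  · rw [hm.2 q h, add_zero]
  · exact (ht.2 q (by omega)).symm

lemma rg_mul {K t m : ℕ} (ht : t ∈ Nat.smoothNumbers K) (hm : m ∈ Rough K) : rg K (t * m) = m := by
  unfold rg
  rw [sm_mul ht hm]
  have ht0 : 0 < t := Nat.pos_of_ne_zero (mem_smooth_iff.1 ht).1
  exact Nat.mul_div_cancel_left m ht0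

lemma rg_dvd_rg {K L n : ℕ} (h : K ≤ L) (hn : n ≠ 0) : rg L n ∣ rg K n := by
  rw [← Nat.factorization_le_iff_dvd (rg_pos L hn).ne' (rg_pos K hn).ne']
  intro q
  rw [fac_rg L q hn, fac_rg K q hn]
  split_ifs <;> omega

end Pool.Agent.H413R3.KG
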