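import Mathlib
import Pool.Agent.H413R3.GPDens
import Pool.Agent.H413R3.KGBasic

set_option autoImplicit false

open Finset Filter Topology

namespace Pool.Agent.H413R3.KG

open GP (cnt cnt_mono cnt_eq_sum cnt_sub_le periodic_dens Bad cnt_bad dens_scale nat_div_tendsto)

/-- natural density -/
def Dens (A : Set ℕ) (d : ℝ) : Prop := Tendsto (fun N : ℕ => (cnt A N : ℝ) / N) atTop (𝓝 d)

/-- reciprocal sum -/
noncomputable def W (T : Set ℕ) : ℝ := ∑' t : ℕ, T.indicator (fun t => ((t : ℝ))⁻¹) t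

/-- numbers with smooth part in `T` and rough part in `C` -/
def D (K : ℕ) (T C : Set ℕ) : Set ℕ := {n | 1 ≤ n ∧ sm K n ∈ T ∧ rg K n ∈ C}

/-- density of the rough numbers -/
noncomputable def P (K : ℕ) : ℝ := ∏ p ∈ Nat.primesBelow K, (1 - (p : ℝ)⁻¹)

/-- the completely multiplicative function `n ↦ 1 / n` -/
noncomputable def invHom : ℕ →* ℝ where
  toFun n := (n : ℝ)⁻¹
  map_one' := by simp
  map_mul' a b := by push_cast; rw [mul_inv]

lemma hasSum_smooth (K : ℕ) : HasSum (fun t : ℕ => (Nat.smoothNumbers K).indicator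
    (fun t => ((t : ℝ))⁻¹) t) (∏ p ∈ Nat.primesBelow K, (1 - (p : ℝ)⁻¹)⁻¹) := by
  have h := (EulerProduct.summable_and_hasSum_smoothNumbers_prod_primesBelow_geometric
    (f := invHom) (fun {p} hp => by
      have h1 : (1 : ℝ) < p := by exact_mod_cast hp.one_lt
      simp only [invHom, MonoidHom.coe_mk, OneHom.coe_mk, norm_inv, Real.norm_natCast]
      exact inv_lt_one_of_one_lt₀ h1) K).2
  exact (hasSum_subtype_iff_indicator (f := fun t : ℕ => ((t : ℝ))⁻¹)).1 h

lemma P_pos (K : ℕ) : 0 < P K := by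
  apply Finset.prod_pos
  intro p hp
  have h1 : (1 : ℝ) < p := by exact_mod_cast (Nat.prime_of_mem_primesBelow hp).one_lt
  have := inv_lt_one_of_one_lt₀ h1
  linarith

lemma W_smooth (K : ℕ) : P K * W (Nat.smoothNumbers K) = 1 := by
  unfold W
  rw [(hasSum_smooth K).tsum_eq, Finset.prod_inv_distrib]
  exact mul_inv_cancel₀ (P_pos K).ne'

lemma summable_of_smooth {K : ℕ} {T : Set ℕ} (hT : T ⊆ Nat.smoothNumbers K) :
    Summable (fun t : ℕ => T.indicator (fun t => ((t : ℝ))⁻¹) t) := by
  refine Summable.of_nonneg_of_le (fun t => Set.indicator_nonneg (fun _ _ => by positivity) _)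
    (fun t => ?_) (hasSum_smooth K).summable
  exact Set.indicator_le_indicator_of_subset hT (fun _ => by positivity) t

lemma W_nonneg (T : Set ℕ) : 0 ≤ W T :=
  tsum_nonneg fun t => Set.indicator_nonneg (fun _ _ => by positivity) _

lemma W_mono {K : ℕ} {T T' : Set ℕ} (h : T ⊆ T') (hT : T' ⊆ Nat.smoothNumbers K) : W T ≤ W T' :=
  (summable_of_smooth (h.trans hT)).tsum_le_tsum
    (fun t => Set.indicator_le_indicator_of_subset h (fun _ => by positivity) t)
    (summable_of_smooth hT)

lemma PW_le_one {K : ℕ} {T : Set ℕ} (hT : T ⊆ Nat.smoothNumbers K) : P K * W T ≤ 1 := by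
  rw [← W_smooth K]
  exact mul_le_mul_of_nonneg_left (W_mono hT le_rfl) (P_pos K).le

lemma cnt_eq_card (E : Set ℕ) [DecidablePred (· ∈ E)] (N : ℕ) :
    cnt E N = ((Finset.Icc 1 N).filter (· ∈ E)).card := by
  unfold cnt
  have : E ∩ Set.Icc 1 N = ((Finset.Icc 1 N).filter (fun n => n ∈ E) : Finset ℕ) := by
    ext n
    simp only [Set.mem_inter_iff, Set.mem_Icc, Finset.coe_filter, Finset.mem_Icc, Set.mem_ofPred_eq]
    tauto
  rw [this, Set.ncard_coe_finset]

lemma cnt_le (E : Set ℕ) (N : ℕ) : cnt E N ≤ N := by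
  classical
  rw [cnt_eq_card]
  refine (Finset.card_filter_le _ _).trans ?_
  simp

lemma cnt_D {K : ℕ} {T C : Set ℕ} (hT : T ⊆ Nat.smoothNumbers K) (hC : C ⊆ Rough K) (N : ℕ) :
    (cnt (D K T C) N : ℝ) = ∑' t : ℕ, T.indicator (fun t => (cnt C (N / t) : ℝ)) t := by
  classical
  have h0 : ∀ t ∉ Finset.Icc 1 N, T.indicator (fun t => (cnt C (N / t) : ℝ)) t = 0 := by
    intro t ht
    by_cases htT : t ∈ T
    · rw [Set.indicator_of_mem htT]
      have ht0 : t ≠ 0 := (mem_smooth_iff.1 (hT htT)).1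
      have : N < t := by
        rw [Finset.mem_Icc] at ht
        omega
      rw [Nat.div_eq_of_lt this]
      have := cnt_le C 0
      have h' : cnt C 0 = 0 := by omega
      rw [h']; simp
    · exact Set.indicator_of_notMem htT _
  rw [tsum_eq_sum h0, cnt_eq_card]
  rw [Finset.card_eq_sum_card_fiberwise (f := sm K) (t := Finset.Icc 1 N)]
  · push_cast
    refine Finset.sum_congr rfl fun t ht => ?_
    rw [Finset.mem_Icc] at ht
    by_cases htT : t ∈ T
    · rw [Set.indicator_of_mem htT, cnt_eq_card]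
      norm_cast
      have htpos : 0 < t := by omega
      refine Finset.card_nbij' (fun n => n / t) (fun m => t * m) ?_ ?_ ?_ ?_
      · intro n hn
        simp only [Finset.coe_filter, Finset.mem_filter, Finset.mem_Icc, Set.mem_ofPred_eq, D] at hn ⊢
        obtain ⟨⟨⟨h1, h2⟩, _, h3, h4⟩, h5⟩ := hn
        have h6 : rg K n = n / t := by unfold rg; rw [h5]
        rw [← h6]
        refine ⟨⟨rg_pos K (by omega), ?_⟩, h4⟩
        rw [h6]
        exact Nat.div_le_div_right h2
      · intro m hm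
        simp only [Finset.coe_filter, Finset.mem_filter, Finset.mem_Icc, Set.mem_ofPred_eq, D] at hm ⊢
        obtain ⟨⟨h1, h2⟩, h3⟩ := hm
        have h4 : 1 ≤ t * m := Nat.mul_pos htpos h1
        have h5 : t * m ≤ N := by
          rw [Nat.le_div_iff_mul_le htpos] at h2
          rw [mul_comm]; exact h2
        rw [sm_mul (hT htT) (hC h3), rg_mul (hT htT) (hC h3)]
        exact ⟨⟨⟨h4, h5⟩, h4, htT, h3⟩, rfl⟩
      · intro n hn
        simp only [Finset.coe_filter, Finset.mem_filter, Finset.mem_Icc, Set.mem_ofPred_eq, D] at hn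
        obtain ⟨⟨⟨h1, h2⟩, _, h3, h4⟩, h5⟩ := hn
        apply Nat.mul_div_cancel'
        rw [← h5]
        exact sm_dvd K (by omega)
      · intro m hm
        exact Nat.mul_div_cancel_left m htpos
    · rw [Set.indicator_of_notMem htT]
      norm_cast
      rw [Finset.card_eq_zero, Finset.filter_eq_empty_iff]
      intro n hn
      simp only [Finset.mem_filter, D, Set.mem_ofPred_eq] at hn
      rintro rfl
      exact htT hn.2.2.1
  · intro n hn
    simp only [Finset.coe_filter, Finset.mem_Icc, Set.mem_ofPred_eq, D, Finset.coe_Icc, Set.mem_Icc] at hn ⊢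
    refine ⟨sm_pos K n, (Nat.le_of_dvd (by omega) (sm_dvd K (by omega))).trans hn.1.2⟩

lemma dens_D {K : ℕ} {T C : Set ℕ} (hT : T ⊆ Nat.smoothNumbers K) (hC : C ⊆ Rough K) {γ : ℝ}
    (hγ : Dens C γ) : Dens (D K T C) (γ * W T) := by
  unfold Dens
  have h := tendsto_tsum_of_dominated_convergence (𝓕 := (atTop : Filter ℕ))
    (f := fun (N : ℕ) (t : ℕ) => T.indicator (fun t => (cnt C (N / t) : ℝ) / N) t)
    (g := fun t : ℕ => T.indicator (fun t => γ * (1 / (t : ℝ))) t)
    (bound := fun t : ℕ => T.indicator (fun t => ((t : ℝ))⁻¹) t)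
    (summable_of_smooth hT) ?_ ?_
  · have e1 : ∀ N : ℕ, (cnt (D K T C) N : ℝ) / N =
        ∑' t : ℕ, T.indicator (fun t => (cnt C (N / t) : ℝ) / N) t := by
      intro N
      rw [cnt_D hT hC, ← tsum_div_const]
      congr 1
      funext t
      by_cases h : t ∈ T <;> simp [h]
    have e2 : γ * W T = ∑' t : ℕ, T.indicator (fun t => γ * (1 / (t : ℝ))) t := by
      unfold W
      rw [← tsum_mul_left]
      congr 1
      funext t
      by_cases h : t ∈ T <;> simp [h]
    rw [e2]
    exact h.congr fun N => (e1 N).symm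
  · intro t
    by_cases ht : t ∈ T
    · simp only [Set.indicator_of_mem ht]
      exact dens_scale hγ t (Nat.pos_of_ne_zero (mem_smooth_iff.1 (hT ht)).1)
    · simp only [Set.indicator_of_notMem ht]
      exact tendsto_const_nhds
  · filter_upwards [eventually_ge_atTop 1] with N hN t
    by_cases ht : t ∈ T
    · simp only [Set.indicator_of_mem ht]
      have hNr : (0 : ℝ) < N := by exact_mod_cast hN
      have ht0 : (0 : ℝ) < t := by
        exact_mod_cast Nat.pos_of_ne_zero (mem_smooth_iff.1 (hT ht)).1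
      rw [Real.norm_of_nonneg (by positivity), div_le_iff₀ hNr]
      have h1 : (cnt C (N / t) : ℝ) ≤ ((N / t : ℕ) : ℝ) := by exact_mod_cast cnt_le C (N / t)
      have h2 : ((N / t : ℕ) : ℝ) ≤ N / t := Nat.cast_div_le
      calc (cnt C (N / t) : ℝ) ≤ N / t := h1.trans h2
        _ = (t : ℝ)⁻¹ * N := by rw [div_eq_mul_inv, mul_comm]
    · simp [Set.indicator_of_notMem ht]

end Pool.Agent.H413R3.KG
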