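import Mathlib
import Pool.Agent.H413R3.GPDens
import Pool.Agent.H413R3.KGDens

set_option autoImplicit false

open Finset Filter Topology

namespace Pool.Agent.H413R3.KG

open GP (cnt cnt_mono cnt_eq_sum cnt_sub_le Bad cnt_bad dens_scale nat_div_tendsto count_periodic cnt_eq_count)

lemma dens_unique {A : Set ℕ} {a b : ℝ} (ha : Dens A a) (hb : Dens A b) : a = b :=
  tendsto_nhds_unique ha hb

lemma cnt_congr {A B : Set ℕ} (h : ∀ n, 1 ≤ n → (n ∈ A ↔ n ∈ B)) (N : ℕ) : cnt A N = cnt B N :=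
  le_antisymm (cnt_mono (fun n h1 h2 => (h n h1).1 h2) N) (cnt_mono (fun n h1 h2 => (h n h1).2 h2) N)

lemma dens_congr {A B : Set ℕ} (h : ∀ n, 1 ≤ n → (n ∈ A ↔ n ∈ B)) {a : ℝ} (ha : Dens A a) :
    Dens B a := by
  unfold Dens at *
  exact ha.congr fun N => by rw [cnt_congr h N]

lemma dens_le {A B : Set ℕ} (h : ∀ n, 1 ≤ n → n ∈ A → n ∈ B) {a b : ℝ} (ha : Dens A a)
    (hb : Dens B b) : a ≤ b := by
  refine le_of_tendsto_of_tendsto' ha hb fun N => ?_
  have : (cnt A N : ℝ) ≤ cnt B N := by exact_mod_cast cnt_mono h N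
  gcongr

lemma dens_nonneg {A : Set ℕ} {a : ℝ} (ha : Dens A a) : 0 ≤ a :=
  ge_of_tendsto' ha fun N => by positivity

lemma dens_univ : Dens Set.univ 1 := by
  unfold Dens
  refine (tendsto_const_nhds (x := (1 : ℝ))).congr' ?_
  filter_upwards [eventually_ge_atTop 1] with N hN
  classical
  have hNr : (0 : ℝ) < N := by exact_mod_cast hN
  rw [cnt_eq_card]
  simp
  field_simp

lemma dens_bounded {A : Set ℕ} {a C : ℝ} (h : ∀ N : ℕ, |(cnt A N : ℝ) - N * a| ≤ C) : Dens A a := by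
  unfold Dens
  rw [Metric.tendsto_atTop]
  intro ε hε
  obtain ⟨N0, hN0⟩ := exists_nat_gt (C / ε)
  refine ⟨N0 + 1, fun N hN => ?_⟩
  have hNpos : (0 : ℝ) < N := by exact_mod_cast (by omega : 0 < N)
  rw [Real.dist_eq]
  have h1 : (cnt A N : ℝ) / N - a = ((cnt A N : ℝ) - N * a) / N := by
    field_simp
  rw [h1, abs_div, abs_of_pos hNpos, div_lt_iff₀ hNpos]
  have h2 := h N
  have h3 : C / ε < N := lt_of_lt_of_le hN0 (by exact_mod_cast (by omega : N0 ≤ N))
  rw [div_lt_iff₀ hε] at h3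
  linarith [mul_comm ε (N : ℝ)]

lemma periodic_dens' (E : Set ℕ) (L : ℕ) (hL : 0 < L) (hE : ∀ n, 1 ≤ n → (L + n ∈ E ↔ n ∈ E)) :
    Dens E ((cnt E L : ℝ) / L) := by
  classical
  set p : ℕ → Prop := fun n => n + 1 ∈ E with hp
  have hper : ∀ n, p (L + n) ↔ p n := by
    intro n
    simp only [hp]
    rw [add_assoc]; exact hE (n + 1) (by omega)
  set c := Nat.count p L with hc
  have hcE : (cnt E L : ℝ) = c := cnt_eq_count E L
  have hLr : (0 : ℝ) < L := by exact_mod_cast hL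
  have hcL : (c : ℝ) ≤ L := by
    have : c ≤ L := Nat.count_le p
    exact_mod_cast this
  apply dens_bounded (C := 2 * L)
  intro N
  rw [cnt_eq_count E N, hcE]
  have h1 : Nat.count p N = (N / L) * c + Nat.count p (N % L) := by
    conv_lhs => rw [← Nat.div_add_mod N L]
    exact count_periodic p L hper _ _
  have h1' : (Nat.count (fun n => n + 1 ∈ E) N : ℝ) = ((N / L : ℕ) : ℝ) * c + (Nat.count p (N % L) : ℝ) := by
    exact_mod_cast h1
  rw [h1']
  have h2 : (N : ℝ) = L * ((N / L : ℕ) : ℝ) + ((N % L : ℕ) : ℝ) := by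
    exact_mod_cast (Nat.div_add_mod N L).symm
  have h3 : (Nat.count p (N % L) : ℝ) ≤ L := by
    have : Nat.count p (N % L) ≤ N % L := Nat.count_le p
    have h4 : N % L < L := Nat.mod_lt _ hL
    exact_mod_cast (this.trans h4.le)
  have h4 : ((N % L : ℕ) : ℝ) ≤ L := by exact_mod_cast (Nat.mod_lt N hL).le
  have h5 : (N : ℝ) * (c / L) = ((N / L : ℕ) : ℝ) * c + ((N % L : ℕ) : ℝ) * c / L := by
    rw [h2]; field_simp
  rw [h5]
  have h6 : ((N % L : ℕ) : ℝ) * c / L ≤ L := by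
    rw [div_le_iff₀ hLr]
    exact mul_le_mul h4 hcL (by positivity) (by positivity)
  have h7 : 0 ≤ ((N % L : ℕ) : ℝ) * c / L := by positivity
  have h8 : (0 : ℝ) ≤ (Nat.count p (N % L) : ℝ) := by positivity
  rw [abs_le]
  constructor <;> linarith

lemma dens_of_approx {A : Set ℕ} (h : ∀ ε > 0, ∃ (E : Set ℕ) (e : ℝ), Dens E e ∧
    ∀ N : ℕ, |(cnt A N : ℝ) - cnt E N| ≤ ε * N) : ∃ a, Dens A a := by
  apply cauchySeq_tendsto_of_complete
  rw [Metric.cauchySeq_iff']
  intro ε hε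
  obtain ⟨E, e, hE, hA⟩ := h (ε / 4) (by positivity)
  unfold Dens at hE
  rw [Metric.tendsto_atTop] at hE
  obtain ⟨N1, hN1⟩ := hE (ε / 4) (by positivity)
  have hclose : ∀ N : ℕ, 1 ≤ N → |(cnt A N : ℝ) / N - (cnt E N : ℝ) / N| ≤ ε / 4 := by
    intro N hN
    have hNr : (0 : ℝ) < N := by exact_mod_cast hN
    rw [← sub_div, abs_div, abs_of_pos hNr, div_le_iff₀ hNr]
    exact hA N
  refine ⟨max N1 1, fun N hN => ?_⟩
  have hNN1 : N1 ≤ N := le_trans (le_max_left _ _) hN
  have hN1' : 1 ≤ N := le_trans (le_max_right _ _) hN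
  have a1 := hclose N hN1'
  have a2 := hclose (max N1 1) (le_max_right _ _)
  have a3 := hN1 N hNN1
  have a4 := hN1 (max N1 1) (le_max_left _ _)
  rw [Real.dist_eq] at a3 a4 ⊢
  rw [abs_le] at a1 a2
  rw [abs_lt] at a3 a4 ⊢
  constructor <;> linarith [a1.1, a1.2, a2.1, a2.2, a3.1, a3.2, a4.1, a4.2]

/-- rough numbers all of whose exponents are at most `k - 2` -/
def Fr (k K : ℕ) : Set ℕ := {m | m ∈ Rough K ∧ ∀ p, m.factorization p ≤ k - 2}

lemma fr_sub (k K : ℕ) : Fr k K ⊆ Rough K := fun _ h => h.1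

lemma rough_iff {K m : ℕ} (hm : 1 ≤ m) : m ∈ Rough K ↔ ∀ p ∈ Nat.primesBelow K, ¬ p ∣ m := by
  constructor
  · rintro ⟨_, h⟩ p hp hd
    have h1 := h p (Nat.lt_of_mem_primesBelow hp)
    have := ((Nat.prime_of_mem_primesBelow hp).dvd_iff_one_le_factorization (by omega)).1 hd
    omega
  · intro h
    refine ⟨hm, fun p hp => ?_⟩
    by_contra hne
    have hpp : p.Prime := by
      by_contra hnp
      exact hne (Nat.factorization_eq_zero_of_not_prime _ hnp)
    exact h p (Nat.mem_primesBelow.2 ⟨hp, hpp⟩) (Nat.dvd_of_factorization_pos hne)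

lemma rough_dens_exists (K : ℕ) : ∃ ρ, Dens (Rough K) ρ := by
  set L := ∏ p ∈ Nat.primesBelow K, p with hL
  have hLpos : 0 < L := Finset.prod_pos fun p hp => (Nat.prime_of_mem_primesBelow hp).pos
  have h := periodic_dens' {m | ∀ p ∈ Nat.primesBelow K, ¬ p ∣ m} L hLpos (by
    intro n _
    simp only [Set.mem_ofPred_eq]
    refine forall_congr' fun p => imp_congr_right fun hp => ?_
    have hd : p ∣ L := Finset.dvd_prod_of_mem (fun p => p) hp
    rw [Nat.dvd_add_right hd])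
  exact ⟨_, dens_congr (fun n hn => (rough_iff hn).symm) h⟩

lemma rough_dens (K : ℕ) : Dens (Rough K) (P K) := by
  obtain ⟨ρ, hρ⟩ := rough_dens_exists K
  have h1 : Dens (D K (Nat.smoothNumbers K) (Rough K)) (ρ * W (Nat.smoothNumbers K)) :=
    dens_D le_rfl le_rfl hρ
  have h2 : Dens Set.univ (ρ * W (Nat.smoothNumbers K)) := by
    refine dens_congr (fun n hn => ?_) h1
    simp only [D, Set.mem_ofPred_eq, Set.mem_univ, iff_true]
    exact ⟨hn, sm_mem_smooth K n, rg_mem_rough K (by omega)⟩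
  have h3 := dens_unique h2 dens_univ
  have h4 := W_smooth K
  have h5 : ρ = P K := by
    have : ρ * W (Nat.smoothNumbers K) = P K * W (Nat.smoothNumbers K) := by rw [h3, h4]
    have hW : W (Nat.smoothNumbers K) ≠ 0 := by
      intro h0; rw [h0, mul_zero] at h4; norm_num at h4
    exact mul_right_cancel₀ hW this
  rw [← h5]; exact hρ

lemma fr_dens_exists {k : ℕ} (hk : 3 ≤ k) (K : ℕ) : ∃ γ, Dens (Fr k K) γ := by
  apply dens_of_approx
  intro ε hε
  obtain ⟨M, hM⟩ := exists_nat_gt (1 / ε)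
  have hM0 : 0 < M := by
    have : (0 : ℝ) < M := lt_trans (by positivity) hM
    exact_mod_cast this
  set L := (∏ p ∈ Nat.primesBelow K, p) * ∏ p ∈ Nat.primesBelow (M + 1), p ^ (k - 1) with hL
  have hLpos : 0 < L := Nat.mul_pos
    (Finset.prod_pos fun p hp => (Nat.prime_of_mem_primesBelow hp).pos)
    (Finset.prod_pos fun p hp => pow_pos (Nat.prime_of_mem_primesBelow hp).pos _)
  set E : Set ℕ := {m | (∀ p ∈ Nat.primesBelow K, ¬ p ∣ m) ∧
    ∀ p ∈ Nat.primesBelow (M + 1), ¬ p ^ (k - 1) ∣ m} with hE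
  refine ⟨E, _, periodic_dens' E L hLpos ?_, ?_⟩
  · intro n _
    simp only [hE, Set.mem_ofPred_eq]
    refine and_congr (forall_congr' fun p => imp_congr_right fun hp => ?_)
      (forall_congr' fun p => imp_congr_right fun hp => ?_)
    · have hd : p ∣ L := Dvd.dvd.mul_right (Finset.dvd_prod_of_mem (fun p => p) hp) _
      rw [Nat.dvd_add_right hd]
    · have hd : p ^ (k - 1) ∣ L := Dvd.dvd.mul_left
        (Finset.dvd_prod_of_mem (fun p => p ^ (k - 1)) hp) _
      rw [Nat.dvd_add_right hd]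
  · intro N
    have h1 := cnt_sub_le (E := Fr k K) (E' := E) (B := Bad M) (fun n hn hb => by
      have hn0 : n ≠ 0 := by omega
      constructor
      · rintro ⟨hr, hf⟩
        refine ⟨(rough_iff hn).1 hr, fun p hp hd => ?_⟩
        have := ((Nat.prime_of_mem_primesBelow hp).pow_dvd_iff_le_factorization hn0).1 hd
        have := hf p
        omega
      · rintro ⟨hr, hf⟩
        refine ⟨(rough_iff hn).2 hr, fun p => ?_⟩
        by_contra hlt
        push Not at hlt
        have hpp : p.Prime := by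
          by_contra hnp
          rw [Nat.factorization_eq_zero_of_not_prime _ hnp] at hlt
          omega
        by_cases hpM : p < M + 1
        · exact hf p (Nat.mem_primesBelow.2 ⟨hpM, hpp⟩)
            ((hpp.pow_dvd_iff_le_factorization hn0).2 (by omega))
        · exact hb ⟨p, by omega, (hpp.pow_dvd_iff_le_factorization hn0).2 (by omega)⟩) N
    refine h1.trans ?_
    have h2 := cnt_bad (K := M) (by omega) N
    refine h2.trans ?_
    have hMr : (0 : ℝ) < M := by exact_mod_cast hM0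
    rw [div_le_iff₀ hMr]
    rw [div_lt_iff₀ hε] at hM
    have hN : (0 : ℝ) ≤ N := by positivity
    nlinarith

lemma fr_dens_le {k K : ℕ} {γ : ℝ} (hγ : Dens (Fr k K) γ) : γ ≤ P K :=
  dens_le (fun _ _ h => fr_sub k K h) hγ (rough_dens K)

lemma fr_dens_ge {k K : ℕ} (hk : 3 ≤ k) (hK : 2 ≤ K) {γ : ℝ} (hγ : Dens (Fr k K) γ) :
    P K * (1 - 1 / ((K : ℝ) - 1)) ≤ γ := by
  classical
  have hKr : (0 : ℝ) < (K : ℝ) - 1 := by
    have : (2 : ℝ) ≤ K := by exact_mod_cast hK
    linarith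
  -- for each `L`
  have key : ∀ L : ℕ, K ≤ L → P K ≤ γ + (P K * (1 / ((K : ℝ) - 1)) + 1 / L) := by
    intro L hL
    have hcount : ∀ N : ℕ, (cnt (Rough K) N : ℝ) ≤ cnt (Fr k K) N +
        (∑ r ∈ Finset.Ioc (K - 1) L, (cnt (Rough K) (N / r ^ 2) : ℝ) + cnt (Bad L) N) := by
      intro N
      have hsub : Rough K ∩ Set.Icc 1 N ⊆ (Fr k K ∩ Set.Icc 1 N) ∪
          ((⋃ r ∈ Finset.Ioc (K - 1) L, (fun m => r ^ 2 * m) '' (Rough K ∩ Set.Icc 1 (N / r ^ 2))) ∪
            (Bad L ∩ Set.Icc 1 N)) := by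
        rintro n ⟨hn, h1, h2⟩
        by_cases hF : n ∈ Fr k K
        · exact Or.inl ⟨hF, h1, h2⟩
        right
        have : ∃ p, k - 2 < n.factorization p := by
          by_contra hno
          push Not at hno
          exact hF ⟨hn, hno⟩
        obtain ⟨p, hp⟩ := this
        have hpp : p.Prime := by
          by_contra hnp
          rw [Nat.factorization_eq_zero_of_not_prime _ hnp] at hp
          omega
        have hpd : p ^ 2 ∣ n := (hpp.pow_dvd_iff_le_factorization (by omega)).2 (by omega)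
        have hpK : K ≤ p := by
          by_contra hlt
          push Not at hlt
          have := hn.2 p hlt
          omega
        by_cases hpL : p ≤ L
        · left
          obtain ⟨m, hm⟩ := hpd
          have hm0 : m ≠ 0 := by rintro rfl; omega
          simp only [Set.mem_iUnion, Set.mem_image, Finset.mem_Ioc]
          refine ⟨p, ⟨by omega, hpL⟩, m, ⟨⟨by omega, fun q hq => ?_⟩, by omega, ?_⟩, hm.symm⟩
          · have h3 := hn.2 q hq
            rw [hm, Nat.factorization_mul (pow_pos hpp.pos 2).ne' hm0, Finsupp.add_apply] at h3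
            omega
          · rw [Nat.le_div_iff_mul_le (pow_pos hpp.pos 2), mul_comm, ← hm]
            exact h2
        · right
          exact ⟨⟨p, by omega, hpd⟩, h1, h2⟩
      have hfin : ∀ r ∈ Finset.Ioc (K - 1) L,
          ((fun m => r ^ 2 * m) '' (Rough K ∩ Set.Icc 1 (N / r ^ 2))).Finite := fun r _ =>
        ((Set.finite_Icc 1 _).inter_of_right _).image _
      have hfin2 : (⋃ r ∈ Finset.Ioc (K - 1) L,
          (fun m => r ^ 2 * m) '' (Rough K ∩ Set.Icc 1 (N / r ^ 2))).Finite :=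
        Set.Finite.biUnion (Finset.finite_toSet _) hfin
      have h := Set.ncard_le_ncard hsub (((Set.finite_Icc 1 N).inter_of_right _).union
        (hfin2.union ((Set.finite_Icc 1 N).inter_of_right _)))
      have h' : cnt (Rough K) N ≤ cnt (Fr k K) N +
          (∑ r ∈ Finset.Ioc (K - 1) L, cnt (Rough K) (N / r ^ 2) + cnt (Bad L) N) := by
        unfold cnt
        refine h.trans ((Set.ncard_union_le _ _).trans ?_)
        gcongr
        refine (Set.ncard_union_le _ _).trans ?_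
        gcongr
        refine (Finset.set_ncard_biUnion_le _ _).trans (Finset.sum_le_sum fun r _ => ?_)
        exact Set.ncard_image_le ((Set.finite_Icc 1 _).inter_of_right _)
      exact_mod_cast h'
    have hLr : (0 : ℝ) < L := by exact_mod_cast (by omega : 0 < L)
    have hlim : Tendsto (fun N : ℕ => (cnt (Fr k K) N : ℝ) / N +
        (∑ r ∈ Finset.Ioc (K - 1) L, (cnt (Rough K) (N / r ^ 2) : ℝ) / N + 1 / L)) atTop
        (𝓝 (γ + (∑ r ∈ Finset.Ioc (K - 1) L, P K * (1 / ((r ^ 2 : ℕ) : ℝ)) + 1 / L))) := by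
      refine Tendsto.add hγ (Tendsto.add (tendsto_finsetSum _ fun r hr => ?_) tendsto_const_nhds)
      rw [Finset.mem_Ioc] at hr
      exact dens_scale (rough_dens K) (r ^ 2) (pow_pos (by omega) 2)
    have hle : P K ≤ γ + (∑ r ∈ Finset.Ioc (K - 1) L, P K * (1 / ((r ^ 2 : ℕ) : ℝ)) + 1 / L) := by
      refine le_of_tendsto_of_tendsto (rough_dens K) hlim ?_
      filter_upwards [eventually_ge_atTop 1] with N hN
      have hNr : (0 : ℝ) < N := by exact_mod_cast hN
      have h1 := hcount N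
      have h2 := cnt_bad (K := L) (by omega) N
      rw [← Finset.sum_div, div_le_iff₀ hNr]
      have e : ((cnt (Fr k K) N : ℝ) / N +
          ((∑ r ∈ Finset.Ioc (K - 1) L, (cnt (Rough K) (N / r ^ 2) : ℝ)) / N + 1 / L)) * N =
          cnt (Fr k K) N + (∑ r ∈ Finset.Ioc (K - 1) L, (cnt (Rough K) (N / r ^ 2) : ℝ) + N / L) := by
        field_simp
      rw [e]
      linarith
    have hsum : ∑ r ∈ Finset.Ioc (K - 1) L, P K * (1 / ((r ^ 2 : ℕ) : ℝ)) ≤
        P K * (1 / ((K : ℝ) - 1)) := by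
      rw [← Finset.mul_sum]
      apply mul_le_mul_of_nonneg_left _ (P_pos K).le
      have h1 : ∑ i ∈ Finset.Ioc (K - 1) L, ((i : ℝ) ^ 2)⁻¹ ≤ ((K - 1 : ℕ) : ℝ)⁻¹ - (L : ℝ)⁻¹ :=
        sum_Ioc_inv_sq_le_sub (by omega) (by omega)
      have h2 : (0 : ℝ) ≤ (L : ℝ)⁻¹ := by positivity
      have h3 : ((K - 1 : ℕ) : ℝ) = (K : ℝ) - 1 := by
        rw [Nat.cast_sub (by omega)]; simp
      rw [h3] at h1
      have h4 : ∑ r ∈ Finset.Ioc (K - 1) L, (1 / ((r ^ 2 : ℕ) : ℝ)) =
          ∑ i ∈ Finset.Ioc (K - 1) L, ((i : ℝ) ^ 2)⁻¹ :=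
        Finset.sum_congr rfl fun i _ => by push_cast; rw [one_div]
      rw [h4, one_div]
      linarith
    linarith
  have hlim2 : Tendsto (fun L : ℕ => γ + (P K * (1 / ((K : ℝ) - 1)) + 1 / (L : ℝ))) atTop
      (𝓝 (γ + (P K * (1 / ((K : ℝ) - 1)) + 0))) :=
    tendsto_const_nhds.add (tendsto_const_nhds.add tendsto_one_div_atTop_nhds_zero_nat)
  have hfin : P K ≤ γ + (P K * (1 / ((K : ℝ) - 1)) + 0) := by
    apply ge_of_tendsto hlim2
    filter_upwards [eventually_ge_atTop K] with L hL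
    exact key L hL
  linarith

/-- elements of `S` whose index lies in `I` -/
def Sel (S I : Set ℕ) : Set ℕ := {m | m ∈ S ∧ cnt S m ∈ I}

lemma cnt_zero (S : Set ℕ) : cnt S 0 = 0 := by
  have := cnt_le S 0
  omega

lemma cnt_succ_mem {S : Set ℕ} {N : ℕ} (h : N + 1 ∈ S) : cnt S (N + 1) = cnt S N + 1 := by
  have : (cnt S (N + 1) : ℝ) = cnt S N + 1 := by
    rw [cnt_eq_sum, cnt_eq_sum, Finset.sum_Icc_succ_top (by omega), Set.indicator_of_mem h]
  exact_mod_cast this

lemma cnt_succ_not_mem {S : Set ℕ} {N : ℕ} (h : N + 1 ∉ S) : cnt S (N + 1) = cnt S N := by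
  have : (cnt S (N + 1) : ℝ) = cnt S N := by
    rw [cnt_eq_sum, cnt_eq_sum, Finset.sum_Icc_succ_top (by omega), Set.indicator_of_notMem h, add_zero]
  exact_mod_cast this

lemma cnt_sel (S I : Set ℕ) (N : ℕ) : cnt (Sel S I) N = cnt I (cnt S N) := by
  induction N with
  | zero => rw [cnt_zero, cnt_zero, cnt_zero]
  | succ N ih =>
    by_cases hS : N + 1 ∈ S
    · rw [cnt_succ_mem hS]
      by_cases hI : cnt S N + 1 ∈ I
      · rw [cnt_succ_mem hI, ← ih]
        apply cnt_succ_mem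
        exact ⟨hS, by rw [cnt_succ_mem hS]; exact hI⟩
      · rw [cnt_succ_not_mem hI, ← ih]
        apply cnt_succ_not_mem
        rintro ⟨_, h⟩
        rw [cnt_succ_mem hS] at h
        exact hI h
    · rw [cnt_succ_not_mem hS, ← ih]
      apply cnt_succ_not_mem
      rintro ⟨h, _⟩
      exact hS h

lemma dens_sel {S I : Set ℕ} {γ ι : ℝ} (hS : Dens S γ) (hI : Dens I ι) :
    Dens (Sel S I) (ι * γ) := by
  have hb : ∀ ε > 0, ∃ C : ℝ, ∀ n : ℕ, |(cnt I n : ℝ) - ι * n| ≤ ε * n + C := by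
    intro ε hε
    unfold Dens at hI
    rw [Metric.tendsto_atTop] at hI
    obtain ⟨n0, hn0⟩ := hI ε hε
    refine ⟨(1 + |ι|) * n0, fun n => ?_⟩
    rcases lt_or_ge n n0 with h | h
    · have h1 : |(cnt I n : ℝ) - ι * n| ≤ |(cnt I n : ℝ)| + |ι * n| := abs_sub _ _
      have h2 : |(cnt I n : ℝ)| ≤ n := by
        rw [abs_of_nonneg (by positivity)]
        exact_mod_cast cnt_le I n
      have h3 : |ι * n| = |ι| * n := by rw [abs_mul, abs_of_nonneg (by positivity : (0 : ℝ) ≤ n)]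
      have h4 : (n : ℝ) ≤ n0 := by exact_mod_cast h.le
      have h5 : 0 ≤ |ι| := abs_nonneg _
      have h6 : (0 : ℝ) ≤ ε * n := by positivity
      nlinarith
    · rcases Nat.eq_zero_or_pos n with rfl | hn
      · rw [cnt_zero]; simp; positivity
      · have hnr : (0 : ℝ) < n := by exact_mod_cast hn
        have h1 := hn0 n h
        rw [Real.dist_eq] at h1
        have h2 : (cnt I n : ℝ) / n - ι = ((cnt I n : ℝ) - ι * n) / n := by field_simp
        rw [h2, abs_div, abs_of_pos hnr, div_lt_iff₀ hnr] at h1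
        have h3 : 0 ≤ (1 + |ι|) * (n0 : ℝ) := by positivity
        linarith
  unfold Dens
  have h1 : Tendsto (fun N : ℕ => ι * ((cnt S N : ℝ) / N)) atTop (𝓝 (ι * γ)) := hS.const_mul ι
  have h2 : Tendsto (fun N : ℕ => (cnt (Sel S I) N : ℝ) / N - ι * ((cnt S N : ℝ) / N)) atTop (𝓝 0) := by
    rw [Metric.tendsto_atTop]
    intro ε hε
    obtain ⟨C, hC⟩ := hb (ε / 2) (by positivity)
    obtain ⟨N0, hN0⟩ := exists_nat_gt (2 * |C| / ε)
    refine ⟨N0 + 1, fun N hN => ?_⟩
    have hNpos : (0 : ℝ) < N := by exact_mod_cast (by omega : 0 < N)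
    rw [Real.dist_eq, sub_zero, cnt_sel]
    have h3 : (cnt I (cnt S N) : ℝ) / N - ι * ((cnt S N : ℝ) / N) =
        ((cnt I (cnt S N) : ℝ) - ι * cnt S N) / N := by field_simp
    rw [h3, abs_div, abs_of_pos hNpos, div_lt_iff₀ hNpos]
    have h4 := hC (cnt S N)
    have h5 : (cnt S N : ℝ) ≤ N := by exact_mod_cast cnt_le S N
    have h6 : 2 * |C| / ε < N := lt_of_lt_of_le hN0 (by exact_mod_cast (by omega : N0 ≤ N))
    rw [div_lt_iff₀ hε] at h6
    have h7 : C ≤ |C| := le_abs_self C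
    nlinarith
  have := h2.add h1
  simpa using this

end Pool.Agent.H413R3.KG
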