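import Mathlib
import Pool.Agent.H413R3.KGFree

set_option autoImplicit false

open Finset Filter Topology

namespace Pool.Agent.H413R3.KG

open GP (cnt cnt_mono cnt_eq_sum)

/-- positive numbers with `K`-rough part below `M` -/
def Z (K M : ℕ) : Set ℕ := {n | 1 ≤ n ∧ rg K n < M}

lemma dens_small (M : ℕ) {C : Set ℕ} (hC : ∀ n ∈ C, n < M) : Dens C 0 := by
  apply dens_bounded (C := M)
  intro N
  classical
  rw [mul_zero, sub_zero, abs_of_nonneg (by positivity), cnt_eq_card]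
  have : ((Finset.Icc 1 N).filter (· ∈ C)).card ≤ (Finset.range M).card := by
    apply Finset.card_le_card
    intro n hn
    rw [Finset.mem_filter] at hn
    exact Finset.mem_range.2 (hC n hn.2)
  rw [Finset.card_range] at this
  exact_mod_cast this

lemma dens_Z (K M : ℕ) : Dens (Z K M) 0 := by
  have h := dens_D (K := K) (T := Nat.smoothNumbers K) (C := {m | m ∈ Rough K ∧ m < M}) le_rfl
    (fun m h => h.1) (dens_small M (fun n h => h.2))
  rw [zero_mul] at h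
  refine dens_congr (fun n hn => ?_) h
  simp only [D, Z, Set.mem_ofPred_eq]
  constructor
  · rintro ⟨h1, _, _, h2⟩; exact ⟨h1, h2⟩
  · rintro ⟨h1, h2⟩; exact ⟨h1, sm_mem_smooth K n, rg_mem_rough K (by omega), h2⟩

lemma cnt_sub_le' {E E' B : Set ℕ} (N : ℕ)
    (h : ∀ n, 1 ≤ n → n ≤ N → n ∉ B → (n ∈ E ↔ n ∈ E')) :
    |(cnt E N : ℝ) - cnt E' N| ≤ cnt B N := by
  rw [cnt_eq_sum, cnt_eq_sum, cnt_eq_sum, ← Finset.sum_sub_distrib]
  refine (Finset.abs_sum_le_sum_abs _ _).trans (Finset.sum_le_sum fun n hn => ?_)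
  rw [Finset.mem_Icc] at hn
  by_cases hB : n ∈ B
  · rw [Set.indicator_of_mem hB]
    by_cases h1 : n ∈ E <;> by_cases h2 : n ∈ E' <;> simp [h1, h2]
  · have := h n hn.1 hn.2 hB
    rw [Set.indicator_of_notMem hB]
    by_cases h1 : n ∈ E
    · have h2 := this.1 h1
      simp [h1, h2]
    · have h2 : n ∉ E' := fun h2 => h1 (this.2 h2)
      simp [h1, h2]

lemma cnt_union_le (A B : Set ℕ) (N : ℕ) : (cnt (A ∪ B) N : ℝ) ≤ cnt A N + cnt B N := by
  rw [cnt_eq_sum, cnt_eq_sum, cnt_eq_sum, ← Finset.sum_add_distrib]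
  refine Finset.sum_le_sum fun n _ => ?_
  by_cases h1 : n ∈ A <;> by_cases h2 : n ∈ B <;> simp [h1, h2]

lemma dens_event {A : Set ℕ} {a : ℝ} (h : Dens A a) {ε : ℝ} (hε : 0 < ε) :
    ∃ N0 : ℕ, ∀ N ≥ N0, |(cnt A N : ℝ) - a * N| ≤ ε * N := by
  unfold Dens at h
  rw [Metric.tendsto_atTop] at h
  obtain ⟨N0, hN0⟩ := h ε hε
  refine ⟨N0, fun N hN => ?_⟩
  rcases Nat.eq_zero_or_pos N with rfl | hN1
  · rw [cnt_zero]; simp
  · have hNr : (0 : ℝ) < N := by exact_mod_cast hN1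
    have h1 := hN0 N hN
    rw [Real.dist_eq] at h1
    have h2 : (cnt A N : ℝ) / N - a = ((cnt A N : ℝ) - a * N) / N := by field_simp
    rw [h2, abs_div, abs_of_pos hNr, div_lt_iff₀ hNr] at h1
    exact h1.le

/-- in a progression all of whose rough parts are `(k-1)`-power free the rough parts agree -/
lemma rg_const {k : ℕ} (hk : 3 ≤ k) {K : ℕ} {f : ℕ → ℕ} (hpos : ∀ i < k, 1 ≤ f i)
    (hr : ∀ i, i + 2 < k → f (i + 1) ^ 2 = f i * f (i + 2))
    (hfr : ∀ i < k, ∀ p, K ≤ p → (f i).factorization p ≤ k - 2) :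
    ∀ i < k, rg K (f i) = rg K (f 0) := by
  intro i hi
  have hne : ∀ i < k, f i ≠ 0 := fun i hi => by have := hpos i hi; omega
  apply Nat.eq_of_factorization_eq (rg_pos K (hne i hi)).ne' (rg_pos K (hne 0 (by omega))).ne'
  intro p
  rw [fac_rg K p (hne i hi), fac_rg K p (hne 0 (by omega))]
  split_ifs with hp
  · rfl
  · push Not at hp
    exact ap_const (by omega) (v := fun i => (f i).factorization p)
      (fun j hj => fac_rel (hpos j (by omega)) (hpos (j + 2) hj) (hr j hj) p)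
      (fun j hj => hfr j hj p hp) i hi

theorem glue {k : ℕ} (hk : 3 ≤ k) (A : ℕ → Set ℕ) (Kf : ℕ → ℕ) (hKm : Monotone Kf)
    (d e : ℕ → ℝ) (s : ℝ) (hApos : ∀ i, ∀ n ∈ A i, 1 ≤ n) (hAgp : ∀ i, GPF k (A i))
    (hAfr : ∀ i, ∀ n ∈ A i, ∀ p, Kf i ≤ p → n.factorization p ≤ k - 2)
    (hd : ∀ i, Dens (A i) (d i)) (hds : Tendsto d atTop (𝓝 s))
    (B : ℕ → Set ℕ) (hB : ∀ i n, 1 ≤ n → n ∉ B i → (n ∈ A i ↔ n ∈ A (i + 1)))
    (hBd : ∀ i, Dens (B i) (e i)) (hes : Tendsto e atTop (𝓝 0)) :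
    ∃ A' : Set ℕ, (∀ n ∈ A', 1 ≤ n) ∧ GPF k A' ∧ Dens A' s := by
  classical
  have hstep : ∀ i N : ℕ, ∃ N' : ℕ, N < N' ∧ ∀ X : ℕ, N' ≤ X →
      |(cnt (A i) X : ℝ) - d i * X| ≤ (1 / ((i : ℝ) + 1)) * X ∧
      |(cnt (B i) X : ℝ) - e i * X| ≤ (1 / ((i : ℝ) + 1)) * X ∧
      |(cnt (Z (Kf i) N) X : ℝ) - 0 * X| ≤ (1 / ((i : ℝ) + 1)) * X := by
    intro i N
    have hε : (0 : ℝ) < 1 / ((i : ℝ) + 1) := by positivity
    obtain ⟨N1, h1⟩ := dens_event (hd i) hε
    obtain ⟨N2, h2⟩ := dens_event (hBd i) hε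
    obtain ⟨N3, h3⟩ := dens_event (dens_Z (Kf i) N) hε
    refine ⟨N + 1 + N1 + N2 + N3, by omega, fun X hX => ⟨h1 X (by omega), h2 X (by omega),
      h3 X (by omega)⟩⟩
  choose Φ hΦ1 hΦ2 using hstep
  obtain ⟨Nf, hN0, hNs⟩ : ∃ Nf : ℕ → ℕ, Nf 0 = 1 ∧ ∀ i, Nf (i + 1) = Φ i (Nf i) :=
    ⟨fun i => Nat.rec 1 (fun i N => Φ i N) i, rfl, fun i => rfl⟩
  have hNlt : ∀ i, Nf i < Nf (i + 1) := fun i => by rw [hNs]; exact hΦ1 i _
  have hNmono : StrictMono Nf := strictMono_nat_of_lt_succ hNlt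
  have hNgt : ∀ i, i < Nf i := by
    intro i
    induction i with
    | zero => rw [hN0]; omega
    | succ i ih => have := hNlt i; omega
  let lev : ℕ → ℕ := fun n => Nat.findGreatest (fun j => Nf j ≤ rg (Kf j) n) n
  have F1 : ∀ n, 1 ≤ n → Nf (lev n) ≤ rg (Kf (lev n)) n := by
    intro n hn
    exact Nat.findGreatest_spec (P := fun j => Nf j ≤ rg (Kf j) n) (m := 0) (Nat.zero_le n)
      (by show Nf 0 ≤ rg (Kf 0) n; rw [hN0]; exact rg_pos _ (by omega))
  have F2 : ∀ n j, 1 ≤ n → Nf j ≤ rg (Kf j) n → j ≤ lev n := by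
    intro n j hn hj
    have h1 := rg_le (Kf j) (n := n) (by omega)
    have h2 := hNgt j
    exact Nat.le_findGreatest (P := fun j => Nf j ≤ rg (Kf j) n) (by omega) hj
  refine ⟨{n | 1 ≤ n ∧ n ∈ A (lev n)}, fun n hn => hn.1, ?_, ?_⟩
  · -- progression free
    intro f hf hr
    obtain ⟨i0, hi0, hmax⟩ := Finset.exists_max_image (Finset.range k) (fun i => lev (f i))
      ⟨0, Finset.mem_range.2 (by omega)⟩
    rw [Finset.mem_range] at hi0
    set L := lev (f i0) with hL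
    have hpos : ∀ i < k, 1 ≤ f i := fun i hi => (hf i hi).1
    have hfr : ∀ i < k, ∀ p, Kf L ≤ p → (f i).factorization p ≤ k - 2 := by
      intro i hi p hp
      have h1 := hmax i (Finset.mem_range.2 hi)
      exact hAfr _ _ (hf i hi).2 p ((hKm h1).trans hp)
    have hc := rg_const hk hpos hr hfr
    have hlev : ∀ i < k, lev (f i) = L := by
      intro i hi
      apply le_antisymm (hmax i (Finset.mem_range.2 hi))
      apply F2 _ _ (hpos i hi)
      rw [hc i hi, ← hc i0 hi0]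
      exact F1 _ (hpos i0 hi0)
    refine hAgp L f (fun i hi => ?_) hr
    have := (hf i hi).2
    rw [hlev i hi] at this
    exact this
  · -- density
    unfold Dens
    rw [Metric.tendsto_atTop]
    intro ε hε
    have hlim : Tendsto (fun i : ℕ => |d i - s| + (3 * (1 / ((i : ℝ) + 1)) + |e i|)) atTop (𝓝 0) := by
      have h1 : Tendsto (fun i => |d i - s|) atTop (𝓝 0) := by
        have : Tendsto (fun i => d i - s) atTop (𝓝 (s - s)) := hds.sub_const s
        rw [sub_self] at this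
        simpa using this.abs
      have h2 : Tendsto (fun i : ℕ => 3 * (1 / ((i : ℝ) + 1))) atTop (𝓝 (3 * 0)) :=
        tendsto_one_div_add_atTop_nhds_zero_nat.const_mul 3
      have h3 : Tendsto (fun i => |e i|) atTop (𝓝 0) := by simpa using hes.abs
      simpa using h1.add (h2.add h3)
    rw [Metric.tendsto_atTop] at hlim
    obtain ⟨i0, hi0⟩ := hlim ε hε
    refine ⟨Nf (i0 + 1) + 1, fun X hX => ?_⟩
    have hex : ∃ j, X < Nf j := ⟨X, hNgt X⟩
    set j := Nat.find hex with hj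
    have hj1 : X < Nf j := Nat.find_spec hex
    have hj2 : i0 + 2 ≤ j := by
      by_contra hlt
      push Not at hlt
      have : Nf j ≤ Nf (i0 + 1) := hNmono.monotone (by omega)
      omega
    obtain ⟨i, hi⟩ : ∃ i, j = i + 2 := ⟨j - 2, by omega⟩
    have hii : i0 ≤ i := by omega
    have hlow : Nf (i + 1) ≤ X := by
      have := Nat.find_min hex (m := i + 1) (by omega)
      omega
    have hup : X < Nf (i + 2) := by rw [← hi]; exact hj1
    obtain ⟨a1, a2, a3⟩ := hΦ2 i (Nf i) X (by rw [← hNs]; exact hlow)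
    have hXpos : (0 : ℝ) < X := by exact_mod_cast (by omega : 0 < X)
    have hdiff : |(cnt {n | 1 ≤ n ∧ n ∈ A (lev n)} X : ℝ) - cnt (A i) X| ≤
        cnt (B i ∪ Z (Kf i) (Nf i)) X := by
      apply cnt_sub_le'
      intro n hn1 hnX hnB
      have hnB1 : n ∉ B i := fun h => hnB (Or.inl h)
      have hnZ : Nf i ≤ rg (Kf i) n := by
        by_contra hlt
        push Not at hlt
        exact hnB (Or.inr ⟨hn1, hlt⟩)
      have l1 : i ≤ lev n := F2 n i hn1 hnZ
      have l2 : lev n < i + 2 := by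
        by_contra hge
        push Not at hge
        have h1 := hNmono.monotone hge
        have h2 := F1 n hn1
        have h3 := rg_le (Kf (lev n)) (n := n) (by omega)
        omega
      simp only [Set.mem_ofPred_eq]
      rcases (by omega : lev n = i ∨ lev n = i + 1) with h | h
      · rw [h]; tauto
      · rw [h, ← hB i n hn1 hnB1]; tauto
    have hu := cnt_union_le (B i) (Z (Kf i) (Nf i)) X
    rw [Real.dist_eq]
    have e1 : (cnt {n | 1 ≤ n ∧ n ∈ A (lev n)} X : ℝ) / X - s =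
        ((cnt {n | 1 ≤ n ∧ n ∈ A (lev n)} X : ℝ) - s * X) / X := by field_simp
    rw [e1, abs_div, abs_of_pos hXpos, div_lt_iff₀ hXpos]
    have hfin := hi0 i hii
    rw [Real.dist_eq, sub_zero] at hfin
    have hfin' := lt_of_abs_lt hfin
    have e2 : (cnt {n | 1 ≤ n ∧ n ∈ A (lev n)} X : ℝ) - s * X =
        ((cnt {n | 1 ≤ n ∧ n ∈ A (lev n)} X : ℝ) - cnt (A i) X) + ((cnt (A i) X : ℝ) - d i * X) +
          (d i - s) * X := by ring
    rw [e2]
    have t1 := abs_add_le (((cnt {n | 1 ≤ n ∧ n ∈ A (lev n)} X : ℝ) - cnt (A i) X) +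
      ((cnt (A i) X : ℝ) - d i * X)) ((d i - s) * X)
    have t2 := abs_add_le ((cnt {n | 1 ≤ n ∧ n ∈ A (lev n)} X : ℝ) - cnt (A i) X)
      ((cnt (A i) X : ℝ) - d i * X)
    have t3 : |(d i - s) * (X : ℝ)| = |d i - s| * X := by rw [abs_mul, abs_of_pos hXpos]
    have t4 : (cnt (B i) X : ℝ) ≤ (|e i| + 1 / ((i : ℝ) + 1)) * X := by
      have h1 := (abs_le.1 a2).2
      have h2 : e i ≤ |e i| := le_abs_self _
      nlinarith
    have t5 : (cnt (Z (Kf i) (Nf i)) X : ℝ) ≤ (1 / ((i : ℝ) + 1)) * X := by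
      have h1 := (abs_le.1 a3).2
      linarith
    have t6 : (|d i - s| + (3 * (1 / ((i : ℝ) + 1)) + |e i|)) * X < ε * X :=
      mul_lt_mul_of_pos_right hfin' hXpos
    nlinarith

end Pool.Agent.H413R3.KG
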