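import Mathlib
import Pool.Agent.H413R3.KGGlue

set_option autoImplicit false

open Finset Filter Topology

namespace Pool.Agent.H413R3.KG

open GP (cnt cnt_mono cnt_eq_sum)

lemma dens_add {A B C : Set ℕ} {a b : ℝ} (ha : Dens A a) (hb : Dens B b)
    (h : ∀ n, 1 ≤ n → (n ∈ C ↔ n ∈ A ∨ n ∈ B)) (hd : ∀ n, 1 ≤ n → n ∈ A → n ∉ B) :
    Dens C (a + b) := by
  unfold Dens at *
  refine (ha.add hb).congr fun N => ?_
  rw [← add_div]
  congr 1
  rw [cnt_eq_sum, cnt_eq_sum, cnt_eq_sum, ← Finset.sum_add_distrib]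
  refine Finset.sum_congr rfl fun n hn => ?_
  rw [Finset.mem_Icc] at hn
  have h1 := h n hn.1
  by_cases hA : n ∈ A
  · have hB := hd n hn.1 hA
    have hC : n ∈ C := h1.2 (Or.inl hA)
    simp [hA, hB, hC]
  · by_cases hB : n ∈ B
    · have hC : n ∈ C := h1.2 (Or.inr hB)
      simp [hA, hB, hC]
    · have hC : n ∉ C := fun h => (h1.1 h).elim hA hB
      simp [hA, hB, hC]

lemma dens_sdiff {S S' : Set ℕ} {a b : ℝ} (ha : Dens S a) (hb : Dens S' b) (h : S' ⊆ S) :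
    Dens (S \ S') (a - b) := by
  unfold Dens at *
  refine (ha.sub hb).congr fun N => ?_
  rw [← sub_div]
  congr 1
  rw [cnt_eq_sum, cnt_eq_sum, cnt_eq_sum, ← Finset.sum_sub_distrib]
  refine Finset.sum_congr rfl fun n _ => ?_
  by_cases hA : n ∈ S
  · by_cases hB : n ∈ S'
    · simp [hA, hB]
    · simp [hA, hB]
  · have hB : n ∉ S' := fun h' => hA (h h')
    simp [hA, hB]

/-- index classes -/
def Ind (J j : ℕ) : Set ℕ := {i | (i - 1) % J < j}

lemma dens_Ind {J j : ℕ} (hJ : 0 < J) (hj : j ≤ J) : Dens (Ind J j) ((j : ℝ) / J) := by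
  classical
  have h := periodic_dens' (Ind J j) J hJ (by
    intro n hn
    simp only [Ind, Set.mem_ofPred_eq]
    have : (J + n - 1) % J = (n - 1) % J := by
      rw [show J + n - 1 = J + (n - 1) by omega, Nat.add_mod_left]
    rw [this])
  have hc : cnt (Ind J j) J = j := by
    rw [cnt_eq_card]
    have : (Finset.Icc 1 J).filter (· ∈ Ind J j) = Finset.Icc 1 j := by
      ext i
      simp only [Finset.mem_filter, Finset.mem_Icc, Ind, Set.mem_ofPred_eq]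
      constructor
      · rintro ⟨⟨h1, h2⟩, h3⟩
        rw [Nat.mod_eq_of_lt (by omega)] at h3
        omega
      · rintro ⟨h1, h2⟩
        refine ⟨⟨h1, by omega⟩, ?_⟩
        rw [Nat.mod_eq_of_lt (by omega)]
        omega
    rw [this]; simp
  rw [hc] at h
  exact h

/-- base sets -/
def Base (k K : ℕ) (T : Set ℕ) : Set ℕ := D K T (Fr k K)

lemma base_exp {k K : ℕ} {T : Set ℕ} {n : ℕ} (h : n ∈ Base k K T) :
    ∀ p, K ≤ p → n.factorization p ≤ k - 2 := by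
  intro p hp
  have h1 := h.2.2.2 p
  rwa [fac_rg K p (by have := h.1; omega), if_neg (by omega)] at h1

lemma mem_fr_rg {k K n : ℕ} (hn : 1 ≤ n) (h : ∀ p, K ≤ p → n.factorization p ≤ k - 2) :
    rg K n ∈ Fr k K := by
  refine ⟨rg_mem_rough K (by omega), fun p => ?_⟩
  rw [fac_rg K p (by omega)]
  split_ifs with hp
  · omega
  · exact h p (by omega)

lemma sm_rel {K a b c : ℕ} (ha : 1 ≤ a) (hb : 1 ≤ b) (hc : 1 ≤ c) (h : b ^ 2 = a * c) :
    sm K b ^ 2 = sm K a * sm K c := by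
  apply Nat.eq_of_factorization_eq (pow_pos (sm_pos K b) 2).ne'
    (Nat.mul_pos (sm_pos K a) (sm_pos K c)).ne'
  intro p
  rw [Nat.factorization_pow, Nat.factorization_mul (sm_pos K a).ne' (sm_pos K c).ne']
  simp only [Finsupp.smul_apply, Finsupp.add_apply, smul_eq_mul]
  rw [fac_sm, fac_sm, fac_sm]
  have := fac_rel ha hc h p
  split_ifs <;> omega

lemma base_gpf {k K : ℕ} (hk : 3 ≤ k) {T : Set ℕ} (hT : GPF k T) : GPF k (Base k K T) := by
  intro f hf hr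
  have hpos : ∀ i < k, 1 ≤ f i := fun i hi => (hf i hi).1
  have hc := rg_const (K := K) hk hpos hr (fun i hi => base_exp (hf i hi))
  have h1 := hT (fun i => sm K (f i)) (fun i hi => (hf i hi).2.1) (fun i hi =>
    sm_rel (hpos i (by omega)) (hpos (i + 1) (by omega)) (hpos (i + 2) hi) (hr i hi))
  have e0 := sm_mul_rg K (n := f 0) (by have := hpos 0 (by omega); omega)
  have e1 := sm_mul_rg K (n := f 1) (by have := hpos 1 (by omega); omega)
  rw [← e0, ← e1, h1, hc 1 (by omega)]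

/-- interpolation between consecutive base sets -/
def Mix (k K : ℕ) (T T1 : Set ℕ) (j : ℕ) : Set ℕ :=
  {n | (n ∈ Base k (K + 1) T1 ∧ rg (K + 1) n ∈ Sel (Fr k (K + 1)) (Ind (2 * K + 1) j)) ∨
    (n ∈ Base k K T ∧ rg (K + 1) n ∉ Sel (Fr k (K + 1)) (Ind (2 * K + 1) j))}

lemma mix_pos {k K : ℕ} {T T1 : Set ℕ} {j n : ℕ} (h : n ∈ Mix k K T T1 j) : 1 ≤ n := by
  rcases h with h | h
  · exact h.1.1
  · exact h.1.1

lemma mix_exp {k K : ℕ} {T T1 : Set ℕ} {j n : ℕ} (h : n ∈ Mix k K T T1 j) :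
    ∀ p, K + 1 ≤ p → n.factorization p ≤ k - 2 := by
  intro p hp
  rcases h with h | h
  · exact base_exp h.1 p hp
  · exact base_exp h.1 p (by omega)

lemma mix_gpf {k K : ℕ} (hk : 3 ≤ k) {T T1 : Set ℕ} (hT : GPF k T) (hT1 : GPF k T1) (j : ℕ) :
    GPF k (Mix k K T T1 j) := by
  intro f hf hr
  have hpos : ∀ i < k, 1 ≤ f i := fun i hi => mix_pos (hf i hi)
  have hc := rg_const (K := K + 1) hk hpos hr (fun i hi => mix_exp (hf i hi))
  by_cases h0 : rg (K + 1) (f 0) ∈ Sel (Fr k (K + 1)) (Ind (2 * K + 1) j)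
  · refine base_gpf (K := K + 1) hk hT1 f (fun i hi => ?_) hr
    rcases hf i hi with h | h
    · exact h.1
    · exact absurd (by rw [hc i hi]; exact h0) h.2
  · refine base_gpf (K := K) hk hT f (fun i hi => ?_) hr
    rcases hf i hi with h | h
    · exact absurd (by rw [← hc i hi]; exact h.2) h0
    · exact h.1

lemma mix_zero {k K : ℕ} {T T1 : Set ℕ} {n : ℕ} : n ∈ Mix k K T T1 0 ↔ n ∈ Base k K T := by
  have h : ∀ m, m ∉ Sel (Fr k (K + 1)) (Ind (2 * K + 1) 0) := by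
    rintro m ⟨_, h⟩
    simp [Ind] at h
  simp only [Mix, Set.mem_ofPred_eq]
  have := h (rg (K + 1) n)
  tauto

lemma mix_full {k K : ℕ} {T T1 : Set ℕ} {n : ℕ} :
    n ∈ Mix k K T T1 (2 * K + 1) ↔ n ∈ Base k (K + 1) T1 := by
  have h : ∀ m ∈ Fr k (K + 1), m ∈ Sel (Fr k (K + 1)) (Ind (2 * K + 1) (2 * K + 1)) := by
    intro m hm
    exact ⟨hm, Nat.mod_lt _ (by omega)⟩
  simp only [Mix, Set.mem_ofPred_eq]
  constructor
  · rintro (h1 | h1)
    · exact h1.1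
    · exfalso
      apply h1.2
      apply h
      exact mem_fr_rg h1.1.1 (fun p hp => base_exp h1.1 p (by omega))
  · intro h1
    left
    exact ⟨h1, h _ h1.2.2⟩

/-- where consecutive interpolants may differ -/
def Bd (k K j : ℕ) : Set ℕ :=
  D (K + 1) (Nat.smoothNumbers (K + 1))
    (Sel (Fr k (K + 1)) (Ind (2 * K + 1) (j + 1)) \ Sel (Fr k (K + 1)) (Ind (2 * K + 1) j))

lemma sel_mono {S I I' : Set ℕ} (h : I ⊆ I') : Sel S I ⊆ Sel S I' := fun _ hm => ⟨hm.1, h hm.2⟩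

lemma ind_mono {J j : ℕ} : Ind J j ⊆ Ind J (j + 1) := by
  intro i hi
  simp only [Ind, Set.mem_ofPred_eq] at hi ⊢
  omega

lemma mix_step {k K : ℕ} {T T1 : Set ℕ} {j n : ℕ} (hn : 1 ≤ n) (h : n ∉ Bd k K j) :
    n ∈ Mix k K T T1 j ↔ n ∈ Mix k K T T1 (j + 1) := by
  have h1 : rg (K + 1) n ∈ Sel (Fr k (K + 1)) (Ind (2 * K + 1) j) ↔
      rg (K + 1) n ∈ Sel (Fr k (K + 1)) (Ind (2 * K + 1) (j + 1)) := by
    constructor
    · exact fun h => sel_mono ind_mono h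
    · intro h2
      by_contra h3
      exact h ⟨hn, sm_mem_smooth _ n, h2, h3⟩
  simp only [Mix, Set.mem_ofPred_eq, h1]

lemma dens_Bd {k K j : ℕ} {γ : ℝ} (hγ : Dens (Fr k (K + 1)) γ) (hj : j < 2 * K + 1) :
    Dens (Bd k K j) (γ / P (K + 1) * (1 / ((2 * K + 1 : ℕ) : ℝ))) := by
  have h1 := dens_sel hγ (dens_Ind (J := 2 * K + 1) (j := j + 1) (by omega) (by omega))
  have h2 := dens_sel hγ (dens_Ind (J := 2 * K + 1) (j := j) (by omega) (by omega))
  have h3 := dens_sdiff h1 h2 (sel_mono ind_mono)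
  have h4 := dens_D (K := K + 1) (T := Nat.smoothNumbers (K + 1)) le_rfl
    (fun m hm => fr_sub k (K + 1) hm.1.1) h3
  have hP := P_pos (K + 1)
  have hW := W_smooth (K + 1)
  have hW' : W (Nat.smoothNumbers (K + 1)) = 1 / P (K + 1) := by
    rw [eq_div_iff hP.ne']; linarith
  rw [hW'] at h4
  have e : (((j + 1 : ℕ) : ℝ) / ((2 * K + 1 : ℕ) : ℝ) * γ - (j : ℝ) / ((2 * K + 1 : ℕ) : ℝ) * γ) *
      (1 / P (K + 1)) = γ / P (K + 1) * (1 / ((2 * K + 1 : ℕ) : ℝ)) := by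
    push_cast
    field_simp
    ring
  rw [e] at h4
  exact h4

lemma sm_sm (K n : ℕ) : sm K (sm (K + 1) n) = sm K n := by
  apply Nat.eq_of_factorization_eq (sm_pos K _).ne' (sm_pos K _).ne'
  intro p
  rw [fac_sm, fac_sm, fac_sm]
  split_ifs <;> first | rfl | omega

lemma base_iff {k K : ℕ} {T : Set ℕ} {n : ℕ} (hn : 1 ≤ n) :
    n ∈ Base k K T ↔ sm (K + 1) n ∈ Base k K T ∧ rg (K + 1) n ∈ Fr k (K + 1) := by
  constructor
  · intro h
    refine ⟨⟨sm_pos _ _, ?_, ?_⟩, mem_fr_rg hn fun p hp => base_exp h p (by omega)⟩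
    · rw [sm_sm]; exact h.2.1
    · apply mem_fr_rg (sm_pos _ _)
      intro p hp
      rw [fac_sm]
      split_ifs
      · exact base_exp h p hp
      · omega
  · rintro ⟨h1, h2⟩
    refine ⟨hn, ?_, ?_⟩
    · have := h1.2.1
      rwa [sm_sm] at this
    · apply mem_fr_rg hn
      intro p hp
      by_cases hpK : p < K + 1
      · have h3 := base_exp h1 p hp
        rwa [fac_sm, if_pos hpK] at h3
      · have h3 := h2.2 p
        rwa [fac_rg _ _ (by omega), if_neg hpK] at h3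

lemma dens_base {k K : ℕ} {T : Set ℕ} (hT : T ⊆ Nat.smoothNumbers K) {γ : ℝ}
    (hγ : Dens (Fr k K) γ) : Dens (Base k K T) (γ * W T) :=
  dens_D hT (fr_sub k K) hγ

lemma dens_mix {k K : ℕ} {T T1 : Set ℕ} (hT : T ⊆ Nat.smoothNumbers K)
    (hT1 : T1 ⊆ Nat.smoothNumbers (K + 1)) {γ γ1 : ℝ} (hγ : Dens (Fr k K) γ)
    (hγ1 : Dens (Fr k (K + 1)) γ1) {j : ℕ} (hj : j ≤ 2 * K + 1) :
    Dens (Mix k K T T1 j) ((j : ℝ) / ((2 * K + 1 : ℕ) : ℝ) * (γ1 * W T1) +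
      (1 - (j : ℝ) / ((2 * K + 1 : ℕ) : ℝ)) * (γ * W T)) := by
  set ι : ℝ := (j : ℝ) / ((2 * K + 1 : ℕ) : ℝ) with hι
  have h1 := dens_sel hγ1 (dens_Ind (J := 2 * K + 1) (j := j) (by omega) hj)
  have hA := dens_D hT1 (fun m hm => fr_sub k (K + 1) hm.1) h1
  have h2 := dens_sdiff hγ1 h1 (fun m hm => hm.1)
  set T' : Set ℕ := {t | t ∈ Nat.smoothNumbers (K + 1) ∧ t ∈ Base k K T} with hT'
  have hTs : T' ⊆ Nat.smoothNumbers (K + 1) := fun t ht => ht.1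
  have hB := dens_D hTs (fun m hm => fr_sub k (K + 1) hm.1) h2
  have hbase : γ1 * W T' = γ * W T := by
    have h3 := dens_D hTs (fr_sub k (K + 1)) hγ1
    have h4 : Dens (Base k K T) (γ1 * W T') := by
      refine dens_congr (fun n hn => ?_) h3
      rw [base_iff hn]
      simp only [D, hT', Set.mem_ofPred_eq]
      constructor
      · rintro ⟨_, h5, h6⟩; exact ⟨h5.2, h6⟩
      · rintro ⟨h5, h6⟩; exact ⟨hn, ⟨sm_mem_smooth _ _, h5⟩, h6⟩
    exact dens_unique h4 (dens_base hT hγ)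
  have hsum := dens_add (C := Mix k K T T1 j) hA hB (fun n hn => by
    simp only [Mix, D, Set.mem_ofPred_eq, Base]
    constructor
    · rintro (h | h)
      · left; exact ⟨hn, h.1.2.1, h.2⟩
      · right
        have hb := (base_iff (k := k) (T := T) hn).1 h.1
        exact ⟨hn, ⟨sm_mem_smooth _ _, hb.1⟩, hb.2, h.2⟩
    · rintro (h | h)
      · left; exact ⟨⟨hn, h.2.1, h.2.2.1⟩, h.2.2⟩
      · right
        exact ⟨(base_iff (k := k) (T := T) hn).2 ⟨h.2.1.2, h.2.2.1⟩, h.2.2.2⟩)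
    (fun n _ h h' => h'.2.2.2 h.2.2)
  have e : (j : ℝ) / ((2 * K + 1 : ℕ) : ℝ) * γ1 * W T1 +
      (γ1 - (j : ℝ) / ((2 * K + 1 : ℕ) : ℝ) * γ1) * W T' =
      ι * (γ1 * W T1) + (1 - ι) * (γ * W T) := by
    rw [← hbase, hι]; ring
  rw [e] at hsum
  exact hsum

lemma sqrt_cases (i : ℕ) :
    (Nat.sqrt (i + 1) = Nat.sqrt i ∧ i + 1 - Nat.sqrt i ^ 2 = (i - Nat.sqrt i ^ 2) + 1 ∧
      i - Nat.sqrt i ^ 2 < 2 * Nat.sqrt i + 1) ∨
    (Nat.sqrt (i + 1) = Nat.sqrt i + 1 ∧ i - Nat.sqrt i ^ 2 = 2 * Nat.sqrt i ∧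
      i + 1 - (Nat.sqrt i + 1) ^ 2 = 0) := by
  have h1 := Nat.sqrt_le' i
  have h2 := Nat.lt_succ_sqrt' i
  have h3 := Nat.sqrt_le' (i + 1)
  have h4 := Nat.lt_succ_sqrt' (i + 1)
  have h5 : Nat.sqrt i ≤ Nat.sqrt (i + 1) := Nat.sqrt_le_sqrt (by omega)
  have h6 : Nat.sqrt (i + 1) ≤ Nat.sqrt i + 1 := by
    by_contra hlt
    push Not at hlt
    have : (Nat.sqrt i + 2) ^ 2 ≤ Nat.sqrt (i + 1) ^ 2 := Nat.pow_le_pow_left (by omega) 2
    simp only [Nat.succ_eq_add_one] at h2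
    nlinarith
  simp only [Nat.succ_eq_add_one] at h2 h4
  set K := Nat.sqrt i with hK
  have e1 : (K + 1) ^ 2 = K ^ 2 + 2 * K + 1 := by ring
  rcases (by omega : Nat.sqrt (i + 1) = K ∨ Nat.sqrt (i + 1) = K + 1) with h | h
  · left
    rw [h] at h4
    refine ⟨h, by omega, by omega⟩
  · right
    rw [h] at h3
    refine ⟨h, by omega, by omega⟩

lemma sqrt_tendsto : Tendsto Nat.sqrt atTop atTop := by
  apply tendsto_atTop_mono' atTop (f₁ := fun n => Nat.sqrt n) (EventuallyLE.refl _ _)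
  rw [tendsto_atTop]
  intro b
  filter_upwards [eventually_ge_atTop (b * b)] with n hn
  rw [Nat.le_sqrt]
  exact hn

theorem chain {k : ℕ} (hk : 3 ≤ k) (T : ℕ → Set ℕ) (hT : ∀ K, T K ⊆ Nat.smoothNumbers K)
    (hTg : ∀ K, GPF k (T K)) (γ : ℕ → ℝ) (hγ : ∀ K, Dens (Fr k K) (γ K)) {s : ℝ}
    (hs : Tendsto (fun K => γ K * W (T K)) atTop (𝓝 s)) :
    ∃ A' : Set ℕ, (∀ n ∈ A', 1 ≤ n) ∧ GPF k A' ∧ Dens A' s := by
  set dd : ℕ → ℝ := fun K => γ K * W (T K) with hdd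
  let ι : ℕ → ℝ := fun i => ((i - Nat.sqrt i ^ 2 : ℕ) : ℝ) / ((2 * Nat.sqrt i + 1 : ℕ) : ℝ)
  have hj : ∀ i, i - Nat.sqrt i ^ 2 < 2 * Nat.sqrt i + 1 := by
    intro i
    have h2 := Nat.lt_succ_sqrt' i
    simp only [Nat.succ_eq_add_one] at h2
    have e1 : (Nat.sqrt i + 1) ^ 2 = Nat.sqrt i ^ 2 + 2 * Nat.sqrt i + 1 := by ring
    omega
  apply glue hk (fun i => Mix k (Nat.sqrt i) (T (Nat.sqrt i)) (T (Nat.sqrt i + 1))
      (i - Nat.sqrt i ^ 2)) (fun i => Nat.sqrt i + 1)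
    (fun a b h => Nat.add_le_add_right (Nat.sqrt_le_sqrt h) 1)
    (fun i => ι i * dd (Nat.sqrt i + 1) + (1 - ι i) * dd (Nat.sqrt i))
    (fun i => γ (Nat.sqrt i + 1) / P (Nat.sqrt i + 1) * (1 / ((2 * Nat.sqrt i + 1 : ℕ) : ℝ))) s
    (fun i n hn => mix_pos hn) (fun i => mix_gpf hk (hTg _) (hTg _) _)
    (fun i n hn p hp => mix_exp hn p hp)
    (fun i => dens_mix (hT _) (hT _) (hγ _) (hγ _) (hj i).le)
    ?_ (fun i => Bd k (Nat.sqrt i) (i - Nat.sqrt i ^ 2)) ?_ (fun i => dens_Bd (hγ _) (hj i)) ?_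
  · -- convergence of densities
    have h1 : Tendsto (fun i => dd (Nat.sqrt i + 1)) atTop (𝓝 s) :=
      hs.comp ((tendsto_add_atTop_nat 1).comp sqrt_tendsto)
    have h2 : Tendsto (fun i => dd (Nat.sqrt i)) atTop (𝓝 s) := hs.comp sqrt_tendsto
    have hι0 : ∀ i, 0 ≤ ι i := fun i => by positivity
    have hι1 : ∀ i, ι i ≤ 1 := fun i => by
      rw [div_le_one (by positivity)]
      exact_mod_cast (hj i).le
    rw [Metric.tendsto_atTop] at h1 h2 ⊢
    intro ε hε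
    obtain ⟨n1, hn1⟩ := h1 ε hε
    obtain ⟨n2, hn2⟩ := h2 ε hε
    refine ⟨max n1 n2, fun i hi => ?_⟩
    have a1 := hn1 i (le_trans (le_max_left _ _) hi)
    have a2 := hn2 i (le_trans (le_max_right _ _) hi)
    rw [Real.dist_eq] at a1 a2 ⊢
    rw [abs_lt] at a1 a2 ⊢
    have b0 := hι0 i
    have b1 := hι1 i
    rcases eq_or_lt_of_le b0 with h0 | h0
    · rw [← h0]
      constructor <;> linarith [a2.1, a2.2]
    · constructor <;> nlinarith [a1.1, a1.2, a2.1, a2.2]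
  · intro i n hn hB
    rcases sqrt_cases i with ⟨h1, h2, _⟩ | ⟨h1, h2, h3⟩
    · rw [h1, h2]
      exact mix_step hn hB
    · rw [h1, h3, mix_zero, ← mix_full (T := T (Nat.sqrt i)), mix_step hn hB, h2]
  · have hb : ∀ i, |γ (Nat.sqrt i + 1) / P (Nat.sqrt i + 1) * (1 / ((2 * Nat.sqrt i + 1 : ℕ) : ℝ))| ≤
        1 / ((Nat.sqrt i : ℝ) + 1) := by
      intro i
      have h1 := dens_nonneg (hγ (Nat.sqrt i + 1))
      have h2 := fr_dens_le (hγ (Nat.sqrt i + 1))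
      have h3 := P_pos (Nat.sqrt i + 1)
      rw [abs_of_nonneg (by positivity)]
      have h4 : γ (Nat.sqrt i + 1) / P (Nat.sqrt i + 1) ≤ 1 := by rw [div_le_one h3]; exact h2
      have h5 : 1 / ((2 * Nat.sqrt i + 1 : ℕ) : ℝ) ≤ 1 / ((Nat.sqrt i : ℝ) + 1) := by
        apply one_div_le_one_div_of_le (by positivity)
        push_cast
        have : (0 : ℝ) ≤ (Nat.sqrt i : ℝ) := by positivity
        linarith
      calc _ ≤ 1 * (1 / ((Nat.sqrt i : ℝ) + 1)) :=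
            mul_le_mul h4 h5 (by positivity) (by norm_num)
        _ = _ := one_mul _
    have hl : Tendsto (fun i => 1 / ((Nat.sqrt i : ℝ) + 1)) atTop (𝓝 0) :=
      tendsto_one_div_add_atTop_nhds_zero_nat.comp sqrt_tendsto
    exact squeeze_zero_norm (fun i => by rw [Real.norm_eq_abs]; exact hb i) hl

end Pool.Agent.H413R3.KG
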