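import Mathlib
import Pool.Agent.H413R3.KGFree

set_option autoImplicit false

open Finset Filter Topology
open scoped ENNReal

namespace Pool.Agent.H413R3.KG

open GP (cnt cnt_mono cnt_eq_sum)

/-- Dirichlet series of a set -/
noncomputable def S (A : Set ℕ) (σ : ℝ) : ℝ := ∑' n : ℕ, A.indicator (fun n => (n : ℝ) ^ (-σ)) n

lemma S_summable (A : Set ℕ) {σ : ℝ} (hσ : 1 < σ) :
    Summable (fun n : ℕ => A.indicator (fun n => (n : ℝ) ^ (-σ)) n) := by
  have h : Summable (fun n : ℕ => (n : ℝ) ^ (-σ)) := Real.summable_nat_rpow.2 (by linarith)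
  refine Summable.of_nonneg_of_le (fun n => Set.indicator_nonneg (fun _ _ => by positivity) _)
    (fun n => ?_) h
  exact Set.indicator_le_self' (fun _ _ => by positivity) n

lemma S_tendsto {A : Set ℕ} {a : ℝ} (hA : Dens A a) :
    Tendsto (fun σ : ℝ => (σ - 1) * S A σ) (𝓝[>] 1) (𝓝 a) := by
  have h := LSeries_tendsto_sub_mul_nhds_one_of_tendsto_sum_div_and_nonneg
    (fun n => A.indicator (fun _ => (1 : ℝ)) n) (l := a) (by
      refine Tendsto.congr (fun N => ?_) hA
      rw [cnt_eq_sum])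
    (fun n => Set.indicator_nonneg (fun _ _ => by norm_num) _)
  have h2 := (Complex.continuous_re.tendsto _).comp h
  rw [Complex.ofReal_re] at h2
  refine h2.congr' ?_
  filter_upwards [self_mem_nhdsWithin] with σ hσ
  have hσ1 : 1 < σ := hσ
  have e : LSeries (fun n => ((A.indicator (fun _ => (1 : ℝ)) n : ℝ) : ℂ)) (σ : ℂ) = ((S A σ : ℝ) : ℂ) := by
    unfold LSeries S
    rw [Complex.ofReal_tsum]
    congr 1
    funext n
    rw [LSeries.term_def]
    split_ifs with hn
    · subst hn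
      by_cases h0 : (0 : ℕ) ∈ A
      · rw [Set.indicator_of_mem h0]
        rw [Nat.cast_zero, Real.zero_rpow (by linarith)]
        simp
      · rw [Set.indicator_of_notMem h0]; simp
    · by_cases hnA : n ∈ A
      · rw [Set.indicator_of_mem hnA, Set.indicator_of_mem hnA]
        rw [Real.rpow_neg (by positivity), Complex.ofReal_inv,
          Complex.ofReal_cpow (by positivity)]
        simp
      · rw [Set.indicator_of_notMem hnA, Set.indicator_of_notMem hnA]; simp
  simp only [Function.comp]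
  rw [e]
  have : ((σ : ℂ) - 1) * ((S A σ : ℝ) : ℂ) = (((σ - 1) * S A σ : ℝ) : ℂ) := by push_cast; ring
  rw [this, Complex.ofReal_re]

lemma sm_mul_rg' (K n : ℕ) : sm K n * rg K n = n := by
  rcases Nat.eq_zero_or_pos n with rfl | hn
  · simp [rg]
  · exact sm_mul_rg K (by omega)

lemma fibre_bound {k K : ℕ} {A : Set ℕ} (hA : GPF k A) {M : ℝ}
    (hM : ∀ T ⊆ Nat.smoothNumbers K, GPF k T → P K * W T ≤ M) {σ : ℝ} (hσ : 1 < σ) {m : ℕ}
    (hm : 1 ≤ m) :
    ∑' t : ℕ, ENNReal.ofReal ((Nat.smoothNumbers K ∩ {t | t * m ∈ A}).indicator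
      (fun t => (t : ℝ) ^ (-σ)) t) ≤ ENNReal.ofReal (M / P K) := by
  set T : Set ℕ := Nat.smoothNumbers K ∩ {t | t * m ∈ A} with hT
  have hTs : T ⊆ Nat.smoothNumbers K := Set.inter_subset_left
  have hTg : GPF k T := by
    intro f hf hr
    have := hA (fun i => f i * m) (fun i hi => (hf i hi).2) (fun i hi => by
      have := hr i hi
      show (f (i + 1) * m) ^ 2 = f i * m * (f (i + 2) * m)
      calc (f (i + 1) * m) ^ 2 = f (i + 1) ^ 2 * m ^ 2 := by ring
        _ = f i * f (i + 2) * m ^ 2 := by rw [this]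
        _ = f i * m * (f (i + 2) * m) := by ring)
    exact Nat.eq_of_mul_eq_mul_right hm this
  have h1 : ∀ t : ℕ, ENNReal.ofReal (T.indicator (fun t => (t : ℝ) ^ (-σ)) t) ≤
      ENNReal.ofReal (T.indicator (fun t => ((t : ℝ))⁻¹) t) := by
    intro t
    apply ENNReal.ofReal_le_ofReal
    by_cases ht : t ∈ T
    · rw [Set.indicator_of_mem ht, Set.indicator_of_mem ht]
      have ht1 : (1 : ℝ) ≤ t := by
        have := (mem_smooth_iff.1 (hTs ht)).1
        exact_mod_cast Nat.one_le_iff_ne_zero.2 this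
      rw [← Real.rpow_neg_one]
      exact Real.rpow_le_rpow_of_exponent_le ht1 (by linarith)
    · rw [Set.indicator_of_notMem ht, Set.indicator_of_notMem ht]
  refine (ENNReal.tsum_le_tsum h1).trans ?_
  rw [← ENNReal.ofReal_tsum_of_nonneg (fun t => Set.indicator_nonneg (fun _ _ => by positivity) _)
    (summable_of_smooth hTs)]
  apply ENNReal.ofReal_le_ofReal
  rw [le_div_iff₀ (P_pos K), mul_comm]
  exact hM T hTs hTg

lemma S_le {k K : ℕ} {A : Set ℕ} (hApos : ∀ n ∈ A, 1 ≤ n) (hA : GPF k A) {M : ℝ} (hM0 : 0 ≤ M)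
    (hM : ∀ T ⊆ Nat.smoothNumbers K, GPF k T → P K * W T ≤ M) {σ : ℝ} (hσ : 1 < σ) :
    S A σ ≤ S (Rough K) σ * (M / P K) := by
  have hq : 0 ≤ M / P K := div_nonneg hM0 (P_pos K).le
  have hSR : 0 ≤ S (Rough K) σ := tsum_nonneg fun t => Set.indicator_nonneg (fun _ _ => by positivity) _
  rw [← ENNReal.ofReal_le_ofReal_iff (mul_nonneg hSR hq), ENNReal.ofReal_mul hSR]
  unfold S
  rw [ENNReal.ofReal_tsum_of_nonneg (fun t => Set.indicator_nonneg (fun _ _ => by positivity) _)
    (S_summable A hσ), ENNReal.ofReal_tsum_of_nonneg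
    (fun t => Set.indicator_nonneg (fun _ _ => by positivity) _) (S_summable (Rough K) hσ)]
  set H : ℕ × ℕ → ℝ≥0∞ := fun x =>
    ENNReal.ofReal ((Rough K).indicator (fun n => (n : ℝ) ^ (-σ)) x.1) *
      ENNReal.ofReal ((Nat.smoothNumbers K ∩ {t | t * x.1 ∈ A}).indicator
        (fun t => (t : ℝ) ^ (-σ)) x.2) with hH
  have hφ : Function.Injective (fun n : ℕ => (rg K n, sm K n)) := by
    intro a b h
    simp only [Prod.mk.injEq] at h
    rw [← sm_mul_rg' K a, ← sm_mul_rg' K b, h.1, h.2]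
  have h1 : ∀ n : ℕ, ENNReal.ofReal (A.indicator (fun n => (n : ℝ) ^ (-σ)) n) ≤
      H (rg K n, sm K n) := by
    intro n
    by_cases hn : n ∈ A
    · have hn1 := hApos n hn
      rw [Set.indicator_of_mem hn]
      simp only [hH]
      rw [Set.indicator_of_mem (rg_mem_rough K (by omega)), Set.indicator_of_mem
        (show sm K n ∈ Nat.smoothNumbers K ∩ {t | t * rg K n ∈ A} from
          ⟨sm_mem_smooth K n, by rw [Set.mem_ofPred_eq, sm_mul_rg']; exact hn⟩)]
      rw [← ENNReal.ofReal_mul (by positivity), ← Real.mul_rpow (by positivity) (by positivity)]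
      apply ENNReal.ofReal_le_ofReal
      have : (rg K n : ℝ) * (sm K n : ℝ) = n := by
        rw [mul_comm]; exact_mod_cast sm_mul_rg' K n
      rw [this]
    · rw [Set.indicator_of_notMem hn]; simp
  calc ∑' n, ENNReal.ofReal (A.indicator (fun n => (n : ℝ) ^ (-σ)) n)
      ≤ ∑' n, H (rg K n, sm K n) := ENNReal.tsum_le_tsum h1
    _ ≤ ∑' x, H x := ENNReal.tsum_comp_le_tsum_of_injective hφ H
    _ = ∑' m, ∑' t, H (m, t) := ENNReal.tsum_prod'
    _ ≤ ∑' m, ENNReal.ofReal ((Rough K).indicator (fun n => (n : ℝ) ^ (-σ)) m) *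
          ENNReal.ofReal (M / P K) := by
        refine ENNReal.tsum_le_tsum fun m => ?_
        simp only [hH]
        rw [ENNReal.tsum_mul_left]
        by_cases hm : m ∈ Rough K
        · exact mul_le_mul_right (fibre_bound hA hM hσ hm.1) _
        · rw [Set.indicator_of_notMem hm]; simp
    _ = _ := ENNReal.tsum_mul_right

theorem upper {k K : ℕ} {A : Set ℕ} (hApos : ∀ n ∈ A, 1 ≤ n) (hA : GPF k A) {δ : ℝ}
    (hδ : Dens A δ) {M : ℝ} (hM0 : 0 ≤ M)
    (hM : ∀ T ⊆ Nat.smoothNumbers K, GPF k T → P K * W T ≤ M) : δ ≤ M := by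
  have h1 := S_tendsto hδ
  have h2 := (S_tendsto (rough_dens K)).mul_const (M / P K)
  have h3 : P K * (M / P K) = M := mul_div_cancel₀ _ (P_pos K).ne'
  rw [h3] at h2
  refine le_of_tendsto_of_tendsto h1 h2 ?_
  filter_upwards [self_mem_nhdsWithin] with σ hσ
  have hσ1 : (1 : ℝ) < σ := hσ
  have := S_le hApos hA hM0 hM hσ1
  rw [mul_assoc]
  exact mul_le_mul_of_nonneg_left this (by linarith)

end Pool.Agent.H413R3.KG
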