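import Mathlib
import Pool.Agent.H413R3.KGChain
import Pool.Agent.H413R3.KGUpper

set_option autoImplicit false

open Finset Filter Topology

namespace Pool.Agent.H413R3.KG

open GP (cnt cnt_mono cnt_eq_sum)

/-- `(∏_{p < K} p) ^ K` -/
def Q (K : ℕ) : ℕ := (∏ p ∈ Nat.primesBelow K, p) ^ K

lemma Q_ne (K : ℕ) : Q K ≠ 0 :=
  pow_ne_zero _ (Finset.prod_pos fun p hp => (Nat.prime_of_mem_primesBelow hp).pos).ne'

lemma fac_Q {K p : ℕ} (hp : p ∈ Nat.primesBelow K) : (Q K).factorization p = K := by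
  unfold Q
  rw [Nat.factorization_pow, Nat.factorization_prod
    (fun p hp => (Nat.prime_of_mem_primesBelow hp).pos.ne')]
  simp only [Finsupp.smul_apply, smul_eq_mul]
  rw [Finsupp.finsetSum_apply]
  have : ∀ q ∈ Nat.primesBelow K, (Nat.factorization q) p = if q = p then 1 else 0 := by
    intro q hq
    rw [(Nat.prime_of_mem_primesBelow hq).factorization, Finsupp.single_apply]
  rw [Finset.sum_congr rfl this, Finset.sum_ite_eq' _ p, if_pos hp, mul_one]

lemma Q_smooth (K : ℕ) : Q K ∈ Nat.smoothNumbers K := by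
  rw [Nat.mem_smoothNumbers']
  intro p hp hd
  unfold Q at hd
  have h1 := hp.dvd_of_dvd_pow hd
  rw [hp.prime.dvd_finsetProd_iff] at h1
  obtain ⟨q, hq, hpq⟩ := h1
  have := (Nat.prime_dvd_prime_iff_eq hp (Nat.prime_of_mem_primesBelow hq)).1 hpq
  rw [this]
  exact Nat.lt_of_mem_primesBelow hq

lemma div_sub (K : ℕ) : ((Q K).divisors : Set ℕ) ⊆ Nat.smoothNumbers K := by
  intro t ht
  rw [Finset.mem_coe, Nat.mem_divisors] at ht
  exact Nat.mem_smoothNumbers_of_dvd (Q_smooth K) ht.1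

lemma W_finset (T : Finset ℕ) : W (T : Set ℕ) = ∑ t ∈ T, ((t : ℝ))⁻¹ := by
  unfold W
  rw [tsum_eq_sum (s := T)]
  · refine Finset.sum_congr rfl fun t ht => ?_
    rw [Set.indicator_of_mem (by exact_mod_cast ht)]
  · intro t ht
    rw [Set.indicator_of_notMem (by exact_mod_cast ht)]

lemma W_dvd_le {K q : ℕ} (hq : 0 < q) :
    W {t | t ∈ Nat.smoothNumbers K ∧ q ∣ t} ≤ (q : ℝ)⁻¹ * W (Nat.smoothNumbers K) := by
  unfold W
  set U : Set ℕ := {t | t ∈ Nat.smoothNumbers K ∧ q ∣ t} with hU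
  have hinj : Function.Injective (fun u : ℕ => q * u) := fun a b h => Nat.eq_of_mul_eq_mul_left hq h
  have hsupp : Function.support (fun t : ℕ => U.indicator (fun t => ((t : ℝ))⁻¹) t) ⊆
      Set.range (fun u : ℕ => q * u) := by
    intro t ht
    have : t ∈ U := by
      by_contra h
      exact ht (Set.indicator_of_notMem h _)
    obtain ⟨u, hu⟩ := this.2
    exact ⟨u, hu.symm⟩
  rw [← hinj.tsum_eq hsupp, ← tsum_mul_left]
  have hUs : U ⊆ Nat.smoothNumbers K := fun t ht => ht.1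
  refine Summable.tsum_le_tsum (fun u => ?_) ?_ ((hasSum_smooth K).summable.mul_left _)
  · by_cases h : q * u ∈ U
    · have hu : u ∈ Nat.smoothNumbers K := Nat.mem_smoothNumbers_of_dvd h.1 ⟨q, by ring⟩
      rw [Set.indicator_of_mem h, Set.indicator_of_mem hu]
      push_cast
      rw [mul_inv]
    · rw [Set.indicator_of_notMem h]
      exact mul_nonneg (by positivity) (Set.indicator_nonneg (fun _ _ => by positivity) _)
  · exact (summable_of_smooth hUs).comp_injective hinj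

lemma tail_bound (K : ℕ) :
    P K * W (Nat.smoothNumbers K \ ((Q K).divisors : Set ℕ)) ≤ (K : ℝ) / 2 ^ (K + 1) := by
  classical
  set U : ℕ → Set ℕ := fun p => {t | t ∈ Nat.smoothNumbers K ∧ p ^ (K + 1) ∣ t} with hU
  have hUs : ∀ p, U p ⊆ Nat.smoothNumbers K := fun p t ht => ht.1
  have h1 : W (Nat.smoothNumbers K \ ((Q K).divisors : Set ℕ)) ≤
      ∑ p ∈ Nat.primesBelow K, W (U p) := by
    unfold W
    rw [← Summable.tsum_finsetSum (fun p _ => summable_of_smooth (hUs p))]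
    refine Summable.tsum_le_tsum (fun t => ?_) (summable_of_smooth Set.sdiff_subset)
      (summable_sum fun p _ => summable_of_smooth (hUs p))
    by_cases ht : t ∈ Nat.smoothNumbers K \ ((Q K).divisors : Set ℕ)
    · rw [Set.indicator_of_mem ht]
      have ht0 := (mem_smooth_iff.1 ht.1).1
      have : ∃ p ∈ Nat.primesBelow K, K + 1 ≤ t.factorization p := by
        by_contra hno
        push Not at hno
        apply ht.2
        rw [Finset.mem_coe, Nat.mem_divisors]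
        refine ⟨?_, Q_ne K⟩
        rw [← Nat.factorization_le_iff_dvd ht0 (Q_ne K)]
        intro p
        by_cases hp : p ∈ Nat.primesBelow K
        · rw [fac_Q hp]
          have := hno p hp
          omega
        · have : t.factorization p = 0 := by
            by_cases hpp : p.Prime
            · apply (mem_smooth_iff.1 ht.1).2
              by_contra hlt
              push Not at hlt
              exact hp (Nat.mem_primesBelow.2 ⟨hlt, hpp⟩)
            · exact Nat.factorization_eq_zero_of_not_prime _ hpp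
          rw [this]; exact Nat.zero_le _
      obtain ⟨p, hp, hpt⟩ := this
      have hmem : t ∈ U p :=
        ⟨ht.1, ((Nat.prime_of_mem_primesBelow hp).pow_dvd_iff_le_factorization ht0).2 hpt⟩
      calc ((t : ℝ))⁻¹ = (U p).indicator (fun t => ((t : ℝ))⁻¹) t := by
            rw [Set.indicator_of_mem hmem]
        _ ≤ _ := Finset.single_le_sum (f := fun p => (U p).indicator (fun t => ((t : ℝ))⁻¹) t)
            (fun q _ => Set.indicator_nonneg (fun _ _ => by positivity) _) hp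
    · rw [Set.indicator_of_notMem ht]
      exact Finset.sum_nonneg fun q _ => Set.indicator_nonneg (fun _ _ => by positivity) _
  have hP := P_pos K
  calc P K * W (Nat.smoothNumbers K \ ((Q K).divisors : Set ℕ))
      ≤ P K * ∑ p ∈ Nat.primesBelow K, W (U p) := mul_le_mul_of_nonneg_left h1 hP.le
    _ = ∑ p ∈ Nat.primesBelow K, P K * W (U p) := by rw [Finset.mul_sum]
    _ ≤ ∑ p ∈ Nat.primesBelow K, (1 / 2 ^ (K + 1) : ℝ) := by
        refine Finset.sum_le_sum fun p hp => ?_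
        have hp2 := (Nat.prime_of_mem_primesBelow hp).two_le
        have h2 := W_dvd_le (K := K) (q := p ^ (K + 1)) (by positivity)
        have h3 : P K * W (U p) ≤ P K * (((p ^ (K + 1) : ℕ) : ℝ)⁻¹ * W (Nat.smoothNumbers K)) :=
          mul_le_mul_of_nonneg_left h2 hP.le
        have h4 : P K * (((p ^ (K + 1) : ℕ) : ℝ)⁻¹ * W (Nat.smoothNumbers K)) =
            ((p ^ (K + 1) : ℕ) : ℝ)⁻¹ := by
          rw [mul_left_comm, W_smooth, mul_one]
        rw [h4] at h3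
        refine h3.trans ?_
        rw [← one_div]
        apply one_div_le_one_div_of_le (by positivity)
        push_cast
        exact pow_le_pow_left₀ (by norm_num) (by exact_mod_cast hp2) _
    _ = (Nat.primesBelow K).card * (1 / 2 ^ (K + 1) : ℝ) := by
        rw [Finset.sum_const, nsmul_eq_mul]
    _ ≤ (K : ℝ) / 2 ^ (K + 1) := by
        have hc : (Nat.primesBelow K).card ≤ K := by
          unfold Nat.primesBelow
          refine (Finset.card_filter_le _ _).trans ?_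
          simp
        have hc' : ((Nat.primesBelow K).card : ℝ) ≤ K := by exact_mod_cast hc
        rw [mul_one_div]
        gcongr

/-- infinite optimisation value -/
noncomputable def M (k K : ℕ) : ℝ :=
  sSup {x : ℝ | ∃ T : Set ℕ, T ⊆ Nat.smoothNumbers K ∧ GPF k T ∧ x = P K * W T}

/-- finite optimisation value -/
noncomputable def m (k K : ℕ) : ℝ :=
  sSup {x : ℝ | ∃ T : Finset ℕ, T ⊆ (Q K).divisors ∧ ¬ HasGP k (T : Set ℕ) ∧
    x = (∏ p ∈ Nat.primesBelow K, (1 - (p : ℝ)⁻¹)) * ∑ t ∈ T, ((t : ℝ))⁻¹}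

lemma gpf_empty {k : ℕ} (hk : 3 ≤ k) : GPF k ∅ := fun f hf _ => absurd (hf 0 (by omega)) (by simp)

lemma bdd_M (k K : ℕ) : BddAbove {x : ℝ | ∃ T : Set ℕ, T ⊆ Nat.smoothNumbers K ∧ GPF k T ∧
    x = P K * W T} := by
  refine ⟨1, ?_⟩
  rintro x ⟨T, hT, _, rfl⟩
  exact PW_le_one hT

lemma le_M {k K : ℕ} {T : Set ℕ} (hT : T ⊆ Nat.smoothNumbers K) (hg : GPF k T) :
    P K * W T ≤ M k K := le_csSup (bdd_M k K) ⟨T, hT, hg, rfl⟩

lemma M_nonneg {k : ℕ} (hk : 3 ≤ k) (K : ℕ) : 0 ≤ M k K := by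
  refine le_trans ?_ (le_M (k := k) (K := K) (T := ∅) (Set.empty_subset _) (gpf_empty hk))
  exact mul_nonneg (P_pos K).le (W_nonneg _)

lemma M_le_one {k : ℕ} (hk : 3 ≤ k) (K : ℕ) : M k K ≤ 1 := by
  apply csSup_le
  · exact ⟨_, ∅, Set.empty_subset _, gpf_empty hk, rfl⟩
  · rintro x ⟨T, hT, _, rfl⟩
    exact PW_le_one hT

lemma exists_M {k : ℕ} (hk : 3 ≤ k) (K : ℕ) {ε : ℝ} (hε : 0 < ε) :
    ∃ T : Set ℕ, T ⊆ Nat.smoothNumbers K ∧ GPF k T ∧ M k K - ε < P K * W T := by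
  have hne : {x : ℝ | ∃ T : Set ℕ, T ⊆ Nat.smoothNumbers K ∧ GPF k T ∧ x = P K * W T}.Nonempty :=
    ⟨_, ∅, Set.empty_subset _, gpf_empty hk, rfl⟩
  obtain ⟨x, ⟨T, hT, hg, rfl⟩, hx⟩ := exists_lt_of_lt_csSup hne
    (show M k K - ε < sSup _ from by unfold M; linarith)
  exact ⟨T, hT, hg, hx⟩

lemma dens_le_M {k : ℕ} (hk : 3 ≤ k) (K : ℕ) {A : Set ℕ} (hApos : ∀ n ∈ A, 1 ≤ n) (hA : GPF k A)
    {δ : ℝ} (hδ : Dens A δ) : δ ≤ M k K :=
  upper hApos hA hδ (M_nonneg hk K) fun _ hT hg => le_M hT hg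

lemma bdd_m {k : ℕ} (hk : 3 ≤ k) (K : ℕ) : ∀ x ∈ {x : ℝ | ∃ T : Finset ℕ, T ⊆ (Q K).divisors ∧
    ¬ HasGP k (T : Set ℕ) ∧
    x = (∏ p ∈ Nat.primesBelow K, (1 - (p : ℝ)⁻¹)) * ∑ t ∈ T, ((t : ℝ))⁻¹}, x ≤ M k K := by
  rintro x ⟨T, hT, hg, rfl⟩
  have hTs : (T : Set ℕ) ⊆ Nat.smoothNumbers K :=
    (Finset.coe_subset.2 hT).trans (div_sub K)
  have hpos : ∀ n ∈ (T : Set ℕ), 1 ≤ n := fun n hn =>
    Nat.one_le_iff_ne_zero.2 (mem_smooth_iff.1 (hTs hn)).1
  have := le_M (k := k) hTs ((hasGP_iff hk hpos).1 hg)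
  rw [W_finset] at this
  exact this

lemma m_nonempty {k : ℕ} (hk : 3 ≤ k) (K : ℕ) : {x : ℝ | ∃ T : Finset ℕ, T ⊆ (Q K).divisors ∧
    ¬ HasGP k (T : Set ℕ) ∧
    x = (∏ p ∈ Nat.primesBelow K, (1 - (p : ℝ)⁻¹)) * ∑ t ∈ T, ((t : ℝ))⁻¹}.Nonempty := by
  refine ⟨_, ∅, Finset.empty_subset _, ?_, rfl⟩
  rintro ⟨a, r, _, _, h⟩
  obtain ⟨n, hn, _⟩ := h 0 (by omega)
  simp at hn

lemma m_le_M {k : ℕ} (hk : 3 ≤ k) (K : ℕ) : m k K ≤ M k K :=
  csSup_le (m_nonempty hk K) (bdd_m hk K)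

lemma M_le_m {k : ℕ} (hk : 3 ≤ k) (K : ℕ) : M k K ≤ m k K + (K : ℝ) / 2 ^ (K + 1) := by
  classical
  apply csSup_le
  · exact ⟨_, ∅, Set.empty_subset _, gpf_empty hk, rfl⟩
  · rintro x ⟨T, hT, hg, rfl⟩
    set F : Finset ℕ := (Q K).divisors.filter (· ∈ T) with hF
    have hFT : (F : Set ℕ) ⊆ T := by
      intro t ht
      exact (Finset.mem_filter.1 (Finset.mem_coe.1 ht)).2
    have hpos : ∀ n ∈ (F : Set ℕ), 1 ≤ n := fun n hn =>
      Nat.one_le_iff_ne_zero.2 (mem_smooth_iff.1 (hT (hFT hn))).1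
    have h1 : P K * W (F : Set ℕ) ≤ m k K := by
      apply le_csSup ⟨_, bdd_m hk K⟩
      refine ⟨F, Finset.filter_subset _ _, (hasGP_iff hk hpos).2 (gpf_mono hFT hg), ?_⟩
      rw [W_finset]; rfl
    have h2 : W T ≤ W (F : Set ℕ) + W (Nat.smoothNumbers K \ ((Q K).divisors : Set ℕ)) := by
      unfold W
      rw [← (summable_of_smooth (hFT.trans hT)).tsum_add (summable_of_smooth Set.sdiff_subset)]
      refine (summable_of_smooth hT).tsum_le_tsum (fun t => ?_)
        ((summable_of_smooth (hFT.trans hT)).add (summable_of_smooth Set.sdiff_subset))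
      by_cases ht : t ∈ T
      · rw [Set.indicator_of_mem ht]
        by_cases hd : t ∈ (Q K).divisors
        · rw [Set.indicator_of_mem (show t ∈ (F : Set ℕ) from
            Finset.mem_coe.2 (Finset.mem_filter.2 ⟨hd, ht⟩))]
          have : 0 ≤ (Nat.smoothNumbers K \ ((Q K).divisors : Set ℕ)).indicator
            (fun t => ((t : ℝ))⁻¹) t := Set.indicator_nonneg (fun _ _ => by positivity) _
          linarith
        · rw [Set.indicator_of_mem (show t ∈ Nat.smoothNumbers K \ ((Q K).divisors : Set ℕ) from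
            ⟨hT ht, fun h => hd (Finset.mem_coe.1 h)⟩)]
          have : 0 ≤ (F : Set ℕ).indicator
            (fun t => ((t : ℝ))⁻¹) t := Set.indicator_nonneg (fun _ _ => by positivity) _
          linarith
      · rw [Set.indicator_of_notMem ht]
        exact add_nonneg (Set.indicator_nonneg (fun _ _ => by positivity) _)
          (Set.indicator_nonneg (fun _ _ => by positivity) _)
    have h3 := mul_le_mul_of_nonneg_left h2 (P_pos K).le
    have h4 := tail_bound K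
    rw [mul_add] at h3
    linarith

/-- a set of given density -/
lemma exists_dens {ρ : ℝ} (h0 : 0 ≤ ρ) (h1 : ρ ≤ 1) : ∃ I : Set ℕ, Dens I ρ := by
  refine ⟨{i | ⌊((i - 1 : ℕ) : ℝ) * ρ⌋₊ < ⌊(i : ℝ) * ρ⌋₊}, ?_⟩
  have hc : ∀ N : ℕ, cnt {i | ⌊((i - 1 : ℕ) : ℝ) * ρ⌋₊ < ⌊(i : ℝ) * ρ⌋₊} N = ⌊(N : ℝ) * ρ⌋₊ := by
    intro N
    induction N with
    | zero => rw [cnt_zero]; simp
    | succ N ih =>
      have hle : ⌊(N : ℝ) * ρ⌋₊ ≤ ⌊((N + 1 : ℕ) : ℝ) * ρ⌋₊ := by
        apply Nat.floor_mono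
        push_cast
        nlinarith
      have hle2 : ⌊((N + 1 : ℕ) : ℝ) * ρ⌋₊ ≤ ⌊(N : ℝ) * ρ⌋₊ + 1 := by
        rw [← Nat.floor_add_one (by positivity)]
        apply Nat.floor_mono
        push_cast
        nlinarith
      by_cases h : N + 1 ∈ {i : ℕ | ⌊((i - 1 : ℕ) : ℝ) * ρ⌋₊ < ⌊(i : ℝ) * ρ⌋₊}
      · rw [cnt_succ_mem h, ih]
        simp only [Set.mem_ofPred_eq, Nat.add_sub_cancel] at h
        omega
      · rw [cnt_succ_not_mem h, ih]
        simp only [Set.mem_ofPred_eq, Nat.add_sub_cancel] at h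
        omega
  apply dens_bounded (C := 1)
  intro N
  rw [hc]
  have h2 : (⌊(N : ℝ) * ρ⌋₊ : ℝ) ≤ N * ρ := Nat.floor_le (by positivity)
  have h3 : (N : ℝ) * ρ < ⌊(N : ℝ) * ρ⌋₊ + 1 := Nat.lt_floor_add_one _
  rw [abs_le]
  constructor <;> linarith

/-- Main theorem in working form. -/
theorem main {k : ℕ} (hk : 3 ≤ k) : ∃ s : ℝ,
    (∃ A : Set ℕ, (∀ n ∈ A, 1 ≤ n) ∧ GPF k A ∧ Dens A s) ∧
    (∀ (A : Set ℕ) (δ : ℝ), (∀ n ∈ A, 1 ≤ n) → GPF k A → Dens A δ → δ ≤ s) ∧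
    (∀ K : ℕ, 2 ≤ K → m k K - 1 / ((K : ℝ) - 1) ≤ s ∧ s ≤ m k K + (K : ℝ) / 2 ^ (K + 1)) := by
  choose γ hγ using fun K => fr_dens_exists hk K
  choose T hT hTg hTM using fun K : ℕ => exists_M hk K (ε := 1 / ((K : ℝ) + 1)) (by positivity)
  have hbdd : BddBelow (Set.range (M k)) := ⟨0, by rintro _ ⟨K, rfl⟩; exact M_nonneg hk K⟩
  set s : ℝ := ⨅ K, M k K with hs
  have hsM : ∀ K, s ≤ M k K := fun K => ciInf_le hbdd K
  have hs0 : 0 ≤ s := le_ciInf fun K => M_nonneg hk K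
  -- any progression free density is at most `s`
  have hup : ∀ (A : Set ℕ) (δ : ℝ), (∀ n ∈ A, 1 ≤ n) → GPF k A → Dens A δ → δ ≤ s :=
    fun A δ h1 h2 h3 => le_ciInf fun K => dens_le_M hk K h1 h2 h3
  -- product sets
  have hprod : ∀ K, ∀ T' : Set ℕ, T' ⊆ Nat.smoothNumbers K → GPF k T' → γ K * W T' ≤ s :=
    fun K T' h1 h2 => hup (Base k K T') _ (fun n hn => hn.1) (base_gpf hk h2) (dens_base h1 (hγ K))
  have hlow : ∀ K : ℕ, 2 ≤ K → (1 - 1 / ((K : ℝ) - 1)) * M k K ≤ s := by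
    intro K hK
    have hKr : (1 : ℝ) ≤ (K : ℝ) - 1 := by
      have : (2 : ℝ) ≤ K := by exact_mod_cast hK
      linarith
    have hc : 0 ≤ 1 - 1 / ((K : ℝ) - 1) := by
      have : 1 / ((K : ℝ) - 1) ≤ 1 := by rw [div_le_one (by linarith)]; exact hKr
      linarith
    apply le_of_forall_pos_le_add
    intro ε hε
    obtain ⟨T', h1, h2, h3⟩ := exists_M hk K hε
    have h4 := hprod K T' h1 h2
    have h5 := fr_dens_ge hk hK (hγ K)
    have h6 : P K * (1 - 1 / ((K : ℝ) - 1)) * W T' ≤ γ K * W T' :=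
      mul_le_mul_of_nonneg_right h5 (W_nonneg _)
    have h7 : 1 - 1 / ((K : ℝ) - 1) ≤ 1 := by
      have : 0 ≤ 1 / ((K : ℝ) - 1) := by positivity
      linarith
    have h8 : (1 - 1 / ((K : ℝ) - 1)) * (M k K - ε) ≤ (1 - 1 / ((K : ℝ) - 1)) * (P K * W T') :=
      mul_le_mul_of_nonneg_left h3.le hc
    nlinarith
  refine ⟨s, ?_, hup, fun K hK => ⟨?_, (hsM K).trans (M_le_m hk K)⟩⟩
  · apply chain hk T hT hTg γ hγ
    -- convergence
    have hlim : Tendsto (fun K : ℕ => (1 - 1 / ((K : ℝ) - 1)) * (s - 1 / ((K : ℝ) + 1))) atTop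
        (𝓝 ((1 - 0) * (s - 0))) := by
      refine Tendsto.mul (Tendsto.sub tendsto_const_nhds ?_) (Tendsto.sub tendsto_const_nhds
        tendsto_one_div_add_atTop_nhds_zero_nat)
      have : Tendsto (fun K : ℕ => (K : ℝ) - 1) atTop atTop :=
        tendsto_atTop_add_const_right _ (-1) tendsto_natCast_atTop_atTop
      exact tendsto_const_nhds.div_atTop this
    rw [sub_zero, one_mul, sub_zero] at hlim
    refine tendsto_of_tendsto_of_tendsto_of_le_of_le' hlim tendsto_const_nhds ?_ ?_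
    · filter_upwards [eventually_ge_atTop 2] with K hK
      have hKr : (1 : ℝ) ≤ (K : ℝ) - 1 := by
        have : (2 : ℝ) ≤ K := by exact_mod_cast hK
        linarith
      have hc : 0 ≤ 1 - 1 / ((K : ℝ) - 1) := by
        have : 1 / ((K : ℝ) - 1) ≤ 1 := by rw [div_le_one (by linarith)]; exact hKr
        linarith
      have h5 := fr_dens_ge hk hK (hγ K)
      have h6 : P K * (1 - 1 / ((K : ℝ) - 1)) * W (T K) ≤ γ K * W (T K) :=
        mul_le_mul_of_nonneg_right h5 (W_nonneg _)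
      have h7 := hTM K
      have h8 := hsM K
      have h9 : (1 - 1 / ((K : ℝ) - 1)) * (s - 1 / ((K : ℝ) + 1)) ≤
          (1 - 1 / ((K : ℝ) - 1)) * (P K * W (T K)) :=
        mul_le_mul_of_nonneg_left (by linarith) hc
      linarith [h6, h9]
    · filter_upwards with K
      exact hprod K (T K) (hT K) (hTg K)
  · have h1 := hlow K hK
    have h2 := m_le_M hk K
    have h3 := M_le_one hk K
    have hKr : (0 : ℝ) < (K : ℝ) - 1 := by
      have : (2 : ℝ) ≤ K := by exact_mod_cast hK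
      linarith
    have h4 : 1 / ((K : ℝ) - 1) * M k K ≤ 1 / ((K : ℝ) - 1) * 1 :=
      mul_le_mul_of_nonneg_left h3 (by positivity)
    linarith

/-- Full statement. -/
theorem full {k : ℕ} (hk : 3 ≤ k) : ∃ s : ℝ,
    Tendsto (m k) atTop (𝓝 s) ∧
    (∀ K : ℕ, 2 ≤ K → m k K - 1 / ((K : ℝ) - 1) ≤ s ∧ s ≤ m k K + (K : ℝ) / 2 ^ (K + 1)) ∧
    IsGreatest {d : ℝ | ∃ A : Set ℕ, (∀ n ∈ A, 1 ≤ n) ∧ ¬ HasGP k A ∧ Dens A d} s ∧
    (∀ α : ℝ, 0 ≤ α → ((∀ A : Set ℕ, (∀ n ∈ A, 1 ≤ n) → Dens A α → HasGP k A) ↔ s < α)) := by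
  obtain ⟨s, ⟨A, hApos, hAg, hAd⟩, hup, hrate⟩ := main hk
  refine ⟨s, ?_, hrate, ⟨⟨A, hApos, (hasGP_iff hk hApos).2 hAg, hAd⟩, ?_⟩, ?_⟩
  · have hl1 : Tendsto (fun K : ℕ => s - (K : ℝ) / 2 ^ (K + 1)) atTop (𝓝 s) := by
      have h1 : Tendsto (fun K : ℕ => (K : ℝ) / 2 ^ K) atTop (𝓝 0) := by
        have := tendsto_pow_const_div_const_pow_of_one_lt 1 (r := (2 : ℝ)) (by norm_num)
        simpa using this
      have h2 : Tendsto (fun K : ℕ => (K : ℝ) / 2 ^ (K + 1)) atTop (𝓝 0) := by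
        have h3 := h1.mul_const (1 / 2 : ℝ)
        rw [zero_mul] at h3
        refine h3.congr fun K => ?_
        rw [pow_succ]; field_simp
      simpa using h2.const_sub s
    have hl2 : Tendsto (fun K : ℕ => s + 1 / ((K : ℝ) - 1)) atTop (𝓝 s) := by
      have h1 : Tendsto (fun K : ℕ => (K : ℝ) - 1) atTop atTop :=
        tendsto_atTop_add_const_right _ (-1) tendsto_natCast_atTop_atTop
      have h2 : Tendsto (fun K : ℕ => 1 / ((K : ℝ) - 1)) atTop (𝓝 0) :=
        tendsto_const_nhds.div_atTop h1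
      simpa using h2.const_add s
    refine tendsto_of_tendsto_of_tendsto_of_le_of_le' hl1 hl2 ?_ ?_
    · filter_upwards [eventually_ge_atTop 2] with K hK
      linarith [(hrate K hK).2]
    · filter_upwards [eventually_ge_atTop 2] with K hK
      linarith [(hrate K hK).1]
  · rintro d ⟨B, hB1, hB2, hB3⟩
    exact hup B d hB1 ((hasGP_iff hk hB1).1 hB2) hB3
  · intro α hα
    constructor
    · intro h
      by_contra hle
      push Not at hle
      rcases eq_or_lt_of_le (hα.trans hle) with h0 | h0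
      · have hα0 : α = s := by linarith
        have := h A hApos (hα0 ▸ hAd)
        exact (hasGP_iff hk hApos).2 hAg this
      · obtain ⟨I, hI⟩ := exists_dens (ρ := α / s) (by positivity) (by
          rw [div_le_one h0]; exact hle)
        have h1 := dens_sel hAd hI
        rw [div_mul_cancel₀ _ h0.ne'] at h1
        have hsub : Sel A I ⊆ A := fun n hn => hn.1
        have hpos : ∀ n ∈ Sel A I, 1 ≤ n := fun n hn => hApos n hn.1
        exact (hasGP_iff hk hpos).2 (gpf_mono hsub hAg) (h _ hpos h1)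
    · intro hlt B hB hBd
      by_contra hno
      have := hup B α hB ((hasGP_iff hk hB).1 hno) hBd
      linarith

end Pool.Agent.H413R3.KG
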