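import Mathlib
import Pool.Agent.H413R3.KGMain

set_option autoImplicit false

open Finset Filter Topology

namespace Pool.Agent.H413R3.KG

open GP (cnt cnt_mono cnt_eq_sum)

/-- admissible finite sets -/
def Adm (k : ℕ) (Ω : Set ℕ) (x : ℕ) (T : Finset ℕ) : Prop :=
  (T : Set ℕ) ⊆ Ω ∧ (∀ t ∈ T, 1 ≤ t ∧ t ≤ x) ∧ GPF k (T : Set ℕ)

/-- maximal size of a progression free subset of `Ω ∩ [1, x]` -/
noncomputable def g (k : ℕ) (Ω : Set ℕ) (x : ℕ) : ℕ :=
  sSup {c | ∃ T : Finset ℕ, Adm k Ω x T ∧ T.card = c}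

lemma adm_card {k : ℕ} {Ω : Set ℕ} {x : ℕ} {T : Finset ℕ} (h : Adm k Ω x T) : T.card ≤ x := by
  have : T ⊆ Finset.Icc 1 x := fun t ht => Finset.mem_Icc.2 (h.2.1 t ht)
  have := Finset.card_le_card this
  simpa using this

lemma g_bdd (k : ℕ) (Ω : Set ℕ) (x : ℕ) :
    BddAbove {c | ∃ T : Finset ℕ, Adm k Ω x T ∧ T.card = c} := by
  refine ⟨x, ?_⟩
  rintro c ⟨T, h, rfl⟩
  exact adm_card h

lemma le_g {k : ℕ} {Ω : Set ℕ} {x : ℕ} {T : Finset ℕ} (h : Adm k Ω x T) : T.card ≤ g k Ω x :=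
  le_csSup (g_bdd k Ω x) ⟨T, h, rfl⟩

lemma adm_empty {k : ℕ} (hk : 3 ≤ k) (Ω : Set ℕ) (x : ℕ) : Adm k Ω x ∅ := by
  refine ⟨by simp, by simp, ?_⟩
  rw [Finset.coe_empty]
  exact gpf_empty hk

lemma exists_g {k : ℕ} (hk : 3 ≤ k) (Ω : Set ℕ) (x : ℕ) :
    ∃ T : Finset ℕ, Adm k Ω x T ∧ T.card = g k Ω x := by
  have hne : {c | ∃ T : Finset ℕ, Adm k Ω x T ∧ T.card = c}.Nonempty := ⟨_, ∅, adm_empty hk Ω x, rfl⟩
  exact Nat.sSup_mem hne (g_bdd k Ω x)

/-- jumps of `g` -/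
def J (k : ℕ) (Ω : Set ℕ) : Set ℕ := {t | t ∈ Ω ∧ 1 ≤ t ∧ g k Ω (t - 1) < g k Ω t}

lemma J_sub (k : ℕ) (Ω : Set ℕ) : J k Ω ⊆ Ω := fun _ h => h.1

lemma g_zero {k : ℕ} (hk : 3 ≤ k) (Ω : Set ℕ) : g k Ω 0 = 0 := by
  obtain ⟨T, hT, hc⟩ := exists_g hk Ω 0
  have := adm_card hT
  omega

lemma cnt_J {k : ℕ} (hk : 3 ≤ k) (Ω : Set ℕ) (x : ℕ) : cnt (J k Ω) x = g k Ω x := by
  classical
  induction x with
  | zero => rw [cnt_zero, g_zero hk]
  | succ x ih =>
    have hmono : g k Ω x ≤ g k Ω (x + 1) := by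
      obtain ⟨T, hT, hc⟩ := exists_g hk Ω x
      rw [← hc]
      exact le_g ⟨hT.1, fun t ht => ⟨(hT.2.1 t ht).1, by have := (hT.2.1 t ht).2; omega⟩, hT.2.2⟩
    obtain ⟨T, hT, hc⟩ := exists_g hk Ω (x + 1)
    by_cases hJ : x + 1 ∈ J k Ω
    · rw [cnt_succ_mem hJ, ih]
      have h1 : g k Ω (x + 1 - 1) < g k Ω (x + 1) := hJ.2.2
      rw [Nat.add_sub_cancel] at h1
      have h2 : (T.erase (x + 1)).card ≤ g k Ω x := by
        apply le_g
        refine ⟨fun t ht => hT.1 (Finset.mem_coe.2 (Finset.mem_of_mem_erase (Finset.mem_coe.1 ht))),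
          fun t ht => ?_, gpf_mono (Finset.coe_subset.2 (Finset.erase_subset _ _)) hT.2.2⟩
        have h3 := hT.2.1 t (Finset.mem_of_mem_erase ht)
        have h4 := Finset.ne_of_mem_erase ht
        omega
      have h3 := Finset.pred_card_le_card_erase (s := T) (a := x + 1)
      omega
    · rw [cnt_succ_not_mem hJ, ih]
      by_cases hΩ : x + 1 ∈ Ω
      · have : ¬ g k Ω x < g k Ω (x + 1) := fun h => hJ ⟨hΩ, by omega, by
          rw [Nat.add_sub_cancel]; exact h⟩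
        omega
      · have h2 : T.card ≤ g k Ω x := by
          apply le_g
          refine ⟨hT.1, fun t ht => ?_, hT.2.2⟩
          have h3 := hT.2.1 t ht
          have h4 : t ≠ x + 1 := by
            rintro rfl
            exact hΩ (hT.1 (Finset.mem_coe.2 ht))
          omega
        omega

lemma cnt_fib {K : ℕ} {E : Set ℕ} (hE : ∀ n ∈ E, 1 ≤ n) (X : ℕ) [DecidablePred (· ∈ Rough K)] :
    cnt E X = ∑ m ∈ (Finset.Icc 1 X).filter (· ∈ Rough K),
      cnt {t | t ∈ Nat.smoothNumbers K ∧ t * m ∈ E} (X / m) := by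
  classical
  rw [cnt_eq_card]
  rw [Finset.card_eq_sum_card_fiberwise (f := rg K)
    (t := (Finset.Icc 1 X).filter (· ∈ Rough K))]
  · refine Finset.sum_congr rfl fun m hm => ?_
    rw [Finset.mem_filter, Finset.mem_Icc] at hm
    rw [cnt_eq_card]
    have hmpos : 0 < m := by omega
    refine Finset.card_nbij' (fun n => sm K n) (fun t => t * m) ?_ ?_ ?_ ?_
    · intro n hn
      simp only [Finset.coe_filter, Finset.mem_filter, Finset.mem_Icc, Set.mem_ofPred_eq] at hn ⊢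
      obtain ⟨⟨⟨h1, h2⟩, h3⟩, h4⟩ := hn
      have h5 := sm_mul_rg K (n := n) (by omega)
      rw [h4] at h5
      refine ⟨⟨sm_pos K n, ?_⟩, sm_mem_smooth K n, by rw [h5]; exact h3⟩
      rw [Nat.le_div_iff_mul_le hmpos, h5]
      exact h2
    · intro t ht
      simp only [Finset.coe_filter, Finset.mem_filter, Finset.mem_Icc, Set.mem_ofPred_eq] at ht ⊢
      obtain ⟨⟨h1, h2⟩, h3, h4⟩ := ht
      rw [Nat.le_div_iff_mul_le hmpos] at h2
      exact ⟨⟨⟨hE _ h4, h2⟩, h4⟩, rg_mul h3 hm.2⟩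
    · intro n hn
      simp only [Finset.coe_filter, Finset.mem_filter, Finset.mem_Icc, Set.mem_ofPred_eq] at hn
      obtain ⟨⟨⟨h1, h2⟩, h3⟩, h4⟩ := hn
      show sm K n * m = n
      rw [← h4]
      exact sm_mul_rg K (by omega)
    · intro t ht
      simp only [Finset.coe_filter, Finset.mem_Icc, Set.mem_ofPred_eq] at ht
      exact sm_mul ht.2.1 hm.2
  · intro n hn
    simp only [Finset.coe_filter, Finset.mem_Icc, Set.mem_ofPred_eq] at hn ⊢
    exact ⟨⟨rg_pos K (by omega), (rg_le K (by omega)).trans hn.1.2⟩, rg_mem_rough K (by omega)⟩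

lemma gpf_fibre {k : ℕ} {A : Set ℕ} (hA : GPF k A) {m : ℕ} (hm : 1 ≤ m) {T : Set ℕ}
    (hT : ∀ t ∈ T, t * m ∈ A) : GPF k T := by
  intro f hf hr
  have := hA (fun i => f i * m) (fun i hi => hT _ (hf i hi)) (fun i hi => by
    have := hr i hi
    show (f (i + 1) * m) ^ 2 = f i * m * (f (i + 2) * m)
    calc (f (i + 1) * m) ^ 2 = f (i + 1) ^ 2 * m ^ 2 := by ring
      _ = f i * f (i + 2) * m ^ 2 := by rw [this]
      _ = f i * m * (f (i + 2) * m) := by ring)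
  exact Nat.eq_of_mul_eq_mul_right hm this

lemma fibre_D {K : ℕ} {T C : Set ℕ} (hT : T ⊆ Nat.smoothNumbers K) {m : ℕ} (hm : m ∈ Rough K)
    (hmC : m ∈ C) : {t | t ∈ Nat.smoothNumbers K ∧ t * m ∈ D K T C} = T := by
  ext t
  simp only [Set.mem_ofPred_eq, D]
  constructor
  · rintro ⟨h1, _, h2, _⟩
    rwa [sm_mul h1 hm] at h2
  · intro ht
    have h1 := hT ht
    refine ⟨h1, Nat.mul_pos (Nat.pos_of_ne_zero (mem_smooth_iff.1 h1).1) hm.1, ?_, ?_⟩
    · rw [sm_mul h1 hm]; exact ht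
    · rw [rg_mul h1 hm]; exact hmC

lemma fibre_D' {K : ℕ} {T C : Set ℕ} {m : ℕ} (hm : m ∈ Rough K)
    (hmC : m ∉ C) : {t | t ∈ Nat.smoothNumbers K ∧ t * m ∈ D K T C} = ∅ := by
  ext t
  simp only [Set.mem_ofPred_eq, D, Set.mem_empty_iff_false, iff_false]
  rintro ⟨h1, _, _, h2⟩
  rw [rg_mul h1 hm] at h2
  exact hmC h2

lemma D_pos {K : ℕ} {T C : Set ℕ} : ∀ n ∈ D K T C, 1 ≤ n := fun _ h => h.1

/-- counting bound for progression free sets -/
lemma cnt_le_J {k : ℕ} (hk : 3 ≤ k) (K : ℕ) {A : Set ℕ} (hApos : ∀ n ∈ A, 1 ≤ n) (hA : GPF k A)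
    (X : ℕ) : cnt A X ≤ cnt (D K (J k (Nat.smoothNumbers K)) (Rough K)) X := by
  classical
  rw [cnt_fib (K := K) hApos, cnt_fib (K := K) (D_pos (K := K))]
  refine Finset.sum_le_sum fun m hm => ?_
  rw [Finset.mem_filter, Finset.mem_Icc] at hm
  rw [fibre_D (J_sub _ _) hm.2 hm.2, cnt_J hk, cnt_eq_card]
  apply le_g
  refine ⟨?_, ?_, ?_⟩
  · intro t ht
    simp only [Finset.coe_filter, Set.mem_ofPred_eq] at ht
    exact ht.2.1
  · intro t ht
    rw [Finset.mem_filter, Finset.mem_Icc] at ht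
    exact ht.1
  · apply gpf_fibre hA hm.1.1
    intro t ht
    simp only [Finset.coe_filter, Set.mem_ofPred_eq] at ht
    exact ht.2.2

/-- extremal sets on `[1, X]` -/
lemma exists_ext {k : ℕ} (hk : 3 ≤ k) (K X : ℕ) : ∃ A : Set ℕ, (∀ n ∈ A, 1 ≤ n ∧ n ≤ X) ∧
    (∀ n ∈ A, rg K n ∈ Fr k K) ∧ GPF k A ∧
    cnt A X = cnt (D K (J k (Nat.smoothNumbers K)) (Fr k K)) X := by
  classical
  choose T hT hTc using fun x => exists_g hk (Nat.smoothNumbers K) x
  have hTs : ∀ x, ∀ t ∈ T x, t ∈ Nat.smoothNumbers K := fun x t ht =>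
    (hT x).1 (Finset.mem_coe.2 ht)
  set A : Set ℕ := {n | 1 ≤ n ∧ rg K n ∈ Fr k K ∧ sm K n ∈ T (X / rg K n)} with hA
  have hApos : ∀ n ∈ A, 1 ≤ n := fun n hn => hn.1
  refine ⟨A, fun n hn => ⟨hn.1, ?_⟩, fun n hn => hn.2.1, ?_, ?_⟩
  · have h1 := ((hT _).2.1 _ hn.2.2).2
    have h2 := rg_pos K (n := n) (by have := hn.1; omega)
    rw [Nat.le_div_iff_mul_le h2, sm_mul_rg K (by have := hn.1; omega)] at h1
    exact h1
  · intro f hf hr
    have hpos : ∀ i < k, 1 ≤ f i := fun i hi => (hf i hi).1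
    have hc := rg_const (K := K) hk hpos hr (fun i hi p hp => by
      have h1 := (hf i hi).2.1.2 p
      rwa [fac_rg K p (by have := hpos i hi; omega), if_neg (by omega)] at h1)
    have h1 := (hT (X / rg K (f 0))).2.2 (fun i => sm K (f i)) (fun i hi => by
        have h2 := (hf i hi).2.2
        rw [hc i hi] at h2
        exact Finset.mem_coe.2 h2)
      (fun i hi => sm_rel (hpos i (by omega)) (hpos (i + 1) (by omega)) (hpos (i + 2) hi) (hr i hi))
    have e0 := sm_mul_rg K (n := f 0) (by have := hpos 0 (by omega); omega)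
    have e1 := sm_mul_rg K (n := f 1) (by have := hpos 1 (by omega); omega)
    rw [← e0, ← e1, h1, hc 1 (by omega)]
  · rw [cnt_fib (K := K) hApos, cnt_fib (K := K) (D_pos (K := K))]
    refine Finset.sum_congr rfl fun m hm => ?_
    rw [Finset.mem_filter, Finset.mem_Icc] at hm
    by_cases hF : m ∈ Fr k K
    · rw [fibre_D (J_sub _ _) hm.2 hF, cnt_J hk, ← hTc]
      have : {t | t ∈ Nat.smoothNumbers K ∧ t * m ∈ A} = (T (X / m) : Set ℕ) := by
        ext t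
        simp only [Set.mem_ofPred_eq, hA, Finset.mem_coe]
        constructor
        · rintro ⟨h1, _, _, h2⟩
          rwa [sm_mul h1 hm.2, rg_mul h1 hm.2] at h2
        · intro ht
          have h1 := hTs _ t ht
          refine ⟨h1, Nat.mul_pos (Nat.pos_of_ne_zero (mem_smooth_iff.1 h1).1) hm.1.1, ?_, ?_⟩
          · rw [rg_mul h1 hm.2]; exact hF
          · rw [sm_mul h1 hm.2, rg_mul h1 hm.2]; exact ht
      rw [this, cnt_eq_card]
      congr 1
      ext t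
      simp only [Finset.mem_filter, Finset.mem_Icc, Finset.mem_coe]
      constructor
      · rintro ⟨_, h⟩; exact h
      · intro h; exact ⟨(hT _).2.1 t h, h⟩
    · rw [fibre_D' hm.2 hF]
      have : {t | t ∈ Nat.smoothNumbers K ∧ t * m ∈ A} = ∅ := by
        ext t
        simp only [Set.mem_ofPred_eq, hA, Set.mem_empty_iff_false, iff_false]
        rintro ⟨h1, _, h2, _⟩
        rw [rg_mul h1 hm.2] at h2
        exact hF h2
      rw [this]

lemma dens_DJ {k K : ℕ} {Ω C : Set ℕ} (hΩ : Ω ⊆ Nat.smoothNumbers K) (hC : C ⊆ Rough K) {γ : ℝ}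
    (hγ : Dens C γ) : Dens (D K (J k Ω) C) (γ * W (J k Ω)) :=
  dens_D ((J_sub k Ω).trans hΩ) hC hγ

/-- gluing for upper densities -/
theorem glueU {k : ℕ} (hk : 3 ≤ k) (Kf : ℕ → ℕ) (hKm : Monotone Kf) (γ : ℕ → ℝ)
    (hγ : ∀ i, Dens (Fr k (Kf i)) (γ i)) :
    ∃ A : Set ℕ, (∀ n ∈ A, 1 ≤ n) ∧ GPF k A ∧ ∃ X : ℕ → ℕ, StrictMono X ∧
      ∀ i, (γ i * W (J k (Nat.smoothNumbers (Kf i))) - 2 * (1 / ((i : ℝ) + 1))) * X i ≤ cnt A (X i) := by
  classical
  have hstep : ∀ i N : ℕ, ∃ N' : ℕ, N < N' ∧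
      (γ i * W (J k (Nat.smoothNumbers (Kf i))) - 1 / ((i : ℝ) + 1)) * N' ≤
        cnt (D (Kf i) (J k (Nat.smoothNumbers (Kf i))) (Fr k (Kf i))) N' ∧
      (cnt (Z (Kf i) N) N' : ℝ) ≤ (1 / ((i : ℝ) + 1)) * N' := by
    intro i N
    have hε : (0 : ℝ) < 1 / ((i : ℝ) + 1) := by positivity
    obtain ⟨N1, h1⟩ := dens_event (dens_DJ (k := k) le_rfl (fr_sub k (Kf i)) (hγ i)) hε
    obtain ⟨N3, h3⟩ := dens_event (dens_Z (Kf i) N) hε
    refine ⟨N + 1 + N1 + N3, by omega, ?_, ?_⟩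
    · have := (abs_le.1 (h1 (N + 1 + N1 + N3) (by omega))).1
      linarith
    · have := (abs_le.1 (h3 (N + 1 + N1 + N3) (by omega))).2
      linarith
  choose Φ hΦ1 hΦ2 hΦ3 using hstep
  obtain ⟨Nf, hN0, hNs⟩ : ∃ Nf : ℕ → ℕ, Nf 0 = 1 ∧ ∀ i, Nf (i + 1) = Φ i (Nf i) + 1 :=
    ⟨fun i => Nat.rec 1 (fun i N => Φ i N + 1) i, rfl, fun i => rfl⟩
  set X : ℕ → ℕ := fun i => Φ i (Nf i) with hX
  have hNX : ∀ i, Nf i < X i := fun i => hΦ1 i _
  have hXN : ∀ i, Nf (i + 1) = X i + 1 := hNs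
  have hNmono : StrictMono Nf := strictMono_nat_of_lt_succ fun i => by
    have := hNX i; have := hXN i; omega
  have hXmono : StrictMono X := strictMono_nat_of_lt_succ fun i => by
    have := hNX (i + 1); have := hXN i; omega
  choose B hB1 hB2 hB3 hB4 using fun i => exists_ext hk (Kf i) (X i)
  refine ⟨{n | ∃ i, n ∈ B i ∧ Nf i ≤ rg (Kf i) n}, ?_, ?_, X, hXmono, ?_⟩
  · rintro n ⟨i, h, _⟩; exact (hB1 i n h).1
  · intro f hf hr
    have hex : ∀ j, ∃ i, j < k → (f j ∈ B i ∧ Nf i ≤ rg (Kf i) (f j)) := by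
      intro j
      by_cases hj : j < k
      · obtain ⟨i, hi⟩ := hf j hj
        exact ⟨i, fun _ => hi⟩
      · exact ⟨0, fun h => absurd h hj⟩
    choose lev hlev using hex
    obtain ⟨j0, hj0, hmax⟩ := Finset.exists_max_image (Finset.range k) lev
      ⟨0, Finset.mem_range.2 (by omega)⟩
    rw [Finset.mem_range] at hj0
    set L := lev j0 with hL
    have hpos : ∀ i < k, 1 ≤ f i := fun i hi => (hB1 _ _ (hlev i hi).1).1
    have hfr : ∀ i < k, ∀ p, Kf L ≤ p → (f i).factorization p ≤ k - 2 := by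
      intro i hi p hp
      have h1 := hmax i (Finset.mem_range.2 hi)
      have h2 := (hB2 _ _ (hlev i hi).1).2 p
      have h3 : Kf (lev i) ≤ p := (hKm h1).trans hp
      rwa [fac_rg _ p (by have := hpos i hi; omega), if_neg (by omega)] at h2
    have hc := rg_const hk hpos hr hfr
    have hall : ∀ i < k, lev i = L := by
      intro i hi
      apply le_antisymm (hmax i (Finset.mem_range.2 hi))
      by_contra hlt
      push Not at hlt
      have h1 := (hB1 _ _ (hlev i hi).1).2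
      have h2 : Nf (lev i + 1) ≤ Nf L := hNmono.monotone hlt
      have h3 : Nf L ≤ rg (Kf L) (f i) := by
        rw [hc i hi, ← hc j0 hj0]; exact (hlev j0 hj0).2
      have h4 := rg_le (Kf L) (n := f i) (by have := hpos i hi; omega)
      have h5 := hXN (lev i)
      omega
    refine hB3 L f (fun i hi => ?_) hr
    have := (hlev i hi).1
    rw [hall i hi] at this
    exact this
  · intro i
    have h1 : cnt (B i) (X i) ≤ cnt ({n | ∃ i, n ∈ B i ∧ Nf i ≤ rg (Kf i) n} ∪ Z (Kf i) (Nf i)) (X i) := by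
      apply cnt_mono
      intro n hn hnB
      by_cases h : Nf i ≤ rg (Kf i) n
      · left; exact ⟨i, hnB, h⟩
      · right; exact ⟨hn, by omega⟩
    have h2 := cnt_union_le {n | ∃ i, n ∈ B i ∧ Nf i ≤ rg (Kf i) n} (Z (Kf i) (Nf i)) (X i)
    have h3 : (cnt (B i) (X i) : ℝ) ≤
        cnt ({n | ∃ i, n ∈ B i ∧ Nf i ≤ rg (Kf i) n} ∪ Z (Kf i) (Nf i)) (X i) := by exact_mod_cast h1
    have h4 := hΦ2 i (Nf i)
    have h5 := hΦ3 i (Nf i)
    have h6 : (cnt (B i) (X i) : ℝ) = cnt (D (Kf i) (J k (Nat.smoothNumbers (Kf i))) (Fr k (Kf i))) (X i) := by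
      exact_mod_cast hB4 i
    simp only [hX] at *
    linarith

end Pool.Agent.H413R3.KG
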