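import Mathlib
import Pool.Agent.H413R3.KGMain

set_option autoImplicit false

open Filter Topology

namespace Pool.Agent.H413R3.KG

open GP (cnt cnt_mono cnt_eq_sum)

lemma dens_iff_Ico {A : Set ℕ} {d : ℝ} :
    Tendsto (fun n : ℕ => ((A ∩ Set.Ico 1 n).ncard : ℝ) / n) atTop (𝓝 d) ↔ Dens A d := by
  have hdiff : ∀ n : ℕ, 1 ≤ n → |((A ∩ Set.Ico 1 n).ncard : ℝ) / n - (cnt A n : ℝ) / n| ≤ 1 / n := by
    intro n hn
    have hnr : (0 : ℝ) < n := by exact_mod_cast hn
    have h1 : (A ∩ Set.Ico 1 n).ncard ≤ cnt A n := by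
      apply Set.ncard_le_ncard _ ((Set.finite_Icc 1 n).inter_of_right _)
      rintro x ⟨hx, h1, h2⟩
      exact ⟨hx, h1, h2.le⟩
    have h2 : cnt A n ≤ (A ∩ Set.Ico 1 n).ncard + 1 := by
      have hsub : A ∩ Set.Icc 1 n ⊆ insert n (A ∩ Set.Ico 1 n) := by
        rintro x ⟨hx, h1, h2⟩
        rcases eq_or_lt_of_le h2 with h | h
        · left; exact h
        · right; exact ⟨hx, h1, h⟩
      refine (Set.ncard_le_ncard hsub (((Set.finite_Ico 1 n).inter_of_right _).insert _)).trans ?_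
      exact Set.ncard_insert_le _ _
    have h1' : ((A ∩ Set.Ico 1 n).ncard : ℝ) ≤ cnt A n := by exact_mod_cast h1
    have h2' : (cnt A n : ℝ) ≤ (A ∩ Set.Ico 1 n).ncard + 1 := by exact_mod_cast h2
    rw [← sub_div, abs_div, abs_of_pos hnr]
    gcongr
    rw [abs_le]
    constructor <;> linarith
  have hz : Tendsto (fun n : ℕ => ((A ∩ Set.Ico 1 n).ncard : ℝ) / n - (cnt A n : ℝ) / n) atTop
      (𝓝 0) := by
    rw [tendsto_zero_iff_abs_tendsto_zero]
    refine squeeze_zero' (Eventually.of_forall fun n => abs_nonneg _) ?_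
      tendsto_one_div_atTop_nhds_zero_nat
    filter_upwards [eventually_ge_atTop 1] with n hn
    exact hdiff n hn
  unfold Dens
  constructor
  · intro h
    have := h.sub hz
    simpa using this
  · intro h
    have := hz.add h
    simpa using this

/-- `T` has no three-term geometric progression -/
def Free3 (T : Finset ℕ) : Prop := ∀ a ∈ T, ∀ b ∈ T, ∀ c ∈ T, a < b → b ^ 2 ≠ a * c

/-- `T` has no `k`-term geometric progression -/
def FreeK (k : ℕ) (T : Finset ℕ) : Prop :=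
  ∀ a ∈ T, ∀ b ∈ T, a < b → ∃ i ∈ Finset.range k, ∀ c ∈ T, c * a ^ i ≠ a * b ^ i

lemma free3_iff {T : Finset ℕ} (hT : ∀ n ∈ T, 1 ≤ n) : Free3 T ↔ ¬ HasGP 3 (T : Set ℕ) := by
  rw [hasGP_iff le_rfl (fun n hn => hT n (Finset.mem_coe.1 hn))]
  constructor
  · intro h f hf hr
    have e := hr 0 (by norm_num)
    simp only [zero_add] at e
    have m0 : f 0 ∈ T := Finset.mem_coe.1 (hf 0 (by norm_num))
    have m1 : f 1 ∈ T := Finset.mem_coe.1 (hf 1 (by norm_num))
    have m2 : f 2 ∈ T := Finset.mem_coe.1 (hf 2 (by norm_num))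
    by_contra hne
    rcases lt_or_gt_of_ne hne with hlt | hgt
    · exact h _ m0 _ m1 _ m2 hlt e
    · have h2 : f 2 < f 1 := by
        by_contra hge
        push Not at hge
        have p1 := hT _ m1
        nlinarith
      exact h _ m2 _ m1 _ m0 h2 (by rw [e]; ring)
  · intro h a ha b hb c hc hab heq
    have := h (fun i => if i = 0 then a else if i = 1 then b else c) (fun i hi => by
        split_ifs
        · exact ha
        · exact hb
        · exact hc) (fun i hi => by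
        have : i = 0 := by omega
        subst this
        simpa using heq)
    simp at this
    omega

lemma freeK_iff {k : ℕ} (hk : 2 ≤ k) {T : Finset ℕ} (hT : ∀ n ∈ T, 1 ≤ n) :
    FreeK k T ↔ ¬ HasGP k (T : Set ℕ) := by
  constructor
  · rintro h ⟨a, r, ha, hr, hall⟩
    obtain ⟨n0, m0, e0⟩ := hall 0 (by omega)
    obtain ⟨n1, m1, e1⟩ := hall 1 (by omega)
    rw [pow_zero, mul_one] at e0
    rw [pow_one] at e1
    have hlt : n0 < n1 := by
      have : (n0 : ℝ) < n1 := by rw [e0, e1]; nlinarith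
      exact_mod_cast this
    obtain ⟨i, hi, hc⟩ := h n0 (Finset.mem_coe.1 m0) n1 (Finset.mem_coe.1 m1) hlt
    obtain ⟨n, mn, en⟩ := hall i (Finset.mem_range.1 hi)
    apply hc n (Finset.mem_coe.1 mn)
    have : (n : ℝ) * n0 ^ i = n0 * n1 ^ i := by
      rw [en, e0, e1, mul_pow]; ring
    exact_mod_cast this
  · intro h a ha b hb hab
    by_contra hno
    push Not at hno
    apply h
    have ha0 : (0 : ℝ) < a := by exact_mod_cast hT a ha
    refine ⟨a, (b : ℝ) / a, ha0, ?_, fun i hi => ?_⟩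
    · rw [one_lt_div ha0]; exact_mod_cast hab
    · obtain ⟨c, hc, e⟩ := hno i (Finset.mem_range.2 hi)
      refine ⟨c, Finset.mem_coe.2 hc, ?_⟩
      have e' : (c : ℝ) * a ^ i = a * b ^ i := by exact_mod_cast e
      rw [div_pow]
      field_simp
      linarith

lemma m_eq {k : ℕ} (hk : 3 ≤ k) (K : ℕ) (v : ℚ) (Fr : Finset ℕ → Prop)
    (hFr : ∀ T ⊆ (Q K).divisors, (Fr T ↔ ¬ HasGP k (T : Set ℕ)))
    (hmem : ∃ T ⊆ (Q K).divisors, Fr T ∧
      v = (∏ p ∈ Nat.primesBelow K, (1 - 1 / (p : ℚ))) * ∑ t ∈ T, 1 / (t : ℚ))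
    (hmax : ∀ T ⊆ (Q K).divisors, Fr T →
      (∏ p ∈ Nat.primesBelow K, (1 - 1 / (p : ℚ))) * ∑ t ∈ T, 1 / (t : ℚ) ≤ v) :
    (v : ℝ) = m k K := by
  symm
  apply IsGreatest.csSup_eq
  constructor
  · obtain ⟨T, hT, hF, hv⟩ := hmem
    refine ⟨T, hT, (hFr T hT).1 hF, ?_⟩
    rw [hv]
    push_cast
    simp [one_div]
  · rintro x ⟨T, hT, hg, rfl⟩
    have := hmax T hT ((hFr T hT).2 hg)
    have h2 : (((∏ p ∈ Nat.primesBelow K, (1 - 1 / (p : ℚ))) * ∑ t ∈ T, 1 / (t : ℚ) : ℚ) : ℝ) ≤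
        (v : ℝ) := by exact_mod_cast this
    push_cast at h2
    simpa [one_div] using h2

end Pool.Agent.H413R3.KG
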