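import Mathlib
import Pool.Agent.H413R3.KGExt
import Pool.Agent.H413R3.KGOpt

set_option autoImplicit false

open Finset Filter Topology

namespace Pool.Agent.H413R3.KG

open GP (cnt cnt_mono cnt_eq_sum)

/-- upper asymptotic density -/
noncomputable def dU (A : Set ℕ) : ℝ := limsup (fun n : ℕ => (cnt A n : ℝ) / n) atTop

lemma ratio_nonneg (A : Set ℕ) (n : ℕ) : 0 ≤ (cnt A n : ℝ) / n := by positivity

lemma ratio_le_one (A : Set ℕ) (n : ℕ) : (cnt A n : ℝ) / n ≤ 1 := by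
  apply div_le_one_of_le₀ _ (by positivity)
  exact_mod_cast cnt_le A n

lemma bddU (A : Set ℕ) : IsBoundedUnder (· ≤ ·) atTop (fun n : ℕ => (cnt A n : ℝ) / n) :=
  isBoundedUnder_of ⟨1, fun n => ratio_le_one A n⟩

lemma cobddU (A : Set ℕ) : IsCoboundedUnder (· ≤ ·) atTop (fun n : ℕ => (cnt A n : ℝ) / n) :=
  (isBoundedUnder_of ⟨0, fun n => ratio_nonneg A n⟩ :
    IsBoundedUnder (· ≥ ·) atTop (fun n : ℕ => (cnt A n : ℝ) / n)).isCoboundedUnder_le

/-- value of the infinite problem -/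
noncomputable def U (k K : ℕ) : ℝ := P K * W (J k (Nat.smoothNumbers K))

/-- value of the finite problem -/
noncomputable def u (k K : ℕ) : ℝ := P K * W (J k ((Q K).divisors : Set ℕ))

lemma dU_le {k : ℕ} (hk : 3 ≤ k) (K : ℕ) {A : Set ℕ} (hApos : ∀ n ∈ A, 1 ≤ n) (hA : GPF k A) :
    dU A ≤ U k K := by
  have h1 : Dens (D K (J k (Nat.smoothNumbers K)) (Rough K)) (U k K) :=
    dens_DJ le_rfl le_rfl (rough_dens K)
  unfold Dens at h1
  rw [← h1.limsup_eq]
  apply limsup_le_limsup _ (cobddU A) (bddU _)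
  filter_upwards with n
  have : (cnt A n : ℝ) ≤ cnt (D K (J k (Nat.smoothNumbers K)) (Rough K)) n := by
    exact_mod_cast cnt_le_J hk K hApos hA n
  gcongr

lemma le_dU {A : Set ℕ} {L : ℝ} {X : ℕ → ℕ} (hX : StrictMono X)
    (h : ∀ ε > 0, ∀ᶠ i in atTop, (L - ε) * X i ≤ cnt A (X i)) : L ≤ dU A := by
  apply le_of_forall_pos_le_add
  intro ε hε
  have h1 : L - ε ≤ dU A := by
    apply le_limsup_of_frequently_le _ (bddU A)
    rw [frequently_atTop]
    intro n
    obtain ⟨i, hi, hin⟩ := ((h ε hε).and (eventually_ge_atTop (n + 1))).exists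
    have h2 : i ≤ X i := hX.le_apply
    refine ⟨X i, by omega, ?_⟩
    have h3 : (0 : ℝ) < X i := by exact_mod_cast (by omega : 0 < X i)
    rw [le_div_iff₀ h3]
    exact hi
  linarith

lemma g_mono {k : ℕ} (hk : 3 ≤ k) {Ω Ω' : Set ℕ} (h : Ω' ⊆ Ω) (x : ℕ) : g k Ω' x ≤ g k Ω x := by
  obtain ⟨T, hT, hc⟩ := exists_g hk Ω' x
  rw [← hc]
  exact le_g ⟨hT.1.trans h, hT.2.1, hT.2.2⟩

lemma g_le_add {k : ℕ} (hk : 3 ≤ k) (Ω Ω' : Set ℕ) (x : ℕ) :
    g k Ω x ≤ g k Ω' x + cnt (Ω \ Ω') x := by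
  classical
  obtain ⟨T, hT, hc⟩ := exists_g hk Ω x
  rw [← hc, ← Finset.card_filter_add_card_filter_not (s := T) (fun t => t ∈ Ω')]
  apply Nat.add_le_add
  · apply le_g
    refine ⟨fun t ht => ?_, fun t ht => hT.2.1 t (Finset.mem_filter.1 ht).1,
      gpf_mono (Finset.coe_subset.2 (Finset.filter_subset _ _)) hT.2.2⟩
    exact (Finset.mem_filter.1 (Finset.mem_coe.1 ht)).2
  · rw [cnt_eq_card]
    apply Finset.card_le_card
    intro t ht
    rw [Finset.mem_filter] at ht ⊢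
    exact ⟨Finset.mem_Icc.2 (hT.2.1 t ht.1), hT.1 (Finset.mem_coe.2 ht.1), ht.2⟩

lemma u_le_U {k : ℕ} (hk : 3 ≤ k) (K : ℕ) : u k K ≤ U k K := by
  classical
  have h1 : Dens (D K (J k ((Q K).divisors : Set ℕ)) (Rough K)) (u k K) :=
    dens_DJ (div_sub K) le_rfl (rough_dens K)
  have h2 : Dens (D K (J k (Nat.smoothNumbers K)) (Rough K)) (U k K) :=
    dens_DJ le_rfl le_rfl (rough_dens K)
  unfold Dens at h1 h2
  refine le_of_tendsto_of_tendsto' h1 h2 fun X => ?_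
  have : cnt (D K (J k ((Q K).divisors : Set ℕ)) (Rough K)) X ≤
      cnt (D K (J k (Nat.smoothNumbers K)) (Rough K)) X := by
    rw [cnt_fib (K := K) (D_pos (K := K)), cnt_fib (K := K) (D_pos (K := K))]
    refine Finset.sum_le_sum fun m hm => ?_
    rw [Finset.mem_filter, Finset.mem_Icc] at hm
    rw [fibre_D ((J_sub _ _).trans (div_sub K)) hm.2 hm.2, fibre_D (J_sub _ _) hm.2 hm.2,
      cnt_J hk, cnt_J hk]
    exact g_mono hk (div_sub K) _
  have h3 : (cnt (D K (J k ((Q K).divisors : Set ℕ)) (Rough K)) X : ℝ) ≤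
      cnt (D K (J k (Nat.smoothNumbers K)) (Rough K)) X := by exact_mod_cast this
  gcongr

lemma U_le_u {k : ℕ} (hk : 3 ≤ k) (K : ℕ) : U k K ≤ u k K + (K : ℝ) / 2 ^ (K + 1) := by
  classical
  refine le_trans ?_ (add_le_add_right (tail_bound K) (u k K))
  have h1 : Dens (D K (J k ((Q K).divisors : Set ℕ)) (Rough K)) (u k K) :=
    dens_DJ (div_sub K) le_rfl (rough_dens K)
  have h2 : Dens (D K (J k (Nat.smoothNumbers K)) (Rough K)) (U k K) :=
    dens_DJ le_rfl le_rfl (rough_dens K)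
  have h3 : Dens (D K (Nat.smoothNumbers K \ ((Q K).divisors : Set ℕ)) (Rough K))
      (P K * W (Nat.smoothNumbers K \ ((Q K).divisors : Set ℕ))) :=
    dens_D Set.sdiff_subset le_rfl (rough_dens K)
  unfold Dens at h1 h2 h3
  refine le_of_tendsto_of_tendsto' h2 (h1.add h3) fun X => ?_
  have : cnt (D K (J k (Nat.smoothNumbers K)) (Rough K)) X ≤
      cnt (D K (J k ((Q K).divisors : Set ℕ)) (Rough K)) X +
      cnt (D K (Nat.smoothNumbers K \ ((Q K).divisors : Set ℕ)) (Rough K)) X := by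
    rw [cnt_fib (K := K) (D_pos (K := K)), cnt_fib (K := K) (D_pos (K := K)),
      cnt_fib (K := K) (D_pos (K := K)), ← Finset.sum_add_distrib]
    refine Finset.sum_le_sum fun m hm => ?_
    rw [Finset.mem_filter, Finset.mem_Icc] at hm
    rw [fibre_D ((J_sub _ _).trans (div_sub K)) hm.2 hm.2, fibre_D (J_sub _ _) hm.2 hm.2,
      fibre_D Set.sdiff_subset hm.2 hm.2, cnt_J hk, cnt_J hk]
    exact g_le_add hk _ _ _
  have h4 : (cnt (D K (J k (Nat.smoothNumbers K)) (Rough K)) X : ℝ) ≤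
      cnt (D K (J k ((Q K).divisors : Set ℕ)) (Rough K)) X +
      cnt (D K (Nat.smoothNumbers K \ ((Q K).divisors : Set ℕ)) (Rough K)) X := by
    exact_mod_cast this
  rw [← add_div]
  gcongr

lemma U_nonneg (k K : ℕ) : 0 ≤ U k K := mul_nonneg (P_pos K).le (W_nonneg _)

lemma U_le_one (k K : ℕ) : U k K ≤ 1 := PW_le_one (J_sub _ _)

/-- Main theorem for upper densities. -/
theorem mainU {k : ℕ} (hk : 3 ≤ k) : ∃ s : ℝ,
    Tendsto (u k) atTop (𝓝 s) ∧
    (∀ K : ℕ, 2 ≤ K → u k K - 1 / ((K : ℝ) - 1) ≤ s ∧ s ≤ u k K + (K : ℝ) / 2 ^ (K + 1)) ∧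
    (∃ A : Set ℕ, (∀ n ∈ A, 1 ≤ n) ∧ GPF k A ∧ dU A = s) ∧
    (∀ A : Set ℕ, (∀ n ∈ A, 1 ≤ n) → GPF k A → dU A ≤ s) := by
  choose γ hγ using fun K => fr_dens_exists hk K
  have hbdd : BddBelow (Set.range (U k)) := ⟨0, by rintro _ ⟨K, rfl⟩; exact U_nonneg k K⟩
  set s : ℝ := ⨅ K, U k K with hs
  have hsU : ∀ K, s ≤ U k K := fun K => ciInf_le hbdd K
  have hup : ∀ A : Set ℕ, (∀ n ∈ A, 1 ≤ n) → GPF k A → dU A ≤ s :=
    fun A h1 h2 => le_ciInf fun K => dU_le hk K h1 h2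
  have htends : Tendsto (fun i : ℕ => 2 * (1 / ((i : ℝ) + 1))) atTop (𝓝 0) := by
    simpa using tendsto_one_div_add_atTop_nhds_zero_nat.const_mul (2 : ℝ)
  -- constant level
  have hconst : ∀ K, γ K * W (J k (Nat.smoothNumbers K)) ≤ s := by
    intro K
    obtain ⟨A, hApos, hA, X, hX, hc⟩ := glueU hk (fun _ => K) monotone_const (fun _ => γ K)
      (fun _ => hγ K)
    refine le_trans ?_ (hup A hApos hA)
    apply le_dU hX
    intro ε hε
    filter_upwards [htends.eventually (gt_mem_nhds hε)] with i hi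
    have h1 := hc i
    have h2 : (0 : ℝ) ≤ X i := by positivity
    refine le_trans ?_ h1
    apply mul_le_mul_of_nonneg_right _ h2
    linarith
  have hratio : ∀ K : ℕ, 2 ≤ K → (1 - 1 / ((K : ℝ) - 1)) * U k K ≤
      γ K * W (J k (Nat.smoothNumbers K)) := by
    intro K hK
    have h5 := fr_dens_ge hk hK (hγ K)
    have h6 : P K * (1 - 1 / ((K : ℝ) - 1)) * W (J k (Nat.smoothNumbers K)) ≤
        γ K * W (J k (Nat.smoothNumbers K)) := mul_le_mul_of_nonneg_right h5 (W_nonneg _)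
    unfold U
    linarith
  have hrate : ∀ K : ℕ, 2 ≤ K → u k K - 1 / ((K : ℝ) - 1) ≤ s ∧ s ≤ u k K + (K : ℝ) / 2 ^ (K + 1) := by
    intro K hK
    refine ⟨?_, (hsU K).trans (U_le_u hk K)⟩
    have h1 := hratio K hK
    have h2 := hconst K
    have h3 := u_le_U hk K
    have h4 := U_le_one k K
    have hKr : (0 : ℝ) < (K : ℝ) - 1 := by
      have : (2 : ℝ) ≤ K := by exact_mod_cast hK
      linarith
    have h5 : 1 / ((K : ℝ) - 1) * U k K ≤ 1 / ((K : ℝ) - 1) * 1 :=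
      mul_le_mul_of_nonneg_left h4 (by positivity)
    linarith
  have hinv : Tendsto (fun K : ℕ => 1 / ((K : ℝ) - 1)) atTop (𝓝 0) := by
    have h1 : Tendsto (fun K : ℕ => (K : ℝ) - 1) atTop atTop :=
      tendsto_atTop_add_const_right _ (-1) tendsto_natCast_atTop_atTop
    exact tendsto_const_nhds.div_atTop h1
  refine ⟨s, ?_, hrate, ?_, hup⟩
  · have hl1 : Tendsto (fun K : ℕ => s - (K : ℝ) / 2 ^ (K + 1)) atTop (𝓝 s) := by
      have h1 : Tendsto (fun K : ℕ => (K : ℝ) / 2 ^ K) atTop (𝓝 0) := by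
        have := tendsto_pow_const_div_const_pow_of_one_lt 1 (r := (2 : ℝ)) (by norm_num)
        simpa using this
      have h2 : Tendsto (fun K : ℕ => (K : ℝ) / 2 ^ (K + 1)) atTop (𝓝 0) := by
        have h3 := h1.mul_const (1 / 2 : ℝ)
        rw [zero_mul] at h3
        refine h3.congr fun K => ?_
        rw [pow_succ]; field_simp
      simpa using h2.const_sub s
    have hl2 : Tendsto (fun K : ℕ => s + 1 / ((K : ℝ) - 1)) atTop (𝓝 s) := by
      simpa using hinv.const_add s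
    refine tendsto_of_tendsto_of_tendsto_of_le_of_le' hl1 hl2 ?_ ?_
    · filter_upwards [eventually_ge_atTop 2] with K hK
      linarith [(hrate K hK).2]
    · filter_upwards [eventually_ge_atTop 2] with K hK
      linarith [(hrate K hK).1]
  · obtain ⟨A, hApos, hA, X, hX, hc⟩ := glueU hk (fun i => i) monotone_id γ hγ
    refine ⟨A, hApos, hA, le_antisymm (hup A hApos hA) ?_⟩
    apply le_dU hX
    intro ε hε
    have hs1 : s ≤ 1 := (hsU 0).trans (U_le_one k 0)
    filter_upwards [htends.eventually (gt_mem_nhds (half_pos hε)),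
      hinv.eventually (gt_mem_nhds (half_pos hε)), eventually_ge_atTop 2] with i hi hi2 hi3
    have h1 := hc i
    have h2 : (0 : ℝ) ≤ X i := by positivity
    refine le_trans ?_ h1
    apply mul_le_mul_of_nonneg_right _ h2
    have h3 := hratio i hi3
    have h4 := hsU i
    have h5 := U_le_one k i
    have hKr : (0 : ℝ) < (i : ℝ) - 1 := by
      have : (2 : ℝ) ≤ i := by exact_mod_cast hi3
      linarith
    have h6 : 1 / ((i : ℝ) - 1) * U k i ≤ 1 / ((i : ℝ) - 1) * 1 :=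
      mul_le_mul_of_nonneg_left h5 (by positivity)
    linarith

end Pool.Agent.H413R3.KG
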