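import Mathlib
import Pool.Agent.H413R3.Final

set_option autoImplicit false

open MeasureTheory Set Filter Topology MvPolynomial

namespace Pool.Agent.H413R3

variable {n : ℕ}

/-- In every dimension `n ≥ 1` the `L¹` norm over the sphere of a holomorphic polynomial with
real value at `0` is not controlled by the `L¹` norm of its real part. -/
theorem ratio_unbounded (hn : 1 ≤ n) (M : ℝ) : ∃ p : MvPolynomial (Fin n) ℂ,
    (constantCoeff p).im = 0 ∧
      M * ∫ z, |(eval (rad z) p).re| ∂(mu n) < ∫ z, ‖eval (rad z) p‖ ∂(mu n) := by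
  set V : ℝ := (mu n).real univ with hV
  have hVpos : 0 < V := mu_pos
  obtain ⟨r, hr0, hr1, J, hR, hτ⟩ := params (15 * |M| + 1)
  obtain ⟨φ, hφ0, hφ1, hφ2⟩ := approx_inner' hn (V / (4 * (J + 1) ^ 3)) (by positivity)
  set η : ℝ := V / (4 * (J + 1) ^ 3) with hη
  have hη0 : 0 < η := by positivity
  set ψ : MvPolynomial (Fin n) ℂ := C (r : ℂ) * φ with hψ
  set P : MvPolynomial (Fin n) ℂ := 1 + C 2 * ∑ j ∈ Finset.range J, ψ ^ (j + 1) with hP
  set Q : MvPolynomial (Fin n) ℂ := ∑ k ∈ Finset.range J, C (1 / ((k : ℂ) + 1)) * ψ ^ (k + 1)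
    with hQ
  have hψ0 : eval 0 ψ = 0 := by rw [hψ, map_mul, hφ0, mul_zero]
  have hPe : ∀ z, eval z P = 1 + 2 * ∑ j ∈ Finset.range J, (eval z ψ) ^ (j + 1) := by
    intro z
    simp only [hP, map_add, map_one, map_mul, eval_C, map_sum, map_pow]
  have hQe : ∀ z, eval z Q = ∑ k ∈ Finset.range J, (eval z ψ) ^ (k + 1) / ((k : ℂ) + 1) := by
    intro z
    simp only [hQ, map_sum, map_mul, eval_C, map_pow]
    exact Finset.sum_congr rfl fun k _ => by ring
  have hP0 : eval 0 P = 1 := by
    rw [hPe, hψ0]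
    simp
  have hQ0 : eval 0 Q = 0 := by
    rw [hQe, hψ0]
    simp
  have hψn : ∀ z ∈ Sph n, ‖eval z ψ‖ ≤ r := by
    intro z hz
    rw [hψ, map_mul, eval_C, norm_mul, Complex.norm_real, Real.norm_of_nonneg hr0.le]
    have := (hφ1 z hz).le
    nlinarith
  refine ⟨P, ?_, ?_⟩
  · have : constantCoeff P = 1 := by rw [← MvPolynomial.eval_zero]; exact hP0
    rw [this]
    simp
  -- upper bound for the real part
  have hPcont : Continuous fun z : Fin n → ℂ => eval z P := MvPolynomial.continuous_eval P
  have hQcont : Continuous fun z : Fin n → ℂ => eval z Q := MvPolynomial.continuous_eval Q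
  have hψcont : Continuous fun z : Fin n → ℂ => eval z ψ := MvPolynomial.continuous_eval ψ
  have hφcont : Continuous fun z : Fin n → ℂ => eval z φ := MvPolynomial.continuous_eval φ
  have hreint : Integrable (fun z => (eval (rad z) P).re) (mu n) :=
    integrable_rad (g := fun z => (eval z P).re) (by fun_prop)
  have ha : ∫ z, |(eval (rad z) P).re| ∂(mu n) ≤ 5 * V := by
    calc ∫ z, |(eval (rad z) P).re| ∂(mu n)
        ≤ ∫ z, ((eval (rad z) P).re + 4) ∂(mu n) := by
          refine integral_mono_ae hreint.abs (hreint.add (integrable_const _)) ?_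
          refine (ae_rad hn).mono fun z hz => ?_
          have h1 := re_f_bound (hψn _ hz) hr1 J
          rw [← hPe] at h1
          simp only
          rw [abs_le]
          constructor <;> linarith
      _ = 5 * V := by
          rw [integral_add hreint (integrable_const _), integral_const, smul_eq_mul, ← hV]
          have h1 : ∫ z, (eval (rad z) P).re ∂(mu n) = V := by
            have h2 := mean_value P
            have h3 : ∫ z, (eval (rad z) P).re ∂(mu n) = (∫ z, eval (rad z) P ∂(mu n)).re := by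
              have := integral_re (integrable_eval P)
              exact this
            rw [h3, h2, hP0, ← hV]
            simp
          rw [h1]
          ring
  -- lower bound
  have hb : ‖∫ z, eval (rad z) P * (starRingEnd ℂ) (eval (rad z) Q) ∂(mu n)‖ ≤
      6 * ∫ z, ‖eval (rad z) P‖ ∂(mu n) := by
    have hPQ : ∫ z, eval (rad z) P * eval (rad z) Q ∂(mu n) = 0 := by
      have h2 := mean_value (P * Q)
      simp only [map_mul, hQ0, mul_zero] at h2
      exact h2
    have hi1 : Integrable (fun z => eval (rad z) P * eval (rad z) Q) (mu n) :=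
      integrable_rad (g := fun z => eval z P * eval z Q) (by fun_prop)
    have hi2 : Integrable (fun z => eval (rad z) P * (starRingEnd ℂ) (eval (rad z) Q)) (mu n) :=
      integrable_rad (g := fun z => eval z P * (starRingEnd ℂ) (eval z Q))
        (hPcont.mul (Complex.continuous_conj.comp hQcont))
    have h3 : ∫ z, eval (rad z) P * (starRingEnd ℂ) (eval (rad z) Q) ∂(mu n) =
        -∫ z, eval (rad z) P * (eval (rad z) Q - (starRingEnd ℂ) (eval (rad z) Q)) ∂(mu n) := by
      have : (fun z : Fin n → ℂ => eval (rad z) P *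
          (eval (rad z) Q - (starRingEnd ℂ) (eval (rad z) Q))) = fun z =>
          eval (rad z) P * eval (rad z) Q - eval (rad z) P * (starRingEnd ℂ) (eval (rad z) Q) := by
        funext z
        ring
      rw [this, integral_sub hi1 hi2, hPQ, zero_sub, neg_neg]
    rw [h3, norm_neg, ← integral_const_mul]
    refine (norm_integral_le_integral_norm _).trans ?_
    refine integral_mono_ae ?_ ((integrable_eval P).norm.const_mul _) ?_
    · exact (integrable_rad (g := fun z => eval z P * (eval z Q - (starRingEnd ℂ) (eval z Q)))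
        (hPcont.mul (hQcont.sub (Complex.continuous_conj.comp hQcont)))).norm
    · refine (ae_rad hn).mono fun z hz => ?_
      simp only
      rw [norm_mul, mul_comm]
      have h4 := im_L_bound (hψn _ hz) hr1 J
      rw [← hQe] at h4
      have h5 : ‖eval (rad z) Q - (starRingEnd ℂ) (eval (rad z) Q)‖ =
          2 * |(eval (rad z) Q).im| := by
        rw [Complex.sub_conj, norm_mul, Complex.norm_I, mul_one, Complex.norm_real, norm_mul]
        norm_num
      rw [h5]
      have h6 : Real.pi ≤ 4 := Real.pi_le_four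
      have h7 : 2 * |(eval (rad z) Q).im| ≤ 6 := by linarith
      gcongr
  have hc : 2 * V * (∑ k ∈ Finset.range J, r ^ (2 * (k + 1)) / ((k : ℝ) + 1)) -
      4 * (J : ℝ) ^ 3 * η ≤
        (∫ z, eval (rad z) P * (starRingEnd ℂ) (eval (rad z) Q) ∂(mu n)).re := by
    have hQc : ∀ z, (starRingEnd ℂ) (eval z Q) = ∑ k ∈ Finset.range J,
        (((r ^ (k + 1) / ((k : ℝ) + 1) : ℝ) : ℂ)) * (starRingEnd ℂ) (eval z φ ^ (k + 1)) := by
      intro z
      rw [hQe, map_sum]
      refine Finset.sum_congr rfl fun k _ => ?_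
      rw [hψ, map_mul, eval_C, mul_pow, map_div₀, map_mul]
      simp only [map_pow, Complex.conj_ofReal, map_add, map_natCast, map_one]
      push_cast
      ring
    have hexp : ∀ z, eval z P * (starRingEnd ℂ) (eval z Q) =
        (starRingEnd ℂ) (eval z Q) + ∑ j ∈ Finset.range J, ∑ k ∈ Finset.range J,
          (((2 * r ^ (j + 1) * (r ^ (k + 1) / ((k : ℝ) + 1)) : ℝ) : ℂ)) *
            (eval z φ ^ (j + 1) * (starRingEnd ℂ) (eval z φ ^ (k + 1))) := by
      intro z
      rw [hPe, add_mul, one_mul]
      congr 1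
      rw [mul_assoc, Finset.sum_mul, Finset.mul_sum]
      refine Finset.sum_congr rfl fun j _ => ?_
      rw [hQc, Finset.mul_sum, Finset.mul_sum]
      refine Finset.sum_congr rfl fun k _ => ?_
      rw [hψ, map_mul, eval_C, mul_pow]
      push_cast
      ring
    have hiq : Integrable (fun z => (starRingEnd ℂ) (eval (rad z) Q)) (mu n) :=
      integrable_rad (g := fun z => (starRingEnd ℂ) (eval z Q))
        (Complex.continuous_conj.comp hQcont)
    have him : ∀ j k : ℕ, Integrable (fun z =>
        (((2 * r ^ (j + 1) * (r ^ (k + 1) / ((k : ℝ) + 1)) : ℝ) : ℂ)) *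
          (eval (rad z) φ ^ (j + 1) * (starRingEnd ℂ) (eval (rad z) φ ^ (k + 1)))) (mu n) := by
      intro j k
      exact integrable_rad (g := fun z =>
        (((2 * r ^ (j + 1) * (r ^ (k + 1) / ((k : ℝ) + 1)) : ℝ) : ℂ)) *
          (eval z φ ^ (j + 1) * (starRingEnd ℂ) (eval z φ ^ (k + 1))))
        (continuous_const.mul ((hφcont.pow _).mul
          (Complex.continuous_conj.comp (hφcont.pow _))))
    have h1 : ∫ z, eval (rad z) P * (starRingEnd ℂ) (eval (rad z) Q) ∂(mu n) =
        ∑ j ∈ Finset.range J, ∑ k ∈ Finset.range J,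
          (((2 * r ^ (j + 1) * (r ^ (k + 1) / ((k : ℝ) + 1)) : ℝ) : ℂ)) *
            ∫ z, (eval (rad z) φ ^ (j + 1) * (starRingEnd ℂ) (eval (rad z) φ ^ (k + 1))) ∂(mu n) := by
      have h2 : ∫ z, (starRingEnd ℂ) (eval (rad z) Q) ∂(mu n) = 0 := by
        rw [integral_conj, mean_value, hQ0, mul_zero, map_zero]
      simp only [hexp]
      rw [integral_add hiq (integrable_finsetSum _ fun j _ =>
        integrable_finsetSum _ fun k _ => him j k), h2, zero_add,
        integral_finsetSum _ (fun j _ => integrable_finsetSum _ fun k _ => him j k)]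
      refine Finset.sum_congr rfl fun j _ => ?_
      rw [integral_finsetSum _ (fun k _ => him j k)]
      refine Finset.sum_congr rfl fun k _ => ?_
      rw [integral_const_mul]
    rw [h1, Complex.re_sum]
    simp only [Complex.re_sum, Complex.re_ofReal_mul]
    have h3 : ∀ j ∈ Finset.range J, ∀ k ∈ Finset.range J,
        (if j = k then 2 * V * (r ^ (2 * (k + 1)) / ((k : ℝ) + 1)) else 0) - 4 * J * η ≤
        2 * r ^ (j + 1) * (r ^ (k + 1) / ((k : ℝ) + 1)) *
          (∫ z, (eval (rad z) φ ^ (j + 1) *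
            (starRingEnd ℂ) (eval (rad z) φ ^ (k + 1))) ∂(mu n)).re := by
      intro j _ k hk
      have hkJ : k + 1 ≤ J := Finset.mem_range.1 hk
      have h4 := moments hn hφ0 hφ1 hφ2.le (j + 1) (k + 1) (by omega) (by omega) J hkJ
      set I := (∫ z, (eval (rad z) φ ^ (j + 1) *
            (starRingEnd ℂ) (eval (rad z) φ ^ (k + 1))) ∂(mu n)).re
      have hk0 : (0 : ℝ) < (k : ℝ) + 1 := by positivity
      have hcoef0 : 0 ≤ 2 * r ^ (j + 1) * (r ^ (k + 1) / ((k : ℝ) + 1)) := by positivity
      have hcoef1 : 2 * r ^ (j + 1) * (r ^ (k + 1) / ((k : ℝ) + 1)) ≤ 2 := by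
        have h5 : r ^ (j + 1) ≤ 1 := pow_le_one₀ hr0.le hr1.le
        have h6 : r ^ (k + 1) / ((k : ℝ) + 1) ≤ 1 := by
          rw [div_le_one hk0]
          have h7 : r ^ (k + 1) ≤ 1 := pow_le_one₀ hr0.le hr1.le
          have h8 : (0 : ℝ) ≤ k := by positivity
          linarith
        have h9 : 0 ≤ r ^ (j + 1) := by positivity
        have h10 : 0 ≤ r ^ (k + 1) / ((k : ℝ) + 1) := by positivity
        nlinarith
      have hJη : 0 ≤ 2 * (J : ℝ) * η := by positivity
      have h5 := mul_le_mul_of_nonneg_left h4 hcoef0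
      refine le_trans ?_ h5
      by_cases hjk : j = k
      · subst hjk
        simp only [if_true]
        have h6 : 2 * r ^ (j + 1) * (r ^ (j + 1) / ((j : ℝ) + 1)) =
            2 * (r ^ (2 * (j + 1)) / ((j : ℝ) + 1)) := by ring
        have h7 : 2 * r ^ (j + 1) * (r ^ (j + 1) / ((j : ℝ) + 1)) * (2 * J * η) ≤
            2 * (2 * J * η) := mul_le_mul_of_nonneg_right hcoef1 hJη
        rw [mul_sub]
        rw [← hV]
        nlinarith
      · rw [if_neg hjk, if_neg (by omega)]
        have h7 : 2 * r ^ (j + 1) * (r ^ (k + 1) / ((k : ℝ) + 1)) * (2 * J * η) ≤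
            2 * (2 * J * η) := mul_le_mul_of_nonneg_right hcoef1 hJη
        nlinarith
    refine le_trans ?_ (Finset.sum_le_sum fun j hj => Finset.sum_le_sum fun k hk => h3 j hj k hk)
    simp only [Finset.sum_sub_distrib, Finset.sum_const, Finset.card_range, nsmul_eq_mul,
      Finset.sum_ite_eq]
    have h8 : ∑ x ∈ Finset.range J, (if x ∈ Finset.range J then
        2 * V * (r ^ (2 * (x + 1)) / ((x : ℝ) + 1)) else 0) =
        2 * V * ∑ k ∈ Finset.range J, r ^ (2 * (k + 1)) / ((k : ℝ) + 1) := by
      rw [Finset.mul_sum]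
      refine Finset.sum_congr rfl fun x hx => ?_
      rw [if_pos hx]
    rw [h8]
    apply le_of_eq
    ring
  -- conclusion
  have h1 := (Complex.re_le_norm _).trans hb
  have h2 := hc.trans h1
  have h3 : 4 * (J : ℝ) ^ 3 * η ≤ V := by
    rw [hη]
    have hJ0 : (0 : ℝ) ≤ J := by positivity
    have : (J : ℝ) ^ 3 ≤ (J + 1) ^ 3 := by gcongr; linarith
    rw [mul_div_assoc', div_le_iff₀ (by positivity)]
    nlinarith
  have h4 : M * ∫ z, |(eval (rad z) P).re| ∂(mu n) ≤ |M| * (5 * V) := by
    have h5 : 0 ≤ ∫ z, |(eval (rad z) P).re| ∂(mu n) := integral_nonneg fun z => abs_nonneg _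
    calc M * ∫ z, |(eval (rad z) P).re| ∂(mu n) ≤ |M| * ∫ z, |(eval (rad z) P).re| ∂(mu n) := by
          gcongr
          exact le_abs_self M
      _ ≤ _ := by gcongr
  have h5 : 2 * V * (15 * |M| + 1) ≤
      2 * V * (∑ k ∈ Finset.range J, r ^ (2 * (k + 1)) / ((k : ℝ) + 1)) := by gcongr
  refine lt_of_le_of_lt h4 ?_
  nlinarith

end Pool.Agent.H413R3
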